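import Mathlib

set_option autoImplicit false

/-! Midpoint Prekopa-Leindler inequality. -/

namespace Pool.Agent.Lib.MP_229ad9_gt

open MeasureTheory Set
open scoped ENNReal NNReal

lemma bm_compact {K L C : Set ℝ} (hK : IsCompact K) (hL : IsCompact L) (hKn : K.Nonempty)
    (hLn : L.Nonempty) (h : ∀ x ∈ K, ∀ y ∈ L, (x + y) / 2 ∈ C) :
    volume K + volume L ≤ 2 * volume C := by
  obtain ⟨a, ha, ha'⟩ := hK.exists_isMaxOn hKn continuousOn_id
  obtain ⟨b, hb, hb'⟩ := hL.exists_isMinOn hLn continuousOn_id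
  have key : ∀ (S : Set ℝ) (c : ℝ), volume S = 2 * volume ((fun z : ℝ => 2 * z - c) ⁻¹' S) := by
    intro S c
    have e : (fun z : ℝ => 2 * z - c) ⁻¹' S = (fun z : ℝ => 2 * z) ⁻¹' ((fun z => z + -c) ⁻¹' S) := by
      ext z; simp [sub_eq_add_neg]
    rw [e, Real.volume_preimage_mul_left (by norm_num), measure_preimage_add_right, ← mul_assoc]
    have : (2 : ℝ≥0∞) * ENNReal.ofReal |(2 : ℝ)⁻¹| = 1 := by
      rw [abs_of_pos (by norm_num), ENNReal.ofReal_inv_of_pos (by norm_num)]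
      simp [ENNReal.mul_inv_cancel]
    rw [this, one_mul]
  rw [key K b, key L a, ← mul_add]
  gcongr
  have hm : MeasurableSet ((fun z : ℝ => 2 * z - a) ⁻¹' L) :=
    hL.measurableSet.preimage (by fun_prop)
  rw [← measure_union_add_inter _ hm]
  have h0 : volume ((fun z : ℝ => 2 * z - b) ⁻¹' K ∩ (fun z : ℝ => 2 * z - a) ⁻¹' L) = 0 := by
    refine measure_mono_null (t := {(a + b) / 2}) ?_ (by simp)
    rintro z ⟨h1, h2⟩
    have e1 : 2 * z - b ≤ a := ha' h1
    have e2 : b ≤ 2 * z - a := hb' h2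
    simp only [mem_singleton_iff]; linarith
  rw [h0, add_zero]
  refine measure_mono ?_
  rintro z (hz | hz)
  · have := h _ hz _ hb
    rwa [show (2 * z - b + b) / 2 = z by ring] at this
  · have := h _ ha _ hz
    rwa [show (a + (2 * z - a)) / 2 = z by ring] at this

lemma bm_one {A B C : Set ℝ} (hA : MeasurableSet A) (hB : MeasurableSet B) (hAn : A.Nonempty)
    (hBn : B.Nonempty) (h : ∀ x ∈ A, ∀ y ∈ B, (x + y) / 2 ∈ C) :
    volume A + volume B ≤ 2 * volume C := by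
  obtain ⟨a, ha⟩ := hAn
  obtain ⟨b, hb⟩ := hBn
  have main : ∀ K ⊆ A, IsCompact K → ∀ L ⊆ B, IsCompact L →
      volume K + volume L ≤ 2 * volume C := by
    intro K hK hKc L hL hLc
    refine le_trans (add_le_add (measure_mono (subset_insert a K))
      (measure_mono (subset_insert b L))) ?_
    exact bm_compact (hKc.insert a) (hLc.insert b) (insert_nonempty _ _) (insert_nonempty _ _)
      fun x hx y hy => h x (insert_subset ha hK hx) y (insert_subset hb hL hy)
  rw [hA.measure_eq_iSup_isCompact, hB.measure_eq_iSup_isCompact]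
  have n1 : ∃ K, K ⊆ A ∧ IsCompact K := ⟨∅, empty_subset _, isCompact_empty⟩
  have n2 : ∃ K, K ⊆ B ∧ IsCompact K := ⟨∅, empty_subset _, isCompact_empty⟩
  have e : ∀ S : Set ℝ, (⨆ K, ⨆ (_ : K ⊆ S), ⨆ (_ : IsCompact K), volume K) =
      ⨆ K, ⨆ (_ : K ⊆ S ∧ IsCompact K), volume K := fun S => by simp only [iSup_and]
  rw [e, e]
  exact ENNReal.biSup_add_biSup_le' n1 n2 fun K hK L hL => main K hK.1 hK.2 L hL.1 hL.2

lemma pl_core {f g H : ℝ → ℝ} (hf : Measurable f) (hg : Measurable g) (hH : Measurable H)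
    (f0 : ∀ x, 0 ≤ f x) (g0 : ∀ x, 0 ≤ g x) (H0 : ∀ x, 0 ≤ H x) (f1 : ∀ x, f x ≤ 1)
    (g1 : ∀ x, g x ≤ 1) (fs : ∀ t < 1, ∃ x, t < f x) (gs : ∀ t < 1, ∃ x, t < g x)
    (h : ∀ x y, min (f x) (g y) ≤ H ((x + y) / 2)) :
    (∫⁻ x, ENNReal.ofReal (f x)) + ∫⁻ x, ENNReal.ofReal (g x) ≤
      2 * ∫⁻ x, ENNReal.ofReal (H x) := by
  rw [lintegral_eq_lintegral_meas_lt _ (.of_forall f0) hf.aemeasurable,
    lintegral_eq_lintegral_meas_lt _ (.of_forall g0) hg.aemeasurable,
    lintegral_eq_lintegral_meas_lt _ (.of_forall H0) hH.aemeasurable,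
    ← lintegral_const_mul' _ _ (by simp), ← lintegral_add_left]
  · refine lintegral_mono fun t => ?_
    rcases lt_or_ge t 1 with ht | ht
    · exact bm_one (measurableSet_lt measurable_const hf) (measurableSet_lt measurable_const hg)
        (fs t ht) (gs t ht) fun x hx y hy => (lt_min hx hy).trans_le (h x y)
    · have e1 : {a | t < f a} = ∅ := eq_empty_of_forall_notMem fun a ha =>
        absurd ((f1 a).trans ht) (not_le.2 ha)
      have e2 : {a | t < g a} = ∅ := eq_empty_of_forall_notMem fun a ha =>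
        absurd ((g1 a).trans ht) (not_le.2 ha)
      simp [e1, e2]
  · exact Antitone.measurable fun s t hst => measure_mono fun a ha => lt_of_le_of_lt hst ha

lemma amgm_enn {x y z : ℝ≥0∞} (h : x + y ≤ 2 * z) : x * y ≤ z ^ 2 := by
  rcases eq_or_ne z ⊤ with rfl | hz
  · simp
  have h2 : x + y ≠ ⊤ := ne_top_of_le_ne_top (by finiteness) h
  lift z to ℝ≥0 using hz
  lift x to ℝ≥0 using (ENNReal.add_ne_top.1 h2).1
  lift y to ℝ≥0 using (ENNReal.add_ne_top.1 h2).2
  have h' : (x : ℝ) + y ≤ 2 * z := by exact_mod_cast h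
  have : (x : ℝ) * y ≤ z ^ 2 := by
    nlinarith [sq_nonneg ((x : ℝ) - y), x.2, y.2, z.2, NNReal.coe_nonneg x, NNReal.coe_nonneg y]
  exact_mod_cast this

lemma pl_norm {f g H : ℝ → ℝ≥0∞} (hf : Measurable f) (hg : Measurable g) (hH : Measurable H)
    (fs : ⨆ x, f x = 1) (gs : ⨆ x, g x = 1)
    (h : ∀ x y, f x * g y ≤ H ((x + y) / 2) ^ 2) :
    (∫⁻ x, f x) * ∫⁻ x, g x ≤ (∫⁻ x, H x) ^ 2 := by
  have f1 : ∀ x, f x ≤ 1 := fun x => fs ▸ le_iSup f x
  have g1 : ∀ x, g x ≤ 1 := fun x => gs ▸ le_iSup g x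
  have ft : ∀ x, f x ≠ ⊤ := fun x => ne_top_of_le_ne_top ENNReal.one_ne_top (f1 x)
  have gt : ∀ x, g x ≠ ⊤ := fun x => ne_top_of_le_ne_top ENNReal.one_ne_top (g1 x)
  have Ht : ∀ x, min (H x) 1 ≠ ⊤ := fun x =>
    ne_top_of_le_ne_top ENNReal.one_ne_top (min_le_right _ _)
  have sup : ∀ u : ℝ → ℝ≥0∞, (∀ x, u x ≠ ⊤) → ⨆ x, u x = 1 → ∀ t < (1 : ℝ),
      ∃ x, t < (u x).toReal := by
    intro u ut us t ht
    rcases lt_or_ge t 0 with h0 | h0
    · exact ⟨0, h0.trans_le ENNReal.toReal_nonneg⟩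
    have : ENNReal.ofReal t < ⨆ x, u x := by rw [us]; exact ENNReal.ofReal_lt_one.2 ht
    obtain ⟨x, hx⟩ := lt_iSup_iff.1 this
    exact ⟨x, (ENNReal.ofReal_lt_iff_lt_toReal h0 (ut x)).1 hx⟩
  have := pl_core (f := fun x => (f x).toReal) (g := fun x => (g x).toReal)
    (H := fun x => (min (H x) 1).toReal) hf.ennreal_toReal hg.ennreal_toReal
    (hH.min measurable_const).ennreal_toReal (fun _ => ENNReal.toReal_nonneg)
    (fun _ => ENNReal.toReal_nonneg) (fun _ => ENNReal.toReal_nonneg)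
    (fun x => by simpa using ENNReal.toReal_mono ENNReal.one_ne_top (f1 x))
    (fun x => by simpa using ENNReal.toReal_mono ENNReal.one_ne_top (g1 x))
    (sup f ft fs) (sup g gt gs) fun x y => by
      rw [← ENNReal.toReal_min (ft x) (gt y)]
      refine ENNReal.toReal_mono (Ht _) (le_min ?_ ((min_le_left _ _).trans (f1 x)))
      have : min (f x) (g y) ^ 2 ≤ H ((x + y) / 2) ^ 2 := by
        refine le_trans ?_ (h x y)
        rw [sq]; exact mul_le_mul' (min_le_left _ _) (min_le_right _ _)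
      exact (ENNReal.pow_le_pow_left_iff (by norm_num)).1 this
  simp only [ENNReal.ofReal_toReal (ft _), ENNReal.ofReal_toReal (gt _),
    ENNReal.ofReal_toReal (Ht _)] at this
  refine amgm_enn (this.trans ?_)
  gcongr with x
  exact min_le_left _ _

lemma pl_bdd {f g H : ℝ → ℝ≥0∞} (hf : Measurable f) (hg : Measurable g) (hH : Measurable H)
    (fs : ⨆ x, f x ≠ ⊤) (gs : ⨆ x, g x ≠ ⊤)
    (h : ∀ x y, f x * g y ≤ H ((x + y) / 2) ^ 2) :
    (∫⁻ x, f x) * ∫⁻ x, g x ≤ (∫⁻ x, H x) ^ 2 := by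
  set a := ⨆ x, f x with ha
  set b := ⨆ x, g x with hb
  rcases eq_or_ne a 0 with a0 | a0
  · have : ∀ x, f x = 0 := fun x => le_antisymm (a0 ▸ le_iSup f x) bot_le
    simp [this]
  rcases eq_or_ne b 0 with b0 | b0
  · have : ∀ x, g x = 0 := fun x => le_antisymm (b0 ▸ le_iSup g x) bot_le
    simp [this]
  obtain ⟨c, hc⟩ : ∃ c : ℝ≥0∞, c ^ 2 = a⁻¹ * b⁻¹ :=
    ⟨(a⁻¹ * b⁻¹) ^ (2⁻¹ : ℝ), by
      rw [← ENNReal.rpow_natCast, ← ENNReal.rpow_mul]; norm_num⟩
  have := pl_norm (f := fun x => a⁻¹ * f x) (g := fun x => b⁻¹ * g x) (H := fun x => c * H x)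
    (hf.const_mul _) (hg.const_mul _) (hH.const_mul _)
    (by rw [← ENNReal.mul_iSup, ← ha, ENNReal.inv_mul_cancel a0 fs])
    (by rw [← ENNReal.mul_iSup, ← hb, ENNReal.inv_mul_cancel b0 gs]) fun x y => by
      rw [mul_pow, hc, mul_mul_mul_comm]
      exact mul_le_mul_right (h x y) _
  rw [lintegral_const_mul _ hf, lintegral_const_mul _ hg, lintegral_const_mul _ hH, mul_pow, hc,
    mul_mul_mul_comm] at this
  exact (ENNReal.mul_le_mul_iff_right (mul_ne_zero (ENNReal.inv_ne_zero.2 fs)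
    (ENNReal.inv_ne_zero.2 gs)) (ENNReal.mul_ne_top (ENNReal.inv_ne_top.2 a0)
      (ENNReal.inv_ne_top.2 b0))).1 this

lemma pl_one {f g H : ℝ → ℝ≥0∞} (hf : Measurable f) (hg : Measurable g) (hH : Measurable H)
    (h : ∀ x y, f x * g y ≤ H ((x + y) / 2) ^ 2) :
    (∫⁻ x, f x) * ∫⁻ x, g x ≤ (∫⁻ x, H x) ^ 2 := by
  have tr : ∀ u : ℝ → ℝ≥0∞, Measurable u → ∫⁻ x, u x = ⨆ N : ℕ, ∫⁻ x, min (u x) N := by
    intro u hu
    rw [← lintegral_iSup (fun N => hu.min measurable_const)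
      fun M N hMN x => min_le_min_left _ (by exact_mod_cast hMN)]
    refine lintegral_congr fun x => ?_
    rw [← inf_iSup_eq, ENNReal.iSup_natCast, inf_top_eq]
  rw [tr f hf, tr g hg, ENNReal.iSup_mul]
  refine iSup_le fun M => ?_
  rw [ENNReal.mul_iSup]
  refine iSup_le fun N => ?_
  refine pl_bdd (hf.min measurable_const) (hg.min measurable_const) hH ?_ ?_ fun x y =>
    (mul_le_mul' (min_le_left _ _) (min_le_left _ _)).trans (h x y)
  · exact ne_top_of_le_ne_top (ENNReal.natCast_ne_top M) (iSup_le fun x => min_le_right _ _)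
  · exact ne_top_of_le_ne_top (ENNReal.natCast_ne_top N) (iSup_le fun x => min_le_right _ _)

lemma pl_pi (n : ℕ) : ∀ {f g H : (Fin n → ℝ) → ℝ≥0∞}, Measurable f → Measurable g →
    Measurable H → (∀ x y, f x * g y ≤ H (fun i => (x i + y i) / 2) ^ 2) →
    (∫⁻ x, f x) * ∫⁻ x, g x ≤ (∫⁻ x, H x) ^ 2 := by
  induction n with
  | zero =>
    intro f g H _ _ _ h
    simp only [lintegral_unique, volume_pi, Measure.pi_univ, Finset.univ_eq_empty,
      Finset.prod_empty, mul_one]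
    exact (h _ _).trans (le_of_eq (by congr 2; exact Subsingleton.elim _ _))
  | succ n ih =>
    intro f g H hf hg hH h
    have mp := (volume_preserving_piFinSuccAbove (fun _ : Fin (n + 1) => ℝ) 0).symm
    set e := (MeasurableEquiv.piFinSuccAbove (fun _ : Fin (n + 1) => ℝ) 0).symm with he
    have tr : ∀ u : (Fin (n + 1) → ℝ) → ℝ≥0∞, Measurable u →
        ∫⁻ x, u x = ∫⁻ t : ℝ, ∫⁻ y : Fin n → ℝ, u (e (t, y)) := by
      intro u hu
      rw [← mp.lintegral_comp hu, Measure.volume_eq_prod]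
      exact lintegral_prod _ (hu.comp e.measurable).aemeasurable
    have ms : ∀ u : (Fin (n + 1) → ℝ) → ℝ≥0∞, Measurable u →
        Measurable fun t : ℝ => ∫⁻ y : Fin n → ℝ, u (e (t, y)) := fun u hu =>
      (hu.comp e.measurable).lintegral_prod_right'
    rw [tr f hf, tr g hg, tr H hH]
    refine pl_one (ms f hf) (ms g hg) (ms H hH) fun s t => ?_
    refine ih (hf.comp (e.measurable.comp measurable_prodMk_left))
      (hg.comp (e.measurable.comp measurable_prodMk_left))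
      (hH.comp (e.measurable.comp measurable_prodMk_left)) fun x y => ?_
    refine (h _ _).trans (le_of_eq ?_)
    congr 2
    funext i
    refine Fin.cases ?_ (fun j => ?_) i <;> simp [he, MeasurableEquiv.piFinSuccAbove, Fin.insertNthEquiv]

/-- Midpoint Prekopa-Leindler inequality in Euclidean space. -/
theorem prekopa {n : ℕ} {f g H : EuclideanSpace ℝ (Fin n) → ℝ} (hf : Measurable f)
    (hg : Measurable g) (hH : Measurable H) (f0 : ∀ x, 0 ≤ f x) (g0 : ∀ x, 0 ≤ g x)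
    (H0 : ∀ x, 0 ≤ H x) (Hi : Integrable H)
    (h : ∀ x y, f x * g y ≤ H ((1 / 2 : ℝ) • (x + y)) ^ 2) :
    (∫ x, f x) * ∫ x, g x ≤ (∫ x, H x) ^ 2 := by
  have mp := PiLp.volume_preserving_toLp (Fin n)
  have key := pl_pi n (f := fun x => ENNReal.ofReal (f (WithLp.toLp 2 x)))
    (g := fun x => ENNReal.ofReal (g (WithLp.toLp 2 x)))
    (H := fun x => ENNReal.ofReal (H (WithLp.toLp 2 x)))
    ((hf.comp mp.measurable).ennreal_ofReal) ((hg.comp mp.measurable).ennreal_ofReal)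
    ((hH.comp mp.measurable).ennreal_ofReal) fun x y => by
      rw [← ENNReal.ofReal_mul (f0 _), ← ENNReal.ofReal_pow (H0 _)]
      refine ENNReal.ofReal_le_ofReal ((h _ _).trans (le_of_eq ?_))
      congr 2
      ext i; simp; ring
  rw [mp.lintegral_comp hf.ennreal_ofReal, mp.lintegral_comp hg.ennreal_ofReal,
    mp.lintegral_comp hH.ennreal_ofReal] at key
  rw [integral_eq_lintegral_of_nonneg_ae (.of_forall f0) hf.aestronglyMeasurable,
    integral_eq_lintegral_of_nonneg_ae (.of_forall g0) hg.aestronglyMeasurable,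
    integral_eq_lintegral_of_nonneg_ae (.of_forall H0) hH.aestronglyMeasurable,
    ← ENNReal.toReal_mul, ← ENNReal.toReal_pow]
  exact ENNReal.toReal_mono (ENNReal.pow_ne_top Hi.lintegral_lt_top.ne) key

end Pool.Agent.Lib.MP_229ad9_gt
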