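import Pool.Agent.Lib.MP_229ad9_gt.Polar
import Pool.Agent.Lib.MP_229ad9_gt.PL

set_option autoImplicit false
set_option linter.unusedSectionVars false

/-! Transport cells. -/

namespace Pool.Agent.Lib.MP_229ad9_gt

open MeasureTheory Set Real Filter Topology

variable {j : ℕ} {ι : Type} [Fintype ι] [Nonempty ι]

lemma int_lin (C : ℝ) : Integrable fun h : Euc (j + 1) => exp (C * ‖h‖ - ‖h‖ ^ 2 / 2) :=
  (integrable_fun_norm_addHaar (μ := volume) (f := fun r => exp (C * r - r ^ 2 / 2))).2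
    (I_int _ C _)

/-- tilted Gaussian weight -/
noncomputable def W (β : ℝ) (a h : Euc (j + 1)) : ℝ := exp (β * inner ℝ a h - ‖h‖ ^ 2 / 2)

lemma W_pos (β : ℝ) (a h : Euc (j + 1)) : 0 < W β a h := exp_pos _

@[fun_prop] lemma W_cont (β : ℝ) (a : Euc (j + 1)) : Continuous (W β a) := by
  unfold W; fun_prop

lemma W_int (β : ℝ) (a : Euc (j + 1)) : Integrable (W β a) := by
  refine (int_lin (|β| * ‖a‖)).mono' (W_cont β a).aestronglyMeasurable (.of_forall fun h => ?_)
  rw [Real.norm_eq_abs, abs_of_pos (W_pos _ _ _)]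
  refine exp_le_exp.2 (sub_le_sub_right ((le_abs_self _).trans ?_) _)
  rw [abs_mul, mul_assoc]
  exact mul_le_mul_of_nonneg_left (abs_real_inner_le_norm _ _) (abs_nonneg _)

lemma W_int_mul (β : ℝ) (a : Euc (j + 1)) {u : Euc (j + 1) → ℝ} (hu : Continuous u) {C : ℝ}
    (h : ∀ x, |u x| ≤ C) : Integrable fun x => W β a x * u x :=
  (W_int β a).mul_bdd hu.aestronglyMeasurable (.of_forall h)

/-- cell of the power diagram -/
def cell (a : ι → Euc (j + 1)) (t : ι → ℝ) (i : ι) : Set (Euc (j + 1)) :=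
  {h | ∀ l, inner ℝ (a l) h - t l ≤ inner ℝ (a i) h - t i}

lemma cell_closed (a : ι → Euc (j + 1)) (t : ι → ℝ) (i : ι) : IsClosed (cell a t i) := by
  unfold cell
  rw [ofPred_forall]
  exact isClosed_iInter fun l => isClosed_le (by fun_prop) (by fun_prop)

lemma cell_mid (a : ι → Euc (j + 1)) (t t' : ι → ℝ) (i : ι) {x y : Euc (j + 1)}
    (hx : x ∈ cell a t i) (hy : y ∈ cell a t' i) :
    (1 / 2 : ℝ) • (x + y) ∈ cell a (fun l => (t l + t' l) / 2) i := fun l => by
  have := hx l
  have := hy l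
  simp only [real_inner_smul_right, inner_add_right]
  linarith

lemma hyper_null {v : Euc (j + 1)} (hv : v ≠ 0) (c : ℝ) :
    volume {h : Euc (j + 1) | inner ℝ v h = c} = 0 := by
  have hn : ‖v‖ ^ 2 ≠ 0 := by simpa using hv
  have e : {h : Euc (j + 1) | inner ℝ v h = c} = (fun h => h + -((c / ‖v‖ ^ 2) • v)) ⁻¹'
      (LinearMap.ker (innerₗ (Euc (j + 1)) v) : Set _) := by
    ext h
    simp only [mem_ofPred_eq, mem_preimage, SetLike.mem_coe, LinearMap.mem_ker, innerₗ_apply_apply,
      inner_add_right, inner_neg_right, real_inner_smul_right, real_inner_self_eq_norm_sq,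
      div_mul_cancel₀ _ hn]
    constructor <;> intro h <;> linarith
  rw [e, measure_preimage_add_right]
  refine Measure.addHaar_submodule _ _ fun h => hn ?_
  have : v ∈ LinearMap.ker (innerₗ (Euc (j + 1)) v) := h ▸ Submodule.mem_top
  simpa using this

lemma cell_sum {a : ι → Euc (j + 1)} (ha : Function.Injective a) (t : ι → ℝ) (S : Finset ι)
    {D : ι → Set (Euc (j + 1))} (hD : ∀ i, MeasurableSet (D i)) (hD' : ∀ i, D i ⊆ cell a t i)
    {w : ι → Euc (j + 1) → ℝ} (hw : ∀ i, Integrable (w i)) {Φ : Euc (j + 1) → ℝ}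
    (hΦ : Integrable Φ) (Φ0 : ∀ h, 0 ≤ Φ h) (hle : ∀ i ∈ S, ∀ h ∈ D i, h ≠ 0 → w i h ≤ Φ h) :
    ∑ i ∈ S, ∫ h in D i, w i h ≤ ∫ h, Φ h := by
  classical
  simp only [← integral_indicator (hD _)]
  rw [← integral_finsetSum _ fun i _ => (hw i).indicator (hD i)]
  refine integral_mono_ae (integrable_finsetSum _ fun i _ => (hw i).indicator (hD i)) hΦ ?_
  have ae : ∀ᵐ h : Euc (j + 1), ∀ i l, i ≠ l → inner ℝ (a i - a l) h ≠ t i - t l := by
    simp only [ae_all_iff]
    intro i l hil
    exact compl_mem_ae_iff.2 (hyper_null (sub_ne_zero.2 (ha.ne hil)) _)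
  have ae0 : ∀ᵐ h : Euc (j + 1), h ≠ 0 := compl_mem_ae_iff.2 (measure_singleton 0)
  filter_upwards [ae, ae0] with h h1 h0
  by_cases hx : ∃ i ∈ S, h ∈ D i
  · obtain ⟨i, hi, hi'⟩ := hx
    rw [Finset.sum_eq_single_of_mem i hi fun l _ hl => indicator_of_notMem (fun hl' => ?_) _,
      indicator_of_mem hi']
    · exact hle i hi h hi' h0
    · refine h1 l i hl ?_
      have := hD' i hi' l
      have := hD' l hl' i
      rw [inner_sub_left]; linarith
  · push Not at hx
    rw [Finset.sum_eq_zero fun i hi => indicator_of_notMem (hx i hi) _]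
    exact Φ0 h

/-- maximal tilted exponent -/
noncomputable def mx (β : ℝ) (a : ι → Euc (j + 1)) (s : ι → ℝ) (h : Euc (j + 1)) : ℝ :=
  Finset.univ.sup' Finset.univ_nonempty fun i => β * inner ℝ (a i) h - s i

lemma le_mx (β : ℝ) (a : ι → Euc (j + 1)) (s : ι → ℝ) (h : Euc (j + 1)) (i : ι) :
    β * inner ℝ (a i) h - s i ≤ mx β a s h :=
  Finset.le_sup' (fun i => β * inner ℝ (a i) h - s i) (Finset.mem_univ i)

lemma mx_le {β : ℝ} {a : ι → Euc (j + 1)} {s : ι → ℝ} {h : Euc (j + 1)} {b : ℝ}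
    (H : ∀ i, β * inner ℝ (a i) h - s i ≤ b) : mx β a s h ≤ b :=
  Finset.sup'_le _ _ fun i _ => H i

@[fun_prop] lemma mx_cont (β : ℝ) (a : ι → Euc (j + 1)) (s : ι → ℝ) : Continuous (mx β a s) :=
  Continuous.finset_sup'_apply Finset.univ_nonempty fun i _ => by fun_prop

lemma mx_int (β : ℝ) (a : ι → Euc (j + 1)) (s : ι → ℝ) :
    Integrable fun h => exp (mx β a s h - ‖h‖ ^ 2 / 2) := by
  refine (integrable_finsetSum Finset.univ fun i _ => (W_int β (a i)).mul_const
    (exp (-s i))).mono' (by fun_prop) (.of_forall fun h => ?_)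
  obtain ⟨i, -, hi⟩ := Finset.exists_mem_eq_sup' Finset.univ_nonempty
    fun i => β * inner ℝ (a i) h - s i
  rw [Real.norm_eq_abs, abs_of_pos (exp_pos _), mx, hi]
  refine le_trans (le_of_eq ?_) (Finset.single_le_sum (f := fun i => W β (a i) h * exp (-s i))
    (fun i _ => (mul_pos (W_pos _ _ _) (exp_pos _)).le) (Finset.mem_univ i))
  rw [W, ← exp_add]; congr 1; ring

/-- partition function -/
noncomputable def Zs (β : ℝ) (a : ι → Euc (j + 1)) (s : ι → ℝ) : ℝ :=
  ∫ h, exp (mx β a s h - ‖h‖ ^ 2 / 2)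

lemma Zs_le (β : ℝ) (a : ι → Euc (j + 1)) {s s' : ι → ℝ} {d : ℝ} (h : ∀ i, s i - s' i ≤ d) :
    Zs β a s' ≤ exp d * Zs β a s := by
  rw [Zs, Zs, ← integral_const_mul]
  refine integral_mono (mx_int _ _ _) ((mx_int _ _ _).const_mul _) fun x => ?_
  simp only [← exp_add]
  refine exp_le_exp.2 ?_
  have : mx β a s' x ≤ d + mx β a s x := mx_le fun i => by linarith [le_mx β a s x i, h i]
  linarith

lemma Zs_cont (β : ℝ) (a : ι → Euc (j + 1)) : Continuous (Zs β a) := by
  refine continuous_iff_continuousAt.2 fun s => ?_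
  have b : ∀ s s' : ι → ℝ, ∀ i, s i - s' i ≤ ‖s - s'‖ := fun s s' i =>
    (le_abs_self _).trans (norm_le_pi_norm (s - s') i)
  refine tendsto_of_tendsto_of_tendsto_of_le_of_le (g := fun s' => exp (-‖s' - s‖) * Zs β a s)
    (h := fun s' => exp ‖s - s'‖ * Zs β a s) (Continuous.tendsto' (by fun_prop) _ _ (by simp))
    (Continuous.tendsto' (by fun_prop) _ _ (by simp)) (fun s' => ?_) fun s' => Zs_le β a (b s s')
  have := mul_le_mul_of_nonneg_left (Zs_le β a (b s' s)) (exp_pos (-‖s' - s‖)).le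
  rwa [← mul_assoc, ← exp_add, neg_add_cancel, exp_zero, one_mul] at this

lemma W_total_pos (β : ℝ) (a : Euc (j + 1)) : 0 < ∫ h, W β a h := by
  rw [integral_pos_iff_support_of_nonneg (fun x => (W_pos β a x).le) (W_int β a)]
  rw [show Function.support (W β a) = univ from eq_univ_of_forall fun x => (W_pos β a x).ne']
  exact isOpen_univ.measure_pos _ univ_nonempty

lemma Zs_ge (β : ℝ) (a : ι → Euc (j + 1)) (s : ι → ℝ) (i : ι) :
    exp (-s i) * ∫ h, W β (a i) h ≤ Zs β a s := by
  rw [← integral_const_mul]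
  refine integral_mono ((W_int _ _).const_mul _) (mx_int _ _ _) fun x => ?_
  simp only [W, ← exp_add]
  exact exp_le_exp.2 (by linarith [le_mx β a s x i])

lemma exists_min (β : ℝ) (a : ι → Euc (j + 1)) {μ : ι → ℝ} (μ0 : ∀ i, 0 < μ i)
    (μ1 : ∑ i, μ i = 1) :
    ∃ s : ι → ℝ, ∀ s', Zs β a s + ∑ i, μ i * s i ≤ Zs β a s' + ∑ i, μ i * s' i := by
  refine Continuous.exists_forall_le_of_isBounded (f := fun s => Zs β a s + ∑ i, μ i * s i)
    ((Zs_cont β a).add (by fun_prop)) 0 ?_
  obtain ⟨c, c0, hc⟩ : ∃ c > 0, ∀ i, c ≤ ∫ h, W β (a i) h := by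
    obtain ⟨i, hi⟩ := Finite.exists_min fun i => ∫ h, W β (a i) h
    exact ⟨_, W_total_pos β (a i), hi⟩
  obtain ⟨m, m0, hm⟩ : ∃ m > 0, ∀ i, m ≤ μ i := by
    obtain ⟨i, hi⟩ := Finite.exists_min μ
    exact ⟨_, μ0 i, hi⟩
  set Y := Zs β a 0 with hY
  have Y0 : 0 ≤ Y := integral_nonneg fun _ => (exp_pos _).le
  set R := 4 / c + Y with hR
  refine (isBounded_iff_forall_norm_le).2 ⟨R + (Y + R) / m, fun s hs => ?_⟩
  simp only [mem_ofPred_eq, Pi.zero_apply, mul_zero, Finset.sum_const_zero, add_zero] at hs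
  obtain ⟨i0, hi0⟩ := Finite.exists_min s
  have e : ∑ i, μ i * s i = s i0 + ∑ i, μ i * (s i - s i0) := by
    simp only [mul_sub, Finset.sum_sub_distrib, ← Finset.sum_mul, μ1]; ring
  have t0 : ∀ i ∈ Finset.univ, 0 ≤ μ i * (s i - s i0) := fun i _ =>
    mul_nonneg (μ0 i).le (sub_nonneg.2 (hi0 i))
  have z1 : exp (-s i0) * c ≤ Zs β a s :=
    (mul_le_mul_of_nonneg_left (hc i0) (exp_pos _).le).trans (Zs_ge β a s i0)
  have z0 : 0 ≤ exp (-s i0) * c := by positivity
  have c2 : 0 < 4 / c := by positivity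
  have low : -R ≤ s i0 := by
    by_contra hh
    push Not at hh
    have x0 : 0 ≤ -s i0 := by linarith
    have q := quadratic_le_exp_of_nonneg x0
    have s0 := Finset.sum_nonneg t0
    have : (-s i0) ^ 2 / 2 * c ≤ Y + -s i0 := by nlinarith
    have h3 : 4 ≤ -s i0 * c := (div_le_iff₀ c0).1 (by linarith)
    nlinarith
  have R0 : 0 ≤ R := by positivity
  refine (pi_norm_le_iff_of_nonneg (by positivity)).2 fun i => ?_
  have h1 : μ i * (s i - s i0) ≤ Y + R := by
    have := Finset.single_le_sum t0 (Finset.mem_univ i)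
    linarith
  have h2 : s i - s i0 ≤ (Y + R) / m := by
    rw [le_div_iff₀ m0]
    nlinarith [hm i, sub_nonneg.2 (hi0 i)]
  have h3 : s i0 ≤ R := by linarith [Finset.sum_nonneg t0]
  have h4 : 0 ≤ (Y + R) / m := by positivity
  rw [Real.norm_eq_abs, abs_le]
  constructor <;> linarith [hi0 i]

theorem exists_pot {β : ℝ} (hβ : 0 < β) (a : ι → Euc (j + 1)) {μ : ι → ℝ} (μ0 : ∀ i, 0 < μ i)
    (μ1 : ∑ i, μ i = 1) : ∃ t : ι → ℝ, Zs β a (fun i => β * t i) ≤ 1 ∧
      ∀ i, μ i * exp (β * t i) ≤ ∫ h in cell a t i, W β (a i) h := by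
  classical
  obtain ⟨s, hs⟩ := exists_min β a μ0 μ1
  have es : (fun i => β * (s i / β)) = s := funext fun i => by field_simp
  have lim : Tendsto (fun n : ℕ => (1 : ℝ) / (n + 1)) atTop (𝓝 0) :=
    tendsto_one_div_add_atTop_nhds_zero_nat
  have lim2 : Tendsto (fun n : ℕ => exp (-((1 : ℝ) / (n + 1)))) atTop (𝓝 1) := by
    simpa using lim.neg.rexp
  have ex : ∀ τ : ℝ, exp τ - 1 ≤ τ * exp τ := fun τ => by
    have := mul_le_mul_of_nonneg_right (add_one_le_exp (-τ)) (exp_pos τ).le
    rw [← exp_add, neg_add_cancel, exp_zero] at this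
    linarith
  refine ⟨fun i => s i / β, ?_, fun i => ?_⟩
  · rw [es]
    have Z0 : 0 ≤ Zs β a s := integral_nonneg fun _ => (exp_pos _).le
    have : ∀ n : ℕ, exp (-((1 : ℝ) / (n + 1))) * Zs β a s ≤ 1 := fun n => by
      set τ : ℝ := 1 / (n + 1) with hτ
      have τ0 : 0 < τ := by positivity
      have h1 := hs fun i => s i + τ
      have h2 := Zs_le β a (s := s) (s' := fun i => s i + τ) (d := -τ) fun i => by linarith
      simp only [mul_add, Finset.sum_add_distrib, ← Finset.sum_mul, μ1] at h1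
      have h3 := add_one_le_exp τ
      have h4 : exp (-τ) * exp τ = 1 := by rw [← exp_add]; simp
      have h5 : τ * (exp (-τ) * Zs β a s) ≤ τ * 1 := by
        nlinarith [mul_le_mul_of_nonneg_left h3 (mul_nonneg (exp_pos (-τ)).le Z0)]
      exact le_of_mul_le_mul_left h5 τ0
    simpa using le_of_tendsto' (lim2.mul_const _) this
  · set D : ℕ → Set (Euc (j + 1)) := fun n =>
      {h | ∀ l, β * inner ℝ (a l) h - s l ≤ β * inner ℝ (a i) h - s i + 1 / (n + 1)} with hD
    have Dm : ∀ n, MeasurableSet (D n) := fun n => by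
      simp only [hD, ofPred_forall]
      exact (isClosed_iInter fun l => isClosed_le (by fun_prop) (by fun_prop)).measurableSet
    have Da : Antitone D := fun m n hmn h hh l => (hh l).trans (add_le_add_right
      (one_div_le_one_div_of_le (by positivity) (by exact_mod_cast Nat.succ_le_succ hmn)) _)
    have Di : ⋂ n, D n = cell a (fun i => s i / β) i := by
      ext h
      simp only [mem_iInter, hD, mem_ofPred_eq, cell]
      have q : ∀ l, inner ℝ (a l) h - s l / β = (β * inner ℝ (a l) h - s l) / β := fun l => by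
        field_simp
      simp only [q, div_le_div_iff_of_pos_right hβ]
      exact ⟨fun H l => by simpa using ge_of_tendsto' (lim.const_add _) fun n => H n l,
        fun H n l => (H l).trans (le_add_of_nonneg_right (by positivity))⟩
    have T := tendsto_setIntegral_of_antitone Dm Da ⟨0, (W_int β (a i)).integrableOn⟩
    rw [Di] at T
    have e1 : β * (s i / β) = s i := by field_simp
    rw [e1]
    refine le_of_tendsto_of_tendsto' (by simpa using lim2.mul_const (μ i * exp (s i))) T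
      fun n => ?_
    set τ : ℝ := 1 / (n + 1) with hτ
    have τ0 : 0 < τ := by positivity
    have h1 := hs fun l => s l - if l = i then τ else 0
    simp only [mul_sub, Finset.sum_sub_distrib, mul_ite, mul_zero, Finset.sum_ite_eq',
      Finset.mem_univ, if_true] at h1
    have h2 : Zs β a (fun l => s l - if l = i then τ else 0) ≤
        Zs β a s + (exp τ - 1) * exp (-s i) * ∫ h in D n, W β (a i) h := by
      rw [← integral_indicator (Dm n), ← integral_const_mul, Zs, Zs, ← integral_add (mx_int _ _ _)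
        (((W_int _ _).indicator (Dm n)).const_mul _)]
      refine integral_mono (mx_int _ _ _) ((mx_int _ _ _).add
        (((W_int _ _).indicator (Dm n)).const_mul _)) fun h => ?_
      have e1 : 0 ≤ exp τ - 1 := by linarith [add_one_le_exp τ]
      obtain ⟨l, -, hl⟩ := Finset.exists_mem_eq_sup' Finset.univ_nonempty
        fun l => β * inner ℝ (a l) h - (s l - if l = i then τ else 0)
      have e2 : 0 ≤ (exp τ - 1) * exp (-s i) * (D n).indicator (W β (a i)) h :=
        mul_nonneg (by positivity) (indicator_nonneg (fun x _ => (W_pos _ _ _).le) _)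
      show exp (mx β a _ h - _) ≤ exp (mx β a s h - _) + _
      rw [mx, hl]
      by_cases hm : β * inner ℝ (a l) h - (s l - if l = i then τ else 0) ≤ mx β a s h
      · linarith [exp_le_exp.2 (sub_le_sub_right hm (‖h‖ ^ 2 / 2))]
      push Not at hm
      have li : l = i := by
        by_contra hh
        rw [if_neg hh, sub_zero] at hm
        exact absurd (le_mx β a s h l) (not_le.2 hm)
      subst li
      rw [if_pos rfl] at hm ⊢
      have hD' : h ∈ D n := fun l' => by linarith [le_mx β a s h l']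
      rw [indicator_of_mem hD']
      have e3 : exp (β * inner ℝ (a l) h - (s l - τ) - ‖h‖ ^ 2 / 2) =
          exp τ * (exp (-s l) * W β (a l) h) := by
        rw [W, ← exp_add, ← exp_add]; congr 1; ring
      have e4 : exp (-s l) * W β (a l) h ≤ exp (mx β a s h - ‖h‖ ^ 2 / 2) := by
        rw [W, ← exp_add]
        exact exp_le_exp.2 (by linarith [le_mx β a s h l])
      rw [e3]
      linarith
    have M0 : 0 ≤ ∫ h in D n, W β (a i) h := integral_nonneg fun _ => (W_pos _ _ _).le
    have h3 : μ i * τ ≤ τ * exp τ * exp (-s i) * ∫ h in D n, W β (a i) h := by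
      refine le_trans (by linarith) (mul_le_mul_of_nonneg_right
        (mul_le_mul_of_nonneg_right (ex τ) (exp_pos _).le) M0)
    have h4 : μ i ≤ exp τ * exp (-s i) * ∫ h in D n, W β (a i) h :=
      le_of_mul_le_mul_left (by linarith) τ0
    have h5 := mul_le_mul_of_nonneg_left h4 (exp_pos (-τ + s i)).le
    rw [← mul_assoc, ← exp_add, ← exp_add, show -τ + s i + (τ + -s i) = 0 by ring, exp_zero,
      one_mul, exp_add] at h5
    simpa [hτ, mul_comm, mul_left_comm, mul_assoc] using h5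

end Pool.Agent.Lib.MP_229ad9_gt
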