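import Pool.Agent.Lib.MP_229ad9_gt.Window

set_option autoImplicit false
set_option linter.unusedSectionVars false

/-! The crossing argument. -/

namespace Pool.Agent.Lib.MP_229ad9_gt

open MeasureTheory Set Real Filter Topology

variable {j : ℕ} {ι : Type} [Fintype ι] [Nonempty ι]

lemma crossing {m : ℕ → ℝ} {δ : ℝ} {L : ℕ} (h0 : m 0 < δ / 4) (hL : 3 * δ / 4 < m L)
    (hδ : 0 < δ) (hj : ∀ l < L, |m l - m (l + 1)| < δ / 2) :
    ∃ l < L, δ / 4 ≤ m (l + 1) ∧ m (l + 1) ≤ 3 * δ / 4 := by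
  by_contra hc
  push Not at hc
  have : ∀ l ≤ L, m l < δ / 4 := by
    intro l hl
    induction l with
    | zero => exact h0
    | succ l ih =>
      by_contra hh
      have := hc l (by omega) (not_lt.1 hh)
      have := (abs_lt.1 (hj l (by omega))).1
      have := ih (by omega)
      linarith
  linarith [this L le_rfl]

lemma gauss_pos : 0 < ∫ h : Euc (j + 1), exp (-‖h‖ ^ 2 / 2) := by
  rw [gauss_total (j := j) (by simp)]
  exact mul_pos (sph_pos _) (I_pos _ _)

lemma exp_three : exp 3 ≤ 21 := by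
  have h := pow_le_pow_left₀ (exp_pos 1).le exp_one_lt_d9.le 3
  rw [← exp_nat_mul] at h
  norm_num at h ⊢
  linarith

theorem core {a : ι → Euc (j + 1)} (ha : ∀ i, ‖a i‖ = 1) (hinj : Function.Injective a)
    {μ : ι → ℝ} (μ0 : ∀ i, 0 < μ i) (μ1 : ∑ i, μ i = 1) {c : ℝ} (c0 : 0 ≤ c) (c1 : c < 1)
    {B : Set (Sph (j + 1))} (hB : MeasurableSet B)
    (hc : ∀ i h, h ≠ 0 → c * ‖h‖ ≤ inner ℝ (a i) h → h ∈ cone B) {K : ℕ}
    (hK : 8 * (j + 1) ≤ (K : ℝ) / 8 * (1 - c ^ 2)) {R : ℝ → ℝ} (R0 : ∀ β, 0 ≤ R β)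
    (R1 : ∀ β, 0 ≤ β → R β ≤ 1)
    (hG : ∀ β, 0 < β → β ≤ (K : ℝ) / 8 → ∀ s : ι → ℝ, (∑ i, μ i * exp (-s i)) *
      ∫ h : Euc (j + 1), exp (-‖h‖ ^ 2 / 2) ≤ 2 * exp 2 * (exp (-β ^ 2 / 2) * R β) * Zs β a s)
    {x : ℝ} (x0 : 0 ≤ x) (x1 : x ≤ 1)
    (hx : ∀ β, 0 ≤ β → x * (exp (-β ^ 2 / 2) * R β * (I j (β * c) / I j 0)) ≤ 2) :
    x ≤ 10 ^ 5 * K ^ 9 * sig B := by
  classical
  have j0 : (0 : ℝ) ≤ j := j.cast_nonneg
  have K0 : (64 : ℝ) ≤ K := by nlinarith [sq_nonneg c, (K.cast_nonneg : (0 : ℝ) ≤ K)]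
  set δ : ℝ := 8 / K with hδ
  have δ0 : 0 < δ := by positivity
  have Kδ : K * δ = 8 := by rw [hδ]; field_simp
  set b0 : ℝ := 1 / (j + 1) with hb0
  have b00 : 0 < b0 := by positivity
  have b01 : b0 ≤ 1 := (div_le_one (by positivity)).2 (by linarith)
  set L := K ^ 4 with hL
  have L0 : (0 : ℝ) < L := by rw [hL]; push_cast; positivity
  set Δ : ℝ := (K / 8 - b0) / L with hΔ
  have Δ0 : 0 ≤ Δ := div_nonneg (by linarith) L0.le
  have ΔL : L * Δ = K / 8 - b0 := by rw [hΔ]; field_simp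
  have Δ1 : Δ * K ^ 3 ≤ 1 / 8 := by
    have : (K : ℝ) * (Δ * K ^ 3) ≤ K * (1 / 8) := by
      have : (L : ℝ) = K ^ 4 := by rw [hL]; push_cast; rfl
      rw [this] at ΔL
      linarith
    exact le_of_mul_le_mul_left this (by linarith)
  set β : ℕ → ℝ := fun l => b0 + l * Δ with hβ
  have β0 : ∀ l, 0 < β l := fun l => by simp only [hβ]; positivity
  have β1 : ∀ l ≤ L, β l ≤ K / 8 := fun l hl => by
    have : (l : ℝ) * Δ ≤ L * Δ := mul_le_mul_of_nonneg_right (by exact_mod_cast hl) Δ0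
    simp only [hβ]; linarith
  have βδ : ∀ l ≤ L, β l * δ ≤ 1 := fun l hl => by
    linarith [mul_le_mul_of_nonneg_right (β1 l hl) δ0.le]
  choose t tZ tM using fun l => exists_pot (β0 l) a μ0 μ1
  set M : ℕ → ι → ℝ := fun l i => ∫ h in cell a (t l) i, W (β l) (a i) h with hM
  set m : ℕ → ι → ℝ := fun l i => mom (β l) c δ (a i) (cell a (t l) i) / M l i with hm
  have Mp : ∀ l i, 0 < M l i := fun l i => (mul_pos (μ0 i) (exp_pos _)).trans_le (tM l i)
  set Z := ∫ h : Euc (j + 1), exp (-‖h‖ ^ 2 / 2) with hZ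
  have Z0 : 0 < Z := gauss_pos
  have cm := fun l i => (cell_closed a (t l) i).measurableSet
  have cs : ∀ l ≤ L, ∀ (S : Finset ι) (y : ℝ), ∑ i ∈ S, M l i ≤ y * Z →
      (∑ i ∈ S, μ i) ^ 2 ≤ 2 * exp 2 * (exp (-β l ^ 2 / 2) * R (β l)) * y := by
    intro l hl S y hy
    have h1 := Finset.sum_sq_le_sum_mul_sum_of_sq_le_mul S (r := μ)
      (f := fun i => μ i * exp (β l * t l i)) (g := fun i => μ i * exp (-(β l * t l i)))
      (fun i _ => (mul_pos (μ0 i) (exp_pos _)).le) (fun i _ => (mul_pos (μ0 i) (exp_pos _)).le)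
      fun i _ => by rw [mul_mul_mul_comm, ← exp_add]; simp [sq]
    have h2 : ∑ i ∈ S, μ i * exp (β l * t l i) ≤ y * Z :=
      (Finset.sum_le_sum fun i _ => tM l i).trans hy
    have h3 : ∑ i ∈ S, μ i * exp (-(β l * t l i)) ≤ ∑ i, μ i * exp (-(β l * t l i)) :=
      Finset.sum_le_sum_of_subset_of_nonneg (Finset.subset_univ S)
        fun i _ _ => (mul_pos (μ0 i) (exp_pos _)).le
    have h4 := hG (β l) (β0 l) (β1 l hl) fun i => β l * t l i
    have g0 : 0 ≤ 2 * exp 2 * (exp (-β l ^ 2 / 2) * R (β l)) := by have := R0 (β l); positivity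
    have h5 := h4.trans (mul_le_of_le_one_right g0 (tZ l))
    have y0 : 0 ≤ y := nonneg_of_mul_nonneg_left ((Finset.sum_nonneg
      fun i _ => (mul_pos (μ0 i) (exp_pos _)).le).trans h2) Z0
    have h6 := h1.trans (mul_le_mul h2 h3 (Finset.sum_nonneg
      fun i _ => (mul_pos (μ0 i) (exp_pos _)).le) (by positivity))
    linarith [mul_le_mul_of_nonneg_left h5 y0]
  have icone : ∀ b : ℝ, ∫ h, (cone B).indicator (fun h => exp (b * ‖h‖ - ‖h‖ ^ 2 / 2)) h =
      sig B * (I j b / I j 0) * Z := fun b => by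
    rw [integral_indicator (cone_meas hB), int_cone hB]
  have sB := sig_nonneg B
  have I0 := I_pos j 0
  have e3 : exp 2 * exp 1 ≤ 21 := by rw [← exp_add]; norm_num [exp_three]
  have K9 : (64 : ℝ) ≤ K ^ 9 := K0.trans (le_self_pow₀ (by linarith) (by norm_num))
  by_cases h0 : 1 / 4 ≤ ∑ i ∈ Finset.univ.filter fun i => δ / 4 ≤ m 0 i, μ i
  · have h1 := cell_sum hinj (t 0) (Finset.univ.filter fun i => δ / 4 ≤ m 0 i)
      (D := fun i => cell a (t 0) i ∩ {h | 0 ≤ df c (a i) h})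
      (fun i => (cm 0 i).inter (lev_meas _ _ _)) (fun i => inter_subset_left)
      (fun i => W_int (β 0) (a i)) ((int_lin (β 0)).indicator (cone_meas hB))
      (fun h => indicator_nonneg (fun _ _ => (exp_pos _).le) _) fun i _ h hh h0 => by
        rw [indicator_of_mem (hc i h h0 (sub_nonneg.1 hh.2))]
        refine exp_le_exp.2 (sub_le_sub_right (mul_le_mul_of_nonneg_left ?_ (β0 0).le) _)
        simpa [ha] using real_inner_le_norm (a i) h
    rw [icone] at h1
    have h2 := cs 0 (Nat.zero_le _) (Finset.univ.filter fun i => δ / 4 ≤ m 0 i)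
      (4 * (sig B * (I j (β 0) / I j 0))) (by
        refine le_trans (Finset.sum_le_sum fun i hi => ?_) ((Finset.mul_sum _ _ 4).symm.le.trans
          ((mul_le_mul_of_nonneg_left h1 (by norm_num)).trans (le_of_eq (by ring))))
        have := (le_div_iff₀ (Mp 0 i)).1 (Finset.mem_filter.1 hi).2
        have h3 := mom_le (β 0) c δ0.le (a i) (cell a (t 0) i)
        exact le_of_mul_le_mul_left (a := δ) (by unfold up at h3; linarith) δ0)
    have h3 : I j (β 0) / I j 0 ≤ 2 * exp 1 := by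
      rw [div_le_iff₀ I0]; simpa [hβ, hb0] using I_start j
    have h4 : exp (-β 0 ^ 2 / 2) * R (β 0) ≤ 1 := mul_le_one₀
      (exp_le_one_iff.2 (by linarith [sq_nonneg (β 0)])) (R0 _) (R1 _ (β0 0).le)
    have h5 := (pow_le_pow_left₀ (by norm_num) h0 2).trans (h2.trans (mul_le_mul
      (mul_le_of_le_one_right (by positivity) h4) (mul_le_mul_of_nonneg_left
        (mul_le_mul_of_nonneg_left h3 sB) (by norm_num))
      (by have := I_pos j (β 0); positivity) (by positivity)))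
    linarith [mul_le_mul_of_nonneg_right e3 sB, mul_le_mul_of_nonneg_right K9 sB]
  by_cases hE : 1 / 4 ≤ ∑ i ∈ Finset.univ.filter fun i => m L i ≤ 3 * δ / 4, μ i
  · exfalso
    have h1 := cell_sum hinj (t L) (Finset.univ.filter fun i => m L i ≤ 3 * δ / 4)
      (D := fun i => cell a (t L) i \ {h | δ ≤ df c (a i) h})
      (fun i => (cm L i).diff (lev_meas _ _ _)) (fun i => sdiff_subset)
      (fun i => W_int (β L) (a i)) ((int_lin (β L * c)).const_mul (exp 1))
      (fun h => by positivity) fun i _ h hh h0 => by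
        rw [W, ← exp_add]
        refine exp_le_exp.2 ?_
        have : df c (a i) h < δ := not_le.1 hh.2
        unfold df at this
        linarith [βδ L le_rfl, mul_lt_mul_of_pos_left this (β0 L)]
    have e1 : ∫ h : Euc (j + 1), exp (β L * c * ‖h‖ - ‖h‖ ^ 2 / 2) =
        I j (β L * c) / I j 0 * Z := by
      rw [polar_univ volume fun r => exp (β L * c * r - r ^ 2 / 2), hZ,
        gauss_total (j := j) (by simp)]
      simp only [finrank_euclideanSpace, Fintype.card_fin, add_tsub_cancel_right]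
      show _ * I j _ = _
      field_simp
    rw [integral_const_mul, e1] at h1
    have h2 := cs L le_rfl (Finset.univ.filter fun i => m L i ≤ 3 * δ / 4)
      (4 * (exp 1 * (I j (β L * c) / I j 0))) (by
        refine le_trans (Finset.sum_le_sum fun i hi => ?_) ((Finset.mul_sum _ _ 4).symm.le.trans
          ((mul_le_mul_of_nonneg_left h1 (by norm_num)).trans (le_of_eq (by ring))))
        have := (div_le_iff₀ (Mp L i)).1 (Finset.mem_filter.1 hi).2
        have h3 := le_mom (β L) c δ0.le (a i) (cell a (t L) i)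
        have h4 := up_add (β L) c (a i) (cell a (t L) i) δ
        have h5 : up (β L) c (a i) (cell a (t L) i) δ ≤ 3 / 4 * M L i :=
          le_of_mul_le_mul_left (a := δ) (by linarith) δ0
        simp only [hM] at h5 ⊢
        linarith)
    have βL : β L = K / 8 := by simp only [hβ]; linarith
    have h3 : I j (β L * c) / I j 0 ≤ exp (β L ^ 2 / 2 - 14) := by
      rw [div_le_iff₀ I0]; exact I_end j c0 c1 (by rw [βL]; exact hK)
    have h4 : exp (-β L ^ 2 / 2) * R (β L) ≤ exp (-β L ^ 2 / 2) :=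
      mul_le_of_le_one_right (exp_pos _).le (R1 _ (β0 L).le)
    have h5 := (pow_le_pow_left₀ (by norm_num) hE 2).trans (h2.trans (mul_le_mul
      (mul_le_mul_of_nonneg_left h4 (by positivity)) (mul_le_mul_of_nonneg_left
        (mul_le_mul_of_nonneg_left h3 (exp_pos 1).le) (by norm_num))
      (by have := I_pos j (β L * c); positivity) (by positivity)))
    have h6 : 2 * exp 2 * exp (-β L ^ 2 / 2) * (4 * (exp 1 * exp (β L ^ 2 / 2 - 14))) =
        8 * exp (-11) := by
      have : exp (-11) = exp 2 * exp (-β L ^ 2 / 2) * (exp 1 * exp (β L ^ 2 / 2 - 14)) := by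
        simp only [← exp_add]; congr 1; ring
      rw [this]; ring
    have h7 : 2 ^ 11 ≤ exp 11 := by
      have := pow_le_pow_left₀ (by norm_num) (add_one_le_exp 1) 11
      rw [← exp_nat_mul] at this
      norm_num at this ⊢
      exact this
    rw [h6, exp_neg, ← div_eq_mul_inv, le_div_iff₀ (exp_pos _)] at h5
    linarith
  have hJ : ∀ l, (∑ i ∈ Finset.univ.filter fun i => δ / 2 ≤ |m l i - m (l + 1) i|, μ i) ≤
      1 / (4 * L) := fun l => by
    have e : β (l + 1) - β l = Δ := by simp only [hβ]; push_cast; ring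
    have K3 : (K : ℝ) ≤ K ^ 3 := le_self_pow₀ (by linarith) (by norm_num)
    have h1 := step ha hinj μ0 μ1 c0 c1.le δ0 (β1 := β l) (β2 := β (l + 1))
      (by
        rw [e, abs_of_nonneg Δ0]
        refine le_of_mul_le_mul_left (a := (K : ℝ)) ?_ (by linarith)
        linarith [mul_le_mul_of_nonneg_left K3 Δ0])
      (tZ l) (tZ (l + 1)) (tM l) (tM (l + 1))
      (Finset.univ.filter fun i => δ / 2 ≤ |m l i - m (l + 1) i|)
      fun i hi => (Finset.mem_filter.1 hi).2
    rw [e] at h1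
    rw [le_div_iff₀ (by positivity)]
    have hL' : (L : ℝ) = K ^ 4 := by rw [hL]; push_cast; rfl
    have h2 := mul_le_mul_of_nonneg_right h1 (show (0 : ℝ) ≤ K ^ 6 by positivity)
    have h3 : (Δ * K ^ 3) ^ 2 ≤ (1 / 8) ^ 2 := pow_le_pow_left₀ (by positivity) Δ1 2
    have h4 : δ ^ 2 * K ^ 6 = 64 * K ^ 4 := by
      calc δ ^ 2 * K ^ 6 = (K * δ) ^ 2 * K ^ 4 := by ring
        _ = _ := by rw [Kδ]; ring
    rw [mul_assoc, h4] at h2
    rw [hL']
    linarith
  have cov : 1 ≤ (∑ i ∈ Finset.univ.filter fun i => δ / 4 ≤ m 0 i, μ i) +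
      (∑ i ∈ Finset.univ.filter fun i => m L i ≤ 3 * δ / 4, μ i) +
      (∑ l ∈ Finset.range L,
        ∑ i ∈ Finset.univ.filter fun i => δ / 2 ≤ |m l i - m (l + 1) i|, μ i) +
      ∑ l ∈ Finset.range L, ∑ i ∈ Finset.univ.filter
        fun i => δ / 4 ≤ m (l + 1) i ∧ m (l + 1) i ≤ 3 * δ / 4, μ i := by
    simp only [Finset.sum_filter]
    rw [Finset.sum_comm, Finset.sum_comm (s := Finset.range L), ← μ1]
    simp only [← Finset.sum_add_distrib]
    refine Finset.sum_le_sum fun i _ => ?_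
    have nn : ∀ (p : Prop) [Decidable p], 0 ≤ if p then μ i else 0 := fun p _ => by
      split_ifs; exacts [(μ0 i).le, le_rfl]
    have n3 := Finset.sum_nonneg fun l (_ : l ∈ Finset.range L) =>
      nn (δ / 2 ≤ |m l i - m (l + 1) i|)
    have n4 := Finset.sum_nonneg fun l (_ : l ∈ Finset.range L) =>
      nn (δ / 4 ≤ m (l + 1) i ∧ m (l + 1) i ≤ 3 * δ / 4)
    have n1 := nn (δ / 4 ≤ m 0 i)
    have n2 := nn (m L i ≤ 3 * δ / 4)
    by_cases q1 : δ / 4 ≤ m 0 i
    · rw [if_pos q1]; linarith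
    by_cases q2 : m L i ≤ 3 * δ / 4
    · rw [if_pos q2]; linarith
    by_cases q3 : ∃ l < L, δ / 2 ≤ |m l i - m (l + 1) i|
    · obtain ⟨l, hl, q⟩ := q3
      have := Finset.single_le_sum (fun l (_ : l ∈ Finset.range L) =>
        nn (δ / 2 ≤ |m l i - m (l + 1) i|)) (Finset.mem_range.2 hl)
      rw [if_pos q] at this
      linarith
    push Not at q1 q2 q3
    obtain ⟨l, hl, q⟩ := crossing (m := fun l => m l i) q1 q2 δ0 q3
    have := Finset.single_le_sum (fun l (_ : l ∈ Finset.range L) =>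
      nn (δ / 4 ≤ m (l + 1) i ∧ m (l + 1) i ≤ 3 * δ / 4)) (Finset.mem_range.2 hl)
    rw [if_pos q] at this
    linarith
  have sJ : ∑ l ∈ Finset.range L, (∑ i ∈ Finset.univ.filter
      fun i => δ / 2 ≤ |m l i - m (l + 1) i|, μ i) ≤ 1 / 4 := by
    refine (Finset.sum_le_card_nsmul _ _ _ fun l _ => hJ l).trans (le_of_eq ?_)
    simp only [Finset.card_range, nsmul_eq_mul]; field_simp
  obtain ⟨l, hl, q⟩ : ∃ l ∈ Finset.range L, 1 / (4 * (L : ℝ)) ≤ ∑ i ∈ Finset.univ.filter
      fun i => δ / 4 ≤ m (l + 1) i ∧ m (l + 1) i ≤ 3 * δ / 4, μ i := by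
    refine Finset.exists_le_of_sum_le ⟨0, Finset.mem_range.2 (by exact_mod_cast L0)⟩ ?_
    have : ∑ _l ∈ Finset.range L, 1 / (4 * (L : ℝ)) = 1 / 4 := by
      simp only [Finset.sum_const, Finset.card_range, nsmul_eq_mul]; field_simp
    linarith [not_le.1 h0, not_le.1 hE]
  have hl' : l + 1 ≤ L := Finset.mem_range.1 hl
  set S := Finset.univ.filter fun i => δ / 4 ≤ m (l + 1) i ∧ m (l + 1) i ≤ 3 * δ / 4 with hS
  have h1 := cell_sum hinj (t (l + 1)) S
    (D := fun i => (cell a (t (l + 1)) i ∩ {h | 0 ≤ df c (a i) h}) \ {h | δ ≤ df c (a i) h})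
    (fun i => ((cm _ i).inter (lev_meas _ _ _)).diff (lev_meas _ _ _))
    (fun i => sdiff_subset.trans inter_subset_left) (fun i => W_int (β (l + 1)) (a i))
    (((int_lin (β (l + 1) * c)).indicator (cone_meas hB)).const_mul (exp 1))
    (fun h => mul_nonneg (exp_pos _).le (indicator_nonneg (fun _ _ => (exp_pos _).le) _))
    fun i _ h hh h0 => by
      rw [indicator_of_mem (hc i h h0 (sub_nonneg.1 hh.1.2)), W, ← exp_add]
      refine exp_le_exp.2 ?_
      have : df c (a i) h < δ := not_le.1 hh.2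
      unfold df at this
      linarith [βδ _ hl', mul_lt_mul_of_pos_left this (β0 (l + 1))]
  rw [integral_const_mul, icone] at h1
  have h2 := cs _ hl' S (28 * (K + 1) * (exp 1 * (sig B * (I j (β (l + 1) * c) / I j 0)))) (by
    refine le_trans (Finset.sum_le_sum fun i hi => ?_)
      ((Finset.mul_sum _ _ (28 * ((K : ℝ) + 1))).symm.le.trans
        ((mul_le_mul_of_nonneg_left h1 (by positivity)).trans (le_of_eq (by ring))))
    obtain ⟨-, q1, q2⟩ := Finset.mem_filter.1 hi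
    exact window _ c0 c1.le (ha i) (cm _ i) (fun x hx y hy => by
      simpa using cell_mid a _ _ i hx hy) Kδ δ0 (Mp _ i) ((le_div_iff₀ (Mp _ i)).1 q1)
      ((div_le_iff₀ (Mp _ i)).1 q2))
  have h3 := mul_le_mul_of_nonneg_left ((pow_le_pow_left₀ (by positivity) q 2).trans h2) x0
  have h4 := mul_le_mul_of_nonneg_left (hx _ (β0 (l + 1)).le)
    (show 0 ≤ 56 * (exp 2 * exp 1) * ((K : ℝ) + 1) * sig B by positivity)
  have h5 : x * (1 / (4 * (L : ℝ))) ^ 2 ≤ 112 * 21 * (2 * K) * sig B := by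
    have : 56 * (exp 2 * exp 1) * ((K : ℝ) + 1) * sig B * 2 ≤ 112 * 21 * (2 * K) * sig B := by
      have := mul_le_mul e3 (show (K : ℝ) + 1 ≤ 2 * K by linarith) (by positivity) (by norm_num)
      linarith [mul_le_mul_of_nonneg_right this sB]
    linarith
  have hL' : (L : ℝ) = K ^ 4 := by rw [hL]; push_cast; rfl
  rw [div_pow, one_pow, mul_one_div, div_le_iff₀ (by positivity), hL'] at h5
  have : 0 ≤ (K : ℝ) ^ 9 * sig B := by positivity
  linarith

end Pool.Agent.Lib.MP_229ad9_gt
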