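import Mathlib

set_option autoImplicit false

namespace Pool.Agent.Lib.MP_229ad9_gt

open MeasureTheory

/-- Euclidean space. -/
abbrev Euc (n : ℕ) : Type := EuclideanSpace ℝ (Fin n)

/-- The unit sphere. -/
abbrev Sph (n : ℕ) : Type := Metric.sphere (0 : Euc n) 1

/-- The normalised rotation invariant measure on the sphere. -/
noncomputable def sig {n : ℕ} (B : Set (Sph n)) : ℝ :=
  (volume : Measure (Euc n)).toSphere.real B / (volume : Measure (Euc n)).toSphere.real Set.univ

/-- `A` meets every `m`-dimensional subspace. -/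
def Transversal {n : ℕ} (m : ℕ) (A : Set (Sph n)) : Prop :=
  ∀ V : Submodule ℝ (Euc n), Module.finrank ℝ V = m → ∃ a ∈ A, (a : Euc n) ∈ V

/-- The closed Euclidean neighbourhood of `A` in the sphere. -/
def nbhd {n : ℕ} (A : Set (Sph n)) (ε : ℝ) : Set (Sph n) :=
  {x | Metric.infDist (x : Euc n) (Subtype.val '' A) ≤ ε}

/-- The least measure of a neighbourhood of an `m`-transversal set. -/
noncomputable def mu (n m : ℕ) (ε : ℝ) : ℝ :=
  sInf {t | ∃ A : Set (Sph n), Transversal m A ∧ t = sig (nbhd A ε)}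

/-- Half of a great sphere of dimension `k`. -/
def half (n k : ℕ) : Set (Sph n) :=
  {x | ∀ i : Fin n, (k < (i : ℕ) → (x : Euc n) i = 0) ∧ ((i : ℕ) = k → 0 ≤ (x : Euc n) i)}

end Pool.Agent.Lib.MP_229ad9_gt
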