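import Mathlib

set_option autoImplicit false

namespace Pool.Agent.Lib.MP_229ad9_gt

/-- The explicit integral giving the fraction of the unit sphere of `ℝ^(j+l)` within angle `ρ` of
`ℝ^j`. -/
noncomputable def tube (j l : ℕ) (ρ : ℝ) : ℝ :=
  if l = 0 then 1 else
    (∫ θ in (0 : ℝ)..ρ, Real.cos θ ^ (j - 1) * Real.sin θ ^ (l - 1)) /
      ∫ θ in (0 : ℝ)..Real.pi / 2, Real.cos θ ^ (j - 1) * Real.sin θ ^ (l - 1)

end Pool.Agent.Lib.MP_229ad9_gt
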