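import Pool.Agent.Lib.MP_229ad9_gt.Gordon

set_option autoImplicit false
set_option linter.unusedSectionVars false

/-! Gaussian expectations and the concrete comparison inequality. -/

namespace Pool.Agent.Lib.MP_229ad9_gt

open MeasureTheory Set Real

section
variable {J : Type} [Fintype J] {J' : Type} [Fintype J']

lemma gw_int : Integrable (gw : (J → ℝ) → ℝ) := by simpa using (Gr.const (J := J) 1).int

lemma gw_total : 0 < ∫ x : J → ℝ, gw x := by
  rw [integral_pos_iff_support_of_nonneg (fun x => (gw_pos x).le) gw_int]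
  have : Function.support (gw : (J → ℝ) → ℝ) = univ := eq_univ_of_forall fun x => (gw_pos x).ne'
  rw [this]
  exact isOpen_univ.measure_pos _ univ_nonempty

/-- Gaussian expectation. -/
noncomputable def Ex (f : (J → ℝ) → ℝ) : ℝ := (∫ x, f x * gw x) / ∫ x : J → ℝ, gw x

lemma Ex_one : Ex (fun _ : J → ℝ => 1) = 1 := by simp [Ex, gw_total.ne']

lemma Ex_const_mul (c : ℝ) (f : (J → ℝ) → ℝ) : Ex (fun x => c * f x) = c * Ex f := by
  simp only [Ex, mul_assoc, integral_const_mul, mul_div_assoc]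

lemma Ex_nonneg {f : (J → ℝ) → ℝ} (h : ∀ x, 0 ≤ f x) : 0 ≤ Ex f :=
  div_nonneg (integral_nonneg fun x => mul_nonneg (h x) (gw_pos x).le) gw_total.le

lemma Ex_mono {f g : (J → ℝ) → ℝ} (f0 : ∀ x, 0 ≤ f x) (hg : Integrable fun x => g x * gw x)
    (h : ∀ x, f x ≤ g x) : Ex f ≤ Ex g :=
  div_le_div_of_nonneg_right (integral_mono_of_nonneg
    (.of_forall fun x => mul_nonneg (f0 x) (gw_pos x).le) hg
    (.of_forall fun x => mul_le_mul_of_nonneg_right (h x) (gw_pos x).le)) gw_total.le

lemma gi_sum (f : (J → ℝ) → ℝ) (g : (J' → ℝ) → ℝ) :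
    ∫ x : J ⊕ J' → ℝ, f (fun l => x (.inl l)) * g (fun l => x (.inr l)) * gw x =
      (∫ x, f x * gw x) * ∫ x, g x * gw x := by
  rw [← integral_prod_mul, ← Measure.volume_eq_prod,
    ← (volume_measurePreserving_sumPiEquivProdPi fun _ : J ⊕ J' => ℝ).integral_comp']
  refine integral_congr_ae (.of_forall fun x => ?_)
  simp only [gw, Fintype.sum_sum_type, MeasurableEquiv.coe_sumPiEquivProdPi,
    Equiv.sumPiEquivProdPi_apply, neg_add, add_div, exp_add]
  ring

lemma Ex_sum (f : (J → ℝ) → ℝ) (g : (J' → ℝ) → ℝ) :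
    Ex (fun x : J ⊕ J' → ℝ => f (fun l => x (.inl l)) * g (fun l => x (.inr l))) =
      Ex f * Ex g := by
  have := gi_sum (J := J) (J' := J') (fun _ => 1) (fun _ => 1)
  simp only [one_mul] at this
  rw [Ex, gi_sum, this, Ex, Ex, div_mul_div_comm]

lemma Ex_equiv (e : J ≃ J') (f : (J → ℝ) → ℝ) :
    Ex (fun x : J' → ℝ => f fun l => x (e l)) = Ex f := by
  have key : ∀ f : (J → ℝ) → ℝ,
      ∫ x : J' → ℝ, (f fun l => x (e l)) * gw x = ∫ x, f x * gw x := fun f => by
    rw [← (volume_measurePreserving_piCongrLeft (fun _ : J' => ℝ) e).integral_comp']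
    refine integral_congr_ae (.of_forall fun x => ?_)
    simp only [gw, ← e.sum_comp, MeasurableEquiv.coe_piCongrLeft, Equiv.piCongrLeft_apply_apply]
  have := key fun _ => 1
  simp only [one_mul] at this
  rw [Ex, Ex, key, this]

lemma int_shift (b : ℝ) :
    ∫ t : ℝ, exp (b * t - t ^ 2 / 2) = exp (b ^ 2 / 2) * ∫ t : ℝ, exp (-t ^ 2 / 2) := by
  rw [← integral_const_mul, ← integral_sub_right_eq_self (fun t => _ * exp (-t ^ 2 / 2)) b]
  refine integral_congr_ae (.of_forall fun t => ?_)
  simp only [← exp_add]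
  congr 1; ring

lemma Ex_unit (b : ℝ) : Ex (fun x : Unit → ℝ => exp (b * x ())) = exp (b ^ 2 / 2) := by
  have key : ∀ f : ℝ → ℝ, ∫ x : Unit → ℝ, f (x ()) = ∫ t, f t := fun f =>
    (volume_preserving_funUnique Unit ℝ).integral_comp' f
  have h1 : ∫ x : Unit → ℝ, gw x = ∫ t : ℝ, exp (-t ^ 2 / 2) := by
    rw [← key]; simp [gw]
  have h2 : ∫ x : Unit → ℝ, exp (b * x ()) * gw x = ∫ t : ℝ, exp (b * t - t ^ 2 / 2) := by
    rw [← key]
    refine integral_congr_ae (.of_forall fun x => ?_)
    simp only [gw, Finset.univ_unique, Finset.sum_singleton, ← exp_add]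
    congr 1; ring
  rw [Ex, h2, int_shift, ← h1, mul_div_assoc, div_self gw_total.ne', mul_one]

end

variable {ι : Type} [Fintype ι] [Nonempty ι] {K N : Type} [Fintype K] [DecidableEq K] [Fintype N]
  [DecidableEq N]

/-- matrix times vector -/
def mv (G : K × N → ℝ) (a : N → ℝ) : K → ℝ := fun r => ∑ j, a j * G (r, j)

lemma soft_add {p : ℝ} (hp : 0 < p) (q c : ℝ) (y : ι → ℝ) :
    (soft p q fun i => c + y i) = exp (q * c) * soft p q y := by
  have hS : 0 < ∑ i, exp (p * y i) := Finset.sum_pos (fun i _ => exp_pos _) Finset.univ_nonempty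
  simp only [soft, mul_add, exp_add, ← Finset.mul_sum]
  rw [log_mul (exp_pos _).ne' hS.ne', log_exp, ← exp_add]
  congr 1; field_simp

theorem gordon_ex {p q σ η : ℝ} (hp : 0 < p) (hη : 0 < η) (hσ : σ * (q * (q - p)) ≤ 0) (β : ℝ)
    (s : ι → ℝ) (a : ι → N → ℝ) (ha : ∀ i, ∑ j, a i j ^ 2 = 1) :
    σ * (Ex (fun G : K × N → ℝ => soft p q fun i => -(β * psi η (mv G (a i))) - s i) *
      exp ((q * β) ^ 2 / 2)) ≤
    σ * (Ex (fun h : N → ℝ => soft p q fun i => β * lin (a i) h - s i) *
      Ex fun g : K → ℝ => exp (-(q * β * psi η g))) := by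
  have a1 : ∀ i j, |a i j| ≤ 1 := fun i j => by
    rw [← sq_le_one_iff_abs_le_one, ← ha i]
    exact Finset.single_le_sum (f := fun j => a i j ^ 2) (fun _ _ => sq_nonneg _)
      (Finset.mem_univ j)
  have key := gordon_soft (J := ((K × N) ⊕ Unit) ⊕ (N ⊕ K)) (K := K) (fun l => l.isLeft = true)
    hp hη hσ β s
    (fun i => Sum.elim (Sum.elim (fun _ => 0) fun _ => 1) (Sum.elim (a i) fun _ => 0))
    (fun i r => Sum.elim (Sum.elim (fun rj => if rj.1 = r then a i rj.2 else 0) fun _ => 0)
      (Sum.elim (fun _ => 0) fun r' => if r' = r then 1 else 0))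
    (fun i j => ∑ l, a i l * a j l) (fun i => by simpa only [sq] using ha i)
    (fun i j => by
      have : ∑ l, a i l * a j l ≤ ∑ l, (a i l ^ 2 + a j l ^ 2) / 2 :=
        Finset.sum_le_sum fun r _ => by nlinarith [sq_nonneg (a i r - a j r)]
      rw [← Finset.sum_div, Finset.sum_add_distrib, ha, ha] at this
      linarith)
    (fun i l => by rcases l with (l | l) | l | l <;> simp [a1])
    (fun i r l => by
      rcases l with (l | l) | l | l <;> simp only [Sum.elim_inl, Sum.elim_inr] <;>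
        (try split_ifs) <;> simp [a1])
    (fun i j => by simp [Fintype.sum_sum_type, sub_eq_add_neg])
    (fun i j r => by simp [Fintype.sum_sum_type])
    (fun i j r r' => by
      by_cases h : r = r'
      · simp [Fintype.sum_sum_type, Fintype.sum_prod_type, h, sub_eq_add_neg]
      · simp [Fintype.sum_sum_type, Fintype.sum_prod_type, h, Ne.symm h])
  have L := Ex_sum (J := (K × N) ⊕ Unit) (J' := N ⊕ K)
    (fun x => (soft p q fun i => -(β * psi η (mv (fun l => x (.inl l)) (a i))) - s i) *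
      exp (q * β * x (.inr ()))) (fun _ => 1)
  have R := Ex_sum (J := (K × N) ⊕ Unit) (J' := N ⊕ K) (fun _ => 1)
    (fun x => (soft p q fun i => β * lin (a i) (fun l => x (.inl l)) - s i) *
      exp (-(q * β * psi η fun l => x (.inr l))))
  rw [Ex_sum (fun G => soft p q fun i => -(β * psi η (mv G (a i))) - s i)
    (fun x => exp (q * β * x ())), Ex_unit, Ex_one, mul_one] at L
  rw [Ex_sum (fun h => soft p q fun i => β * lin (a i) h - s i)
    (fun g => exp (-(q * β * psi η g))), Ex_one, one_mul] at R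
  rw [← L, ← R, Ex, Ex, ← mul_div_assoc, ← mul_div_assoc]
  refine div_le_div_of_nonneg_right (le_of_eq_of_le ?_ (le_of_le_of_eq key ?_)) gw_total.le
  · congr 1
    refine integral_congr_ae (.of_forall fun x => ?_)
    simp only [mul_one]
    rw [mul_comm (soft _ _ _), mul_assoc q, ← soft_add hp]
    congr 2
    funext i
    unfold mv
    simp [lin, Fintype.sum_sum_type, Fintype.sum_prod_type]
    ring
  · congr 1
    refine integral_congr_ae (.of_forall fun x => ?_)
    simp only [one_mul]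
    rw [mul_comm (soft _ _ _) (exp _), mul_assoc q, ← mul_neg, ← soft_add hp]
    congr 2
    funext i
    simp [lin, Fintype.sum_sum_type]
    ring

end Pool.Agent.Lib.MP_229ad9_gt
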