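import Pool.Agent.Lib.MP_229ad9_gt.Soft

set_option autoImplicit false
set_option linter.unusedSectionVars false

/-! A Gordon type comparison inequality. -/

namespace Pool.Agent.Lib.MP_229ad9_gt

open MeasureTheory Set Real

variable {J : Type} [Fintype J] [DecidableEq J] {ι : Type} [Fintype ι] [Nonempty ι]
  {K : Type} [Fintype K] [DecidableEq K]

/-- linear form with given coefficients -/
def lin (c x : J → ℝ) : ℝ := ∑ l, c l * x l

lemma lin_line (c x : J → ℝ) (l : J) :
    HasDerivAt (fun t : ℝ => lin c (x + t • (Pi.single l 1 : J → ℝ))) (c l) 0 := by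
  have e : ∀ t : ℝ, lin c (x + t • (Pi.single l 1 : J → ℝ)) = lin c x + t * c l := fun t => by
    simp [lin, mul_add, Finset.sum_add_distrib, Pi.single_apply, mul_comm]
  simp only [e]
  simpa using ((hasDerivAt_id (0 : ℝ)).mul_const (c l)).const_add (lin c x)

lemma lin_diff (c : J → ℝ) : Differentiable ℝ (lin c) := by unfold lin; fun_prop

lemma lin_bound {c : J → ℝ} (hc : ∀ l, |c l| ≤ 1) (x : J → ℝ) :
    |lin c x| ≤ Fintype.card J * ‖x‖ := by
  refine (Finset.abs_sum_le_sum_abs _ _).trans ?_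
  have : ∀ l ∈ Finset.univ, |c l * x l| ≤ ‖x‖ := fun l _ => by
    rw [abs_mul]
    exact (mul_le_of_le_one_left (abs_nonneg _) (hc l)).trans (norm_le_pi_norm x l)
  simpa using Finset.sum_le_card_nsmul _ _ _ this

/-- smoothed Euclidean norm -/
noncomputable def psi (η : ℝ) (z : K → ℝ) : ℝ := √(η ^ 2 + ∑ r, z r ^ 2)

lemma psi_ge {η : ℝ} (z : K → ℝ) : η ≤ psi η z :=
  le_sqrt_of_sq_le (le_add_of_nonneg_right (by positivity))

lemma psi_sq (η : ℝ) (z : K → ℝ) : psi η z ^ 2 = η ^ 2 + ∑ r, z r ^ 2 := sq_sqrt (by positivity)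

lemma psi_le {η : ℝ} (hη : 0 ≤ η) (z : K → ℝ) : psi η z ≤ η + √(∑ r, z r ^ 2) := by
  refine sqrt_le_iff.2 ⟨by positivity, ?_⟩
  nlinarith [sq_sqrt (show 0 ≤ ∑ r, z r ^ 2 by positivity), sqrt_nonneg (∑ r, z r ^ 2)]

lemma le_psi (η : ℝ) (z : K → ℝ) : √(∑ r, z r ^ 2) ≤ psi η z :=
  sqrt_le_sqrt (le_add_of_nonneg_left (by positivity))

lemma psi_norm {η : ℝ} (hη : 0 < η) (z : K → ℝ) : ∑ r, (z r / psi η z) ^ 2 ≤ 1 := by
  have h := hη.trans_le (psi_ge z)
  simp only [div_pow, ← Finset.sum_div]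
  rw [div_le_one (by positivity), psi_sq]
  exact le_add_of_nonneg_left (by positivity)

theorem gordon_soft (P : J → Prop) [DecidablePred P] {p q σ η : ℝ} (hp : 0 < p) (hη : 0 < η)
    (hσ : σ * (q * (q - p)) ≤ 0) (β : ℝ) (s : ι → ℝ) (U : ι → J → ℝ) (Z : ι → K → J → ℝ)
    (g : ι → ι → ℝ) (g1 : ∀ i, g i i = 1) (g2 : ∀ i j, g i j ≤ 1)
    (bU : ∀ i l, |U i l| ≤ 1) (bZ : ∀ i r l, |Z i r l| ≤ 1)
    (hUU : ∀ i j, ∑ l, (if P l then 1 else -1) * (U i l * U j l) = 1 - g i j)
    (hUZ : ∀ i j r, ∑ l, (if P l then 1 else -1) * (U i l * Z j r l) = 0)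
    (hZZ : ∀ i j r r', ∑ l, (if P l then 1 else -1) * (Z i r l * Z j r' l) =
      if r = r' then g i j - 1 else 0) :
    σ * ∫ x : J → ℝ, (soft p q fun i => β * (lin (U i) (fun l => if P l then x l else 0) -
        psi η fun r => lin (Z i r) fun l => if P l then x l else 0) - s i) * gw x ≤
      σ * ∫ x : J → ℝ, (soft p q fun i => β * (lin (U i) (fun l => if P l then 0 else x l) -
        psi η fun r => lin (Z i r) fun l => if P l then 0 else x l) - s i) * gw x := by
  set ψ : ι → (J → ℝ) → ℝ := fun i x => psi η fun r => lin (Z i r) x with hψ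
  set y : ι → K → (J → ℝ) → ℝ := fun i r x => lin (Z i r) x / ψ i x with hy
  have ψpos : ∀ i x, 0 < ψ i x := fun i x => hη.trans_le (psi_ge _)
  have dψ : ∀ i, Differentiable ℝ (ψ i) := fun i => by
    refine Differentiable.sqrt ?_ fun x => by positivity
    have := fun r => lin_diff (Z i r)
    fun_prop
  have cy : ∀ i r, Continuous (y i r) := fun i r =>
    (lin_diff _).continuous.div (dψ i).continuous fun x => (ψpos i x).ne'
  have yn : ∀ i x, ∑ r, y i r x ^ 2 ≤ 1 := fun i x => psi_norm hη _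
  have y1 : ∀ i r x, |y i r x| ≤ 1 := fun i r x => by
    rw [← sq_le_one_iff_abs_le_one]
    exact (Finset.single_le_sum (f := fun r => y i r x ^ 2) (fun _ _ => sq_nonneg _)
      (Finset.mem_univ r)).trans (yn i x)
  have lψ : ∀ i l x, HasDerivAt (fun t : ℝ => ψ i (x + t • (Pi.single l 1 : J → ℝ)))
      (∑ r, y i r x * Z i r l) 0 := fun i l x => by
    have := ((HasDerivAt.fun_sum fun r (_ : r ∈ Finset.univ) =>
      (lin_line (Z i r) x l).fun_pow 2).const_add (η ^ 2)).sqrt (by positivity)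
    refine this.congr_deriv ?_
    simp only [zero_smul, add_zero, hy, hψ, psi, Finset.sum_div]
    exact Finset.sum_congr rfl fun r _ => by norm_num; ring
  have ly : ∀ i r l x, HasDerivAt (fun t : ℝ => y i r (x + t • (Pi.single l 1 : J → ℝ)))
      ((Z i r l - y i r x * ∑ r, y i r x * Z i r l) / ψ i x) 0 := fun i r l x => by
    have := (lin_line (Z i r) x l).fun_div (lψ i l x) (by simpa using (ψpos i x).ne')
    refine this.congr_deriv ?_
    have := (ψpos i x).ne'
    generalize ∑ r, y i r x * Z i r l = w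
    simp only [zero_smul, add_zero, hy]
    field_simp
  have bw : ∀ i l x, |∑ r, y i r x * Z i r l| ≤ Fintype.card K := fun i l x => by
    refine (Finset.abs_sum_le_sum_abs _ _).trans ?_
    have : ∀ r ∈ Finset.univ, |y i r x * Z i r l| ≤ 1 := fun r _ => by
      rw [abs_mul]; exact mul_le_one₀ (y1 i r x) (abs_nonneg _) (bZ i r l)
    simpa using Finset.sum_le_card_nsmul _ _ _ this
  set k : ℝ := (Fintype.card K : ℝ) with hk
  set N : ℝ := (Fintype.card J : ℝ) with hN
  have k0 : 0 ≤ k := by positivity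
  have N0 : 0 ≤ N := by positivity
  have s0 : 0 ≤ ∑ i, |s i| := by positivity
  have yZ : ∀ i j x, ∑ l, (if P l then 1 else -1) *
      ((∑ r, y i r x * Z i r l) * ∑ r, y j r x * Z j r l) =
      (g i j - 1) * ∑ r, y i r x * y j r x := fun i j x => by
    have : ∑ l, (if P l then 1 else -1) * ((∑ r, y i r x * Z i r l) * ∑ r, y j r x * Z j r l) =
        ∑ r, ∑ r', y i r x * y j r' x *
          ∑ l, (if P l then 1 else -1) * (Z i r l * Z j r' l) := by
      simp only [Finset.sum_mul_sum]
      simp only [Finset.mul_sum]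
      rw [Finset.sum_comm]
      refine Finset.sum_congr rfl fun i _ => ?_
      rw [Finset.sum_comm]
      exact Finset.sum_congr rfl fun j _ => Finset.sum_congr rfl fun l _ => by ring
    rw [this]
    simp only [hZZ, mul_ite, mul_zero, Finset.sum_ite_eq, Finset.mem_univ, if_true, Finset.mul_sum]
    exact Finset.sum_congr rfl fun r _ => by ring
  have UyZ : ∀ i j x, ∑ l, (if P l then 1 else -1) * (U i l * ∑ r, y j r x * Z j r l) = 0 :=
    fun i j x => by
    have : ∑ l, (if P l then 1 else -1) * (U i l * ∑ r, y j r x * Z j r l) =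
        ∑ r, y j r x * ∑ l, (if P l then 1 else -1) * (U i l * Z j r l) := by
      simp only [Finset.mul_sum]
      rw [Finset.sum_comm]
      exact Finset.sum_congr rfl fun j _ => Finset.sum_congr rfl fun l _ => by ring
    rw [this]; simp only [hUZ, mul_zero, Finset.sum_const_zero]
  have ee : ∀ i j x, ∑ l, (if P l then 1 else -1) * (β * (U i l - ∑ r, y i r x * Z i r l) *
      (β * (U j l - ∑ r, y j r x * Z j r l))) =
      β ^ 2 * ((1 - g i j) * (1 - ∑ r, y i r x * y j r x)) := fun i j x => by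
    have : ∑ l, (if P l then 1 else -1) * (β * (U i l - ∑ r, y i r x * Z i r l) *
        (β * (U j l - ∑ r, y j r x * Z j r l))) = β ^ 2 *
        (∑ l, (if P l then 1 else -1) * (U i l * U j l) -
        ∑ l, (if P l then 1 else -1) * (U i l * ∑ r, y j r x * Z j r l) -
        ∑ l, (if P l then 1 else -1) * (U j l * ∑ r, y i r x * Z i r l) +
        ∑ l, (if P l then 1 else -1) * ((∑ r, y i r x * Z i r l) * ∑ r, y j r x * Z j r l)) := by
      rw [← Finset.sum_sub_distrib, ← Finset.sum_sub_distrib, ← Finset.sum_add_distrib,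
        Finset.mul_sum]
      exact Finset.sum_congr rfl fun l _ => by ring
    rw [this, hUU, UyZ, UyZ, yZ]; ring
  refine soft_cmp P hp hσ (fun i x => β * (lin (U i) x - ψ i x) - s i)
    (fun i l x => β * (U i l - ∑ r, y i r x * Z i r l))
    (fun i l x => -(β / ψ i x) * (∑ r, Z i r l * Z i r l -
      (∑ r, y i r x * Z i r l) * ∑ r, y i r x * Z i r l))
    (fun i => (((lin_diff _).sub (dψ i)).const_mul β).sub_const _)
    (fun i l x => (((lin_line (U i) x l).fun_sub (lψ i l x)).const_mul β).sub_const _)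
    (fun i l x => ?_) (fun i l => by fun_prop)
    (fun i l => ((continuous_const.div (dψ i).continuous fun x => (ψpos i x).ne').neg).mul
      (by fun_prop))
    (C := |β| * (N + η + k * N + 1 + k) + ∑ i, |s i| + |β| / η * (k + k * k))
    (fun i x => ?_) (fun i l x => ?_) (fun i l x => ?_) (fun i x => ?_)
    (fun i x => by rw [ee, g1]; ring) (fun i j x => ?_)
  · have := (((HasDerivAt.fun_sum fun r (_ : r ∈ Finset.univ) =>
      (ly i r l x).mul_const (Z i r l))).const_sub (U i l)).const_mul β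
    refine this.congr_deriv ?_
    have : ∑ r, (Z i r l - y i r x * ∑ r, y i r x * Z i r l) / ψ i x * Z i r l =
        (∑ r, Z i r l * Z i r l - (∑ r, y i r x * Z i r l) * ∑ r, y i r x * Z i r l) / ψ i x := by
      rw [Finset.sum_mul, ← Finset.sum_sub_distrib, Finset.sum_div]
      exact Finset.sum_congr rfl fun r _ => by ring
    rw [this]; ring
  · have h1 := lin_bound (bU i) x
    have h2 : ψ i x ≤ η + k * (N * ‖x‖) := by
      refine (psi_le hη.le _).trans (add_le_add_right ?_ _)
      refine le_trans (sqrt_le_iff.2 ⟨by positivity, ?_⟩)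
        (show ∑ r, |lin (Z i r) x| ≤ _ by
          simpa using Finset.sum_le_card_nsmul _ _ _ fun r (_ : r ∈ Finset.univ) =>
            lin_bound (bZ i r) x)
      simpa only [sq_abs] using Finset.sum_sq_le_sq_sum_of_nonneg
        (f := fun r => |lin (Z i r) x|) fun r (_ : r ∈ Finset.univ) => abs_nonneg _
    have h3 : |s i| ≤ ∑ i, |s i| := Finset.single_le_sum (f := fun i => |s i|)
      (fun _ _ => abs_nonneg _) (Finset.mem_univ i)
    have h4 : |lin (U i) x - ψ i x| ≤ (N + η + k * N + 1 + k) * (1 + ‖x‖) := by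
      refine (abs_sub _ _).trans ?_
      rw [abs_of_pos (ψpos i x)]
      have := norm_nonneg x
      nlinarith [mul_nonneg k0 N0, mul_nonneg k0 this, mul_nonneg hη.le this]
    refine (abs_sub _ _).trans ?_
    rw [abs_mul]
    have h5 := mul_le_mul_of_nonneg_left h4 (abs_nonneg β)
    have h6 : 0 ≤ |β| / η * (k + k * k) * (1 + ‖x‖) := by positivity
    nlinarith [mul_nonneg s0 (norm_nonneg x)]
  · rw [abs_mul]
    have h4 : |U i l - ∑ r, y i r x * Z i r l| ≤ N + η + k * N + 1 + k := by
      refine (abs_sub _ _).trans ?_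
      nlinarith [bU i l, bw i l x, mul_nonneg k0 N0]
    have h5 := mul_le_mul_of_nonneg_left h4 (abs_nonneg β)
    have h6 : 0 ≤ |β| / η * (k + k * k) := by positivity
    linarith
  · rw [abs_mul, abs_neg, abs_div, abs_of_pos (ψpos i x)]
    have h4 : |∑ r, Z i r l * Z i r l - (∑ r, y i r x * Z i r l) * ∑ r, y i r x * Z i r l| ≤
        k + k * k := by
      refine (abs_sub _ _).trans (add_le_add ?_ ?_)
      · refine (Finset.abs_sum_le_sum_abs _ _).trans ?_
        have : ∀ r ∈ Finset.univ, |Z i r l * Z i r l| ≤ 1 := fun r _ => by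
          rw [abs_mul]; exact mul_le_one₀ (bZ i r l) (abs_nonneg _) (bZ i r l)
        simpa using Finset.sum_le_card_nsmul _ _ _ this
      · rw [abs_mul]; exact mul_le_mul (bw i l x) (bw i l x) (abs_nonneg _) k0
    have h5 : |β| / ψ i x ≤ |β| / η := div_le_div_of_nonneg_left (abs_nonneg _) hη (psi_ge _)
    have h6 := mul_le_mul h5 h4 (abs_nonneg _) (by positivity)
    have h7 : 0 ≤ |β| * (N + η + k * N + 1 + k) := by positivity
    linarith
  · have : ∑ l, (if P l then 1 else -1) * (-(β / ψ i x) * (∑ r, Z i r l * Z i r l -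
        (∑ r, y i r x * Z i r l) * ∑ r, y i r x * Z i r l)) = -(β / ψ i x) *
        (∑ r, ∑ l, (if P l then 1 else -1) * (Z i r l * Z i r l) -
        ∑ l, (if P l then 1 else -1) * ((∑ r, y i r x * Z i r l) * ∑ r, y i r x * Z i r l)) := by
      rw [Finset.sum_comm, ← Finset.sum_sub_distrib, Finset.mul_sum]
      refine Finset.sum_congr rfl fun l _ => ?_
      rw [← Finset.mul_sum]; ring
    rw [this, yZ]
    simp only [hZZ, g1, if_true, sub_self, Finset.sum_const_zero, zero_mul, mul_zero]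
  · rw [ee]
    refine mul_nonneg (sq_nonneg _) (mul_nonneg (sub_nonneg.2 (g2 i j)) (sub_nonneg.2 ?_))
    have : ∑ r, y i r x * y j r x ≤ ∑ r, (y i r x ^ 2 + y j r x ^ 2) / 2 :=
      Finset.sum_le_sum fun r _ => by nlinarith [sq_nonneg (y i r x - y j r x)]
    rw [← Finset.sum_div, Finset.sum_add_distrib] at this
    linarith [yn i x, yn j x]

end Pool.Agent.Lib.MP_229ad9_gt
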