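import Mathlib

set_option autoImplicit false

/-! Gaussian interpolation. -/

namespace Pool.Agent.Lib.MP_229ad9_gt

open MeasureTheory Set Real

variable {J : Type} [Fintype J]

/-- Unnormalised Gaussian weight. -/
noncomputable def gw (x : J → ℝ) : ℝ := exp (-(∑ l, x l ^ 2) / 2)

lemma gw_pos (x : J → ℝ) : 0 < gw x := exp_pos _

lemma continuous_gw : Continuous (gw : (J → ℝ) → ℝ) := by unfold gw; fun_prop

/-- Continuous functions of exponential growth. -/
def Gr (Φ : (J → ℝ) → ℝ) : Prop :=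
  Continuous Φ ∧ ∃ C, 0 ≤ C ∧ ∀ x, |Φ x| ≤ exp (C * (1 + ‖x‖))

lemma int_exp_abs (C : ℝ) : Integrable fun t : ℝ => exp (C * |t| - t ^ 2 / 2) := by
  refine ((integrable_exp_neg_mul_sq (b := 1 / 4) (by norm_num)).const_mul (exp (C ^ 2))).mono'
    (by fun_prop) (.of_forall fun t => ?_)
  rw [Real.norm_eq_abs, abs_of_pos (exp_pos _), ← exp_add]
  refine exp_le_exp.2 ?_
  nlinarith [sq_nonneg (C - |t| / 2), sq_abs t]

lemma int_exp_norm {C : ℝ} (hC : 0 ≤ C) :
    Integrable fun x : J → ℝ => exp (C * (1 + ‖x‖)) * gw x := by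
  have h := (Integrable.fintype_prod (ι := J) (f := fun _ (t : ℝ) => exp (C * |t| - t ^ 2 / 2))
    (μ := fun _ => volume) fun _ => int_exp_abs C).const_mul (exp C)
  refine h.mono' (by have := continuous_gw (J := J); fun_prop) (.of_forall fun x => ?_)
  rw [Real.norm_eq_abs, abs_of_pos (mul_pos (exp_pos _) (gw_pos x)), gw, ← exp_sum, ← exp_add,
    ← exp_add]
  refine exp_le_exp.2 ?_
  have : ‖x‖ ≤ ∑ l, |x l| := (pi_norm_le_iff_of_nonneg (by positivity)).2 fun l =>
    Finset.single_le_sum (f := fun l => |x l|) (fun _ _ => abs_nonneg _) (Finset.mem_univ l)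
  rw [Finset.sum_sub_distrib, ← Finset.mul_sum, ← Finset.sum_div]
  nlinarith

lemma Gr.int {Φ : (J → ℝ) → ℝ} (h : Gr Φ) : Integrable fun x => Φ x * gw x := by
  obtain ⟨hc, C, hC, hb⟩ := h
  refine (int_exp_norm hC).mono' (hc.mul continuous_gw).aestronglyMeasurable
    (.of_forall fun x => ?_)
  rw [Real.norm_eq_abs, abs_mul, abs_of_pos (gw_pos x)]
  exact mul_le_mul_of_nonneg_right (hb x) (gw_pos x).le

lemma Gr.mul {Φ Ψ : (J → ℝ) → ℝ} (h : Gr Φ) (h' : Gr Ψ) : Gr fun x => Φ x * Ψ x := by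
  obtain ⟨hc, C, hC, hb⟩ := h
  obtain ⟨hc', C', hC', hb'⟩ := h'
  refine ⟨hc.mul hc', C + C', by positivity, fun x => ?_⟩
  rw [abs_mul, add_mul, exp_add]
  exact mul_le_mul (hb x) (hb' x) (abs_nonneg _) (exp_pos _).le

lemma Gr.of_bdd {Φ : (J → ℝ) → ℝ} (hc : Continuous Φ) {C : ℝ}
    (h : ∀ x, |Φ x| ≤ C * (1 + ‖x‖)) : Gr Φ := by
  refine ⟨hc, |C|, abs_nonneg _, fun x => (h x).trans ?_⟩
  have := add_one_le_exp (|C| * (1 + ‖x‖))
  have h2 : C * (1 + ‖x‖) ≤ |C| * (1 + ‖x‖) :=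
    mul_le_mul_of_nonneg_right (le_abs_self C) (by positivity)
  linarith

lemma Gr.of_bdd' {Φ : (J → ℝ) → ℝ} (hc : Continuous Φ) {C : ℝ} (h : ∀ x, |Φ x| ≤ C) : Gr Φ :=
  .of_bdd hc (C := C) fun x => (h x).trans
    (le_mul_of_one_le_right ((abs_nonneg _).trans (h x)) (by linarith [norm_nonneg x]))

lemma Gr.const (c : ℝ) : Gr fun _ : J → ℝ => c := .of_bdd' continuous_const (C := |c|) fun _ => le_rfl

lemma Gr.coord (l : J) : Gr fun x : J → ℝ => x l :=
  .of_bdd (continuous_apply l) (C := 1) fun x => by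
    have := norm_le_pi_norm x l
    rw [Real.norm_eq_abs] at this
    linarith

lemma Gr.add {Φ Ψ : (J → ℝ) → ℝ} (h : Gr Φ) (h' : Gr Ψ) : Gr fun x => Φ x + Ψ x := by
  obtain ⟨hc, C, hC, hb⟩ := h
  obtain ⟨hc', C', hC', hb'⟩ := h'
  refine ⟨hc.add hc', C + C' + 1, by positivity, fun x => ?_⟩
  have hx : 1 ≤ 1 + ‖x‖ := by linarith [norm_nonneg x]
  have e1 : exp (C * (1 + ‖x‖)) ≤ exp ((C + C') * (1 + ‖x‖)) := exp_le_exp.2 (by nlinarith)
  have e2 : exp (C' * (1 + ‖x‖)) ≤ exp ((C + C') * (1 + ‖x‖)) := exp_le_exp.2 (by nlinarith)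
  have e3 : 2 ≤ exp (1 + ‖x‖) := by linarith [add_one_le_exp (1 + ‖x‖)]
  rw [add_mul _ 1, exp_add, one_mul]
  nlinarith [abs_add_le (Φ x) (Ψ x), hb x, hb' x, exp_pos ((C + C') * (1 + ‖x‖))]

lemma Gr.sum {ι : Type} (s : Finset ι) {Φ : ι → (J → ℝ) → ℝ} (h : ∀ i ∈ s, Gr (Φ i)) :
    Gr fun x => ∑ i ∈ s, Φ i x := by
  classical
  induction s using Finset.induction_on with
  | empty => simpa using Gr.const 0
  | insert i s hi ih =>
    simp only [Finset.sum_insert hi]
    exact (h i (by simp)).add (ih fun j hj => h j (by simp [hj]))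

lemma Gr.exp {Φ : (J → ℝ) → ℝ} (hc : Continuous Φ) {C : ℝ} (h : ∀ x, Φ x ≤ C * (1 + ‖x‖)) :
    Gr fun x => Real.exp (Φ x) :=
  ⟨by fun_prop, |C|, abs_nonneg _, fun x => by
    rw [abs_of_pos (exp_pos _)]
    exact exp_le_exp.2 ((h x).trans (mul_le_mul_of_nonneg_right (le_abs_self C) (by positivity)))⟩

lemma norm_scale {c : J → ℝ} (hc : ∀ l, |c l| ≤ 1) (x : J → ℝ) : ‖c * x‖ ≤ ‖x‖ :=
  (pi_norm_le_iff_of_nonneg (norm_nonneg _)).2 fun l => by
    rw [Pi.mul_apply, norm_mul]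
    exact (mul_le_of_le_one_left (norm_nonneg _) (hc l)).trans (norm_le_pi_norm x l)

lemma Gr.scale {Φ : (J → ℝ) → ℝ} (h : Gr Φ) {c : J → ℝ} (hc : ∀ l, |c l| ≤ 1) :
    Gr fun x => Φ (c * x) := by
  obtain ⟨h1, C, hC, hb⟩ := h
  exact ⟨by fun_prop, C, hC, fun x => (hb _).trans (exp_le_exp.2
    (mul_le_mul_of_nonneg_left (by linarith [norm_scale hc x]) hC))⟩

variable [DecidableEq J]

lemma gw_line (x : J → ℝ) (l : J) : HasLineDerivAt ℝ gw (-(x l * gw x)) x (Pi.single l 1) := by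
  have h : ∀ j, HasDerivAt (fun t : ℝ => (x + t • (Pi.single l 1 : J → ℝ)) j ^ 2)
      (2 * x j * (Pi.single l 1 : J → ℝ) j) 0 := fun j => by
    have := (((hasDerivAt_id (0 : ℝ)).mul_const ((Pi.single l 1 : J → ℝ) j)).const_add
      (x j)).fun_pow 2
    simpa using this
  have := ((HasDerivAt.fun_sum fun j (_ : j ∈ Finset.univ) => h j).fun_neg.div_const 2).exp
  refine this.congr_deriv ?_
  simp only [gw, Pi.single_apply, mul_ite, mul_one, mul_zero, Finset.sum_ite_eq',
    Finset.mem_univ, if_true, zero_smul, add_zero]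
  ring

lemma gauss_ibp {Φ Φ' : (J → ℝ) → ℝ} (l : J) (h : Gr Φ) (h' : Gr Φ')
    (hd : ∀ x, HasLineDerivAt ℝ Φ (Φ' x) x (Pi.single l 1)) :
    ∫ x, x l * Φ x * gw x = ∫ x, Φ' x * gw x := by
  have := integral_bilinear_hasLineDerivAt_right_eq_neg_left_of_integrable (μ := volume)
    (B := ContinuousLinearMap.mul ℝ ℝ) (f := Φ) (f' := Φ') (g := gw)
    (g' := fun x => -(x l * gw x)) (v := Pi.single l 1) (by simpa using h'.int)
    (by
      refine (((Gr.coord l).mul h).int.neg).congr (.of_forall fun x => ?_)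
      simp; ring) (by simpa using h.int) (fun x _ => hd x) (fun x _ => gw_line x l)
  simp only [ContinuousLinearMap.mul_apply', mul_neg, integral_neg, neg_inj] at this
  rw [← this]
  exact integral_congr_ae (.of_forall fun x => by ring)

theorem interp (p : J → Prop) [DecidablePred p] (Φ : (J → ℝ) → ℝ) (Φ1 Φ2 : J → (J → ℝ) → ℝ)
    (hd : Differentiable ℝ Φ) (h1 : ∀ l x, HasLineDerivAt ℝ Φ (Φ1 l x) x (Pi.single l 1))
    (h2 : ∀ l x, HasLineDerivAt ℝ (Φ1 l) (Φ2 l x) x (Pi.single l 1))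
    (g0 : Gr Φ) (g1 : ∀ l, Gr (Φ1 l)) (g2 : ∀ l, Gr (Φ2 l))
    (hle : ∀ x, ∑ l, (if p l then Φ2 l x else 0) ≤ ∑ l, (if p l then 0 else Φ2 l x)) :
    ∫ x : J → ℝ, Φ (fun l => if p l then x l else 0) * gw x ≤
      ∫ x : J → ℝ, Φ (fun l => if p l then 0 else x l) * gw x := by
  set c : ℝ → J → ℝ := fun t l => if p l then cos t else sin t with hc
  set c' : ℝ → J → ℝ := fun t l => if p l then -sin t else cos t with hc'
  have c1 : ∀ t l, |c t l| ≤ 1 := fun t l => by
    simp only [hc]; split_ifs; exacts [abs_cos_le_one t, abs_sin_le_one t]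
  have c1' : ∀ t l, |c' t l| ≤ 1 := fun t l => by
    simp only [hc']; split_ifs
    · rw [abs_neg]; exact abs_sin_le_one t
    · exact abs_cos_le_one t
  have fd : ∀ x v, fderiv ℝ Φ x v = ∑ l, v l * Φ1 l x := by
    intro x v
    have e : v = ∑ l, v l • (Pi.single l 1 : J → ℝ) := by
      ext j; simp [Finset.sum_apply, Pi.single_apply]
    conv_lhs => rw [e]
    rw [map_sum]
    refine Finset.sum_congr rfl fun l _ => ?_
    rw [map_smul, ((hd x).hasFDerivAt.hasLineDerivAt _).unique (h1 l x), smul_eq_mul]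
  have dt : ∀ x t, HasDerivAt (fun t => Φ (c t * x) * gw x)
      ((∑ l, c' t l * (x l * Φ1 l (c t * x))) * gw x) t := by
    intro x t
    have : HasDerivAt (fun t => c t * x) (c' t * x) t := by
      refine hasDerivAt_pi.2 fun l => ?_
      simp only [Pi.mul_apply, hc, hc']
      split_ifs
      exacts [(hasDerivAt_cos t).mul_const _, (hasDerivAt_sin t).mul_const _]
    have := ((hd _).hasFDerivAt.comp_hasDerivAt t this).mul_const (gw x)
    refine this.congr_deriv ?_
    rw [fd]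
    simp only [Pi.mul_apply, mul_assoc]
  choose C hC hb using fun l => (g1 l).2
  have hb2 : Gr fun x : J → ℝ => ∑ l, (1 + ‖x‖) * exp (C l * (1 + ‖x‖)) :=
    Gr.sum _ fun l _ => (Gr.of_bdd (C := 1) (by fun_prop) fun x => by
      rw [abs_of_nonneg (by positivity), one_mul]).mul (Gr.exp (by fun_prop) fun x => le_rfl)
  have gd : ∀ t, Gr fun x : J → ℝ => ∑ l, c' t l * (x l * Φ1 l (c t * x)) := fun t =>
    Gr.sum _ fun l _ => (Gr.const _).mul ((Gr.coord l).mul ((g1 l).scale (c1 t)))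
  have D : ∀ t, HasDerivAt (fun t => ∫ x, Φ (c t * x) * gw x)
      (∫ x, (∑ l, c' t l * (x l * Φ1 l (c t * x))) * gw x) t := by
    intro t
    refine (hasDerivAt_integral_of_dominated_loc_of_deriv_le (s := univ) (μ := volume)
      (F := fun t x => Φ (c t * x) * gw x)
      (F' := fun t x => (∑ l, c' t l * (x l * Φ1 l (c t * x))) * gw x) Filter.univ_mem
      (.of_forall fun s => (g0.scale (c1 s)).int.aestronglyMeasurable) (g0.scale (c1 t)).int
      (gd t).int.aestronglyMeasurable (.of_forall fun x s _ => ?_) hb2.int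
      (.of_forall fun x s _ => dt x s)).2
    rw [Real.norm_eq_abs, abs_mul, abs_of_pos (gw_pos x)]
    refine mul_le_mul_of_nonneg_right ((Finset.abs_sum_le_sum_abs _ _).trans
      (Finset.sum_le_sum fun l _ => ?_)) (gw_pos x).le
    rw [abs_mul, abs_mul]
    refine (mul_le_of_le_one_left (by positivity) (c1' s l)).trans (mul_le_mul ?_
      ((hb l _).trans (exp_le_exp.2 (mul_le_mul_of_nonneg_left
        (by linarith [norm_scale (c1 s) x]) (hC l)))) (abs_nonneg _) (by positivity))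
    have := norm_le_pi_norm x l
    rw [Real.norm_eq_abs] at this
    linarith
  have pos : ∀ t ∈ Icc 0 (π / 2), 0 ≤ ∫ x, (∑ l, c' t l * (x l * Φ1 l (c t * x))) * gw x := by
    intro t ht
    have e1 : ∫ x, (∑ l, c' t l * (x l * Φ1 l (c t * x))) * gw x =
        ∑ l, c' t l * ∫ x, x l * Φ1 l (c t * x) * gw x := by
      simp only [Finset.sum_mul, mul_assoc (c' t _)]
      rw [integral_finsetSum _ fun l _ =>
        (((Gr.coord l).mul ((g1 l).scale (c1 t))).int.const_mul _)]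
      simp only [integral_const_mul]
    have e2 : ∀ l, ∫ x, x l * Φ1 l (c t * x) * gw x = ∫ x, c t l * Φ2 l (c t * x) * gw x := by
      intro l
      refine gauss_ibp l ((g1 l).scale (c1 t)) ((Gr.const _).mul ((g2 l).scale (c1 t))) fun x => ?_
      have := (h2 l (c t * x)).smul (c t l)
      unfold HasLineDerivAt at this ⊢
      refine (this.congr_deriv (smul_eq_mul _ _)).congr_of_eventuallyEq (.of_forall fun s => ?_)
      show Φ1 l _ = Φ1 l _
      congr 1
      ext j
      by_cases hj : j = l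
      · simp [hj]; ring
      · simp [hj]
    rw [e1]
    simp only [e2, ← integral_const_mul]
    rw [← integral_finsetSum _ fun l _ =>
      (((Gr.const _).mul ((g2 l).scale (c1 t))).int.const_mul _)]
    refine integral_nonneg fun x => ?_
    have e3 : ∑ l, c' t l * (c t l * Φ2 l (c t * x) * gw x) = sin t * cos t * gw x *
        (∑ l, (if p l then 0 else Φ2 l (c t * x)) - ∑ l, (if p l then Φ2 l (c t * x) else 0)) := by
      rw [← Finset.sum_sub_distrib, Finset.mul_sum]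
      refine Finset.sum_congr rfl fun l _ => ?_
      simp only [hc, hc']
      split_ifs <;> ring
    simp only [Pi.zero_apply, e3]
    exact mul_nonneg (mul_nonneg (mul_nonneg
      (sin_nonneg_of_nonneg_of_le_pi ht.1 (by linarith [ht.2, pi_pos]))
      (cos_nonneg_of_neg_pi_div_two_le_of_le (by linarith [ht.1, pi_pos]) ht.2)) (gw_pos x).le)
      (sub_nonneg.2 (hle _))
  have mono : MonotoneOn (fun t => ∫ x, Φ (c t * x) * gw x) (Icc 0 (π / 2)) :=
    monotoneOn_of_deriv_nonneg (convex_Icc _ _)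
      (fun t _ => (D t).continuousAt.continuousWithinAt)
      (fun t _ => (D t).differentiableAt.differentiableWithinAt)
      fun t ht => by rw [(D t).deriv]; exact pos t (interior_subset ht)
  have hp : (0 : ℝ) ≤ π / 2 := by positivity
  have := mono (left_mem_Icc.2 hp) (right_mem_Icc.2 hp) hp
  have a1 : ∀ x : J → ℝ, c 0 * x = fun l => if p l then x l else 0 := fun x => by
    ext l; simp only [hc, Pi.mul_apply]; split_ifs <;> simp
  have a2 : ∀ x : J → ℝ, c (π / 2) * x = fun l => if p l then 0 else x l := fun x => by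
    ext l; simp only [hc, Pi.mul_apply]; split_ifs <;> simp
  simpa only [a1, a2] using this

end Pool.Agent.Lib.MP_229ad9_gt
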