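import Pool.Agent.Lib.MP_229ad9_gt.Core

set_option autoImplicit false
set_option linter.unusedSectionVars false

/-! The lower bound for neighbourhoods of transversal sets. -/

namespace Pool.Agent.Lib.MP_229ad9_gt

open MeasureTheory Set Real Filter Topology WithLp

section
variable {J : Type} [Fintype J]

@[fun_prop] lemma nrm_cont : Continuous (nrm : (J → ℝ) → ℝ) := by unfold nrm; fun_prop

lemma nrm_nonneg (x : J → ℝ) : 0 ≤ nrm x := sqrt_nonneg _

lemma bdd_int {f : (J → ℝ) → ℝ} (hf : Measurable f) {C : ℝ} (h : ∀ x, |f x| ≤ C) :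
    Integrable fun x => f x * gw x :=
  gw_int.bdd_mul hf.aestronglyMeasurable (.of_forall h)

lemma Ex_finsum {ι : Type} (s : Finset ι) {f : ι → (J → ℝ) → ℝ}
    (h : ∀ i ∈ s, Integrable fun x => f i x * gw x) :
    Ex (fun x => ∑ i ∈ s, f i x) = ∑ i ∈ s, Ex (f i) := by
  simp only [Ex, Finset.sum_mul, ← Finset.sum_div]
  rw [integral_finsetSum _ h]

lemma Ex_add {f g : (J → ℝ) → ℝ} (hf : Integrable fun x => f x * gw x)
    (hg : Integrable fun x => g x * gw x) : Ex (fun x => f x + g x) = Ex f + Ex g := by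
  simp only [Ex, add_mul, ← add_div]
  rw [integral_add hf hg]

lemma Ex_sub (p : J → Prop) [DecidablePred p] (f : ({i // p i} → ℝ) → ℝ)
    (g : ({i // ¬p i} → ℝ) → ℝ) :
    Ex (fun x : J → ℝ => f (fun i => x i) * g fun i => x i) = Ex f * Ex g := by
  rw [← Ex_sum, ← Ex_equiv (Equiv.sumCompl p)]
  rfl

lemma Ex_sub_left (p : J → Prop) [DecidablePred p] (f : ({i // p i} → ℝ) → ℝ) :
    Ex (fun x : J → ℝ => f fun i => x i) = Ex f := by
  simpa only [mul_one, Ex_one] using Ex_sub p f fun _ => 1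

lemma gr_exp_nrm (b : ℝ) {J' : Type} [Fintype J'] {T : (J → ℝ) → J' → ℝ} (hT : Continuous T)
    {C : ℝ} (h : ∀ x l, |T x l| ≤ C * ‖x‖) : Gr fun x => exp (b * nrm (T x)) := by
  refine Gr.exp (C := |b| * (Fintype.card J' * |C|)) (by fun_prop) fun x => ?_
  have h1 : nrm (T x) ≤ ∑ l, |T x l| := sqrt_le_iff.2 ⟨by positivity, by
    simpa only [sq_abs] using Finset.sum_sq_le_sq_sum_of_nonneg
      (f := fun l => |T x l|) fun r (_ : r ∈ Finset.univ) => abs_nonneg _⟩
  have h2 : ∑ l, |T x l| ≤ Fintype.card J' * (|C| * (1 + ‖x‖)) := by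
    simpa using Finset.sum_le_card_nsmul _ _ _ fun l (_ : l ∈ Finset.univ) => (h x l).trans
      (mul_le_mul (le_abs_self C) (le_add_of_nonneg_left zero_le_one) (norm_nonneg _)
        (abs_nonneg _))
  have := mul_le_mul (le_abs_self b) (h1.trans h2) (nrm_nonneg _) (abs_nonneg _)
  linarith

end

variable {n k m : ℕ}

lemma exists_ker (hkm : k + m = n) {A : Set (Sph n)} (hA : Transversal m A)
    (G : Fin k × Fin n → ℝ) : ∃ a ∈ A, mv G (ofLp (a : Euc n)) = 0 := by
  let T : Euc n →ₗ[ℝ] Fin k → ℝ :=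
    { toFun := fun a => mv G (ofLp a)
      map_add' := fun a b => by ext r; simp [mv, add_mul, Finset.sum_add_distrib]
      map_smul' := fun c a => by ext r; simp [mv, Finset.mul_sum, mul_assoc] }
  have h1 := T.finrank_range_add_finrank_ker
  have h2 : Module.finrank ℝ (LinearMap.range T) ≤ k := by
    simpa using Submodule.finrank_le (LinearMap.range T)
  simp only [finrank_euclideanSpace, Fintype.card_fin] at h1
  obtain ⟨f, hf⟩ := exists_linearIndependent_of_le_finrank (R := ℝ) (M := LinearMap.ker T)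
    (n := m) (by omega)
  obtain ⟨a, ha, ha'⟩ := hA (Submodule.span ℝ (range ((LinearMap.ker T).subtype ∘ f))) (by
    simpa using finrank_span_eq_card (hf.map' _ (LinearMap.ker T).ker_subtype))
  exact ⟨a, ha, Submodule.span_le.2 (range_subset_iff.2 fun i => (f i).2) ha'⟩

@[fun_prop] lemma mv_cont (a : Fin n → ℝ) : Continuous fun G : Fin k × Fin n → ℝ => mv G a := by
  unfold mv; fun_prop

/-- matrices which do not almost annihilate a member of `T` -/
def bad (k : ℕ) (η : ℝ) (T : Finset (Sph n)) : Set (Fin k × Fin n → ℝ) :=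
  {G | ∀ a ∈ T, η ≤ nrm (mv G (ofLp (a : Euc n)))}

lemma bad_meas (η : ℝ) (T : Finset (Sph n)) : MeasurableSet (bad k η T) := by
  simp only [bad, ofPred_forall]
  exact (isClosed_iInter fun a => isClosed_iInter fun _ =>
    isClosed_le continuous_const (by fun_prop)).measurableSet

lemma net (hkm : k + m = n) {A : Set (Sph n)} (hA : Transversal m A) {η : ℝ} (hη : 0 < η)
    {w : (Fin k × Fin n → ℝ) → ℝ} (hw : Gr w) (w0 : ∀ x, 0 ≤ w x) :
    ∃ T : Finset (Sph n), ↑T ⊆ A ∧ Ex ((bad k η T).indicator w) ≤ 1 / 2 := by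
  classical
  have lim := tendsto_setIntegral_of_antitone (μ := volume) (f := fun x => w x * gw x)
    (s := fun R : ℕ => (Metric.closedBall (0 : Fin k × Fin n → ℝ) R)ᶜ)
    (fun R => Metric.isClosed_closedBall.measurableSet.compl)
    (fun R R' h => compl_subset_compl.2 (Metric.closedBall_subset_closedBall (by exact_mod_cast h)))
    ⟨0, hw.int.integrableOn⟩
  rw [← compl_iUnion, Metric.iUnion_closedBall_nat, compl_univ, Measure.restrict_empty,
    integral_zero_measure] at lim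
  obtain ⟨R, hR⟩ := (lim.eventually (gt_mem_nhds (half_pos (gw_total
    (J := Fin k × Fin n))))).exists
  obtain ⟨t, ht⟩ := (isCompact_closedBall (0 : Fin k × Fin n → ℝ) R).elim_finite_subcover
    (fun a : A => {G | nrm (mv G (ofLp (a.1 : Euc n))) < η})
    (fun a => isOpen_lt (by fun_prop) continuous_const) fun G _ => by
      obtain ⟨a, ha, h⟩ := exists_ker hkm hA G
      exact mem_iUnion.2 ⟨⟨a, ha⟩, by simpa [h, nrm] using hη⟩
  refine ⟨t.image Subtype.val, fun a ha => ?_, ?_⟩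
  · obtain ⟨b, -, rfl⟩ := Finset.mem_image.1 ha
    exact b.2
  rw [Ex, div_le_iff₀ gw_total]
  simp only [← indicator_mul_left]
  rw [integral_indicator (bad_meas _ _)]
  refine le_trans (setIntegral_mono_set (t := (Metric.closedBall 0 R)ᶜ) hw.int.integrableOn
    (.of_forall fun x => mul_nonneg (w0 x) (gw_pos x).le) (LE.le.eventuallyLE fun G hG hG' => ?_))
    (by linarith)
  obtain ⟨a, ha, h⟩ := mem_iUnion₂.1 (ht hG')
  exact absurd (hG _ (Finset.mem_image_of_mem _ ha)) (not_le.2 h)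

lemma sum_sq_sph (a : Sph n) : ∑ l, ofLp (a : Euc n) l ^ 2 = 1 := by
  rw [← EuclideanSpace.real_norm_sq_eq]; simp

lemma abs_sph (a : Sph n) (l : Fin n) : |ofLp (a : Euc n) l| ≤ 1 := by
  rw [← sq_le_one_iff_abs_le_one]
  exact (Finset.single_le_sum (f := fun l => ofLp (a : Euc n) l ^ 2) (fun _ _ => sq_nonneg _)
    (Finset.mem_univ l)).trans_eq (sum_sq_sph a)

lemma inner_toLp (a : Euc n) (h : Fin n → ℝ) : inner ℝ a (toLp 2 h) = lin (ofLp a) h := by
  simp [PiLp.inner_apply, lin, mul_comm]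

lemma mv_bound (a : Sph n) (G : Fin k × Fin n → ℝ) (r : Fin k) :
    |mv G (ofLp (a : Euc n)) r| ≤ n * ‖G‖ := by
  refine (Finset.abs_sum_le_sum_abs _ _).trans ?_
  have : ∀ l ∈ Finset.univ, |ofLp (a : Euc n) l * G (r, l)| ≤ ‖G‖ := fun l _ => by
    rw [abs_mul]
    exact (mul_le_of_le_one_left (abs_nonneg _) (abs_sph a l)).trans (norm_le_pi_norm G _)
  simpa using Finset.sum_le_card_nsmul _ _ _ this

lemma soft_mv_gr {ι : Type} [Fintype ι] [Nonempty ι] {p : ℝ} (hp : 0 < p) (q β : ℝ) {η : ℝ}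
    (hη : 0 < η) (a : ι → Sph n) (s : ι → ℝ) : Gr fun G : Fin k × Fin n → ℝ =>
      soft p q fun i => -(β * psi η (mv G (ofLp (a i : Euc n)))) - s i := by
  refine soft_gr hp q (fun i => by unfold psi; fun_prop) (C := |β| * (η + k * n) + ∑ i, |s i|)
    fun i G => ?_
  have h1 : nrm (mv G (ofLp (a i : Euc n))) ≤ ∑ l, |mv G (ofLp (a i : Euc n)) l| :=
    sqrt_le_iff.2 ⟨by positivity, by
      simpa only [sq_abs] using Finset.sum_sq_le_sq_sum_of_nonneg
        (f := fun l => |mv G (ofLp (a i : Euc n)) l|) fun r (_ : r ∈ Finset.univ) => abs_nonneg _⟩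
  have h2 : ∑ l, |mv G (ofLp (a i : Euc n)) l| ≤ k * (n * ‖G‖) := by
    simpa using Finset.sum_le_card_nsmul _ _ _ fun l (_ : l ∈ Finset.univ) => mv_bound (a i) G l
  have h3 : psi η (mv G (ofLp (a i : Euc n))) ≤ (η + k * n) * (1 + ‖G‖) := by
    have := psi_le hη.le (mv G (ofLp (a i : Euc n)))
    unfold nrm at h1
    have h4 : (0 : ℝ) ≤ k * n := by positivity
    nlinarith [mul_nonneg hη.le (norm_nonneg G)]
  have h4 : |s i| ≤ ∑ i, |s i| := Finset.single_le_sum (f := fun i => |s i|)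
    (fun _ _ => abs_nonneg _) (Finset.mem_univ i)
  refine (abs_sub _ _).trans ?_
  rw [abs_neg, abs_mul, abs_of_pos (hη.trans_le (psi_ge _))]
  have s0 : 0 ≤ ∑ i, |s i| := by positivity
  nlinarith [mul_le_mul_of_nonneg_left h3 (abs_nonneg β), mul_nonneg s0 (norm_nonneg G)]

lemma weights (hkm : k + m = n) {A : Set (Sph n)} (hA : Transversal m A) {η : ℝ} (hη : 0 < η) :
    ∃ (T : Finset (Sph n)) (p : T → (Fin k × Fin n → ℝ) → ℝ), ↑T ⊆ A ∧ (∀ a, Measurable (p a)) ∧
      (∀ a G, 0 ≤ p a G) ∧ (∀ G, ∑ a, p a G ≤ 1) ∧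
      (∀ a G, p a G ≠ 0 → nrm (mv G (ofLp (a.1 : Euc n))) < η) ∧ (∀ a, 0 < Ex (p a)) ∧
      1 / 2 ≤ ∑ a, Ex (p a) := by
  classical
  obtain ⟨T, hT, hb⟩ := net hkm hA hη (Gr.const 1) fun _ => zero_le_one
  set u : Sph n → (Fin k × Fin n → ℝ) → ℝ :=
    fun a G => if nrm (mv G (ofLp (a : Euc n))) < η then 1 else 0 with hu
  have um : ∀ a, Measurable (u a) := fun a => Measurable.ite
    (isOpen_lt (by fun_prop) continuous_const).measurableSet measurable_const measurable_const
  have u0 : ∀ a G, 0 ≤ u a G := fun a G => by simp only [hu]; split_ifs <;> norm_num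
  set p : Sph n → (Fin k × Fin n → ℝ) → ℝ := fun a G => u a G / ∑ b ∈ T, u b G with hp
  have pm : ∀ a, Measurable (p a) := fun a => (um a).div (Finset.measurable_sum _ fun b _ => um b)
  have p0 : ∀ a G, 0 ≤ p a G := fun a G =>
    div_nonneg (u0 a G) (Finset.sum_nonneg fun b _ => u0 b G)
  have p1 : ∀ G, ∑ a ∈ T, p a G ≤ 1 := fun G => by
    simp only [hp, ← Finset.sum_div]
    exact div_self_le_one _
  have pi : ∀ a ∈ T, Integrable fun G => p a G * gw G := fun a ha => bdd_int (pm a) (C := 1)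
    fun G => by
      rw [abs_of_nonneg (p0 a G)]
      exact (Finset.single_le_sum (fun b _ => p0 b G) ha).trans (p1 G)
  have bi : Integrable fun G => (bad k η T).indicator (fun _ => (1 : ℝ)) G * gw G :=
    bdd_int (measurable_const.indicator (bad_meas η T)) (C := 1) fun G => by
      by_cases h : G ∈ bad k η T <;> simp [h]
  have tot : 1 / 2 ≤ ∑ a ∈ T, Ex (p a) := by
    have si : Integrable fun G => (∑ a ∈ T, p a G) * gw G := by
      simp only [Finset.sum_mul]; exact integrable_finsetSum _ pi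
    have := Ex_mono (f := fun _ => 1) (g := fun G => (∑ a ∈ T, p a G) +
        (bad k η T).indicator (fun _ => (1 : ℝ)) G) (fun _ => zero_le_one)
      (by simp only [add_mul]; exact si.add bi) fun G => by
        by_cases h : G ∈ bad k η T
        · rw [indicator_of_mem h]
          exact le_add_of_nonneg_left (Finset.sum_nonneg fun b _ => p0 b G)
        · rw [indicator_of_notMem h, add_zero]
          simp only [bad, mem_ofPred_eq, not_forall, not_le] at h
          obtain ⟨a, ha, h⟩ := h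
          have : u a G ≤ ∑ b ∈ T, u b G := Finset.single_le_sum (fun b _ => u0 b G) ha
          simp only [hp, ← Finset.sum_div]
          rw [div_self]
          simp only [hu, if_pos h] at this ⊢
          linarith
    rw [Ex_one, Ex_add si bi, Ex_finsum _ pi] at this
    linarith
  refine ⟨T.filter fun a => 0 < Ex (p a), fun a => p a, (Finset.coe_subset.2
    (Finset.filter_subset _ _)).trans hT, fun a => pm a, fun a => p0 a, fun G => ?_,
    fun a G h => ?_, fun a => (Finset.mem_filter.1 a.2).2, ?_⟩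
  · rw [Finset.sum_coe_sort _ fun a => p a G]
    exact (Finset.sum_le_sum_of_subset_of_nonneg (Finset.filter_subset _ _)
      fun b _ _ => p0 b G).trans (p1 G)
  · by_contra hh
    exact h (by simp only [hp, hu, if_neg hh, zero_div])
  · rw [Finset.sum_coe_sort _ fun a => Ex (p a), Finset.sum_filter_of_ne
      fun a _ h => lt_of_le_of_ne (Ex_nonneg (p0 a)) h.symm]
    exact tot

lemma Ex_neg_le {k' : ℕ} {β η : ℝ} (hβ : 0 ≤ β) :
    Ex (fun g : Fin (k' + 1) → ℝ => exp (-(β * psi η g))) ≤ I k' (-β) / I k' 0 := by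
  rw [← Ex_exp_nrm (J := Fin (k' + 1)) (by simp)]
  refine Ex_mono (fun _ => (exp_pos _).le) (gr_exp_nrm (-β) continuous_id (C := 1)
    fun x l => by simpa using norm_le_pi_norm x l).int fun g => exp_le_exp.2 ?_
  have := mul_le_mul_of_nonneg_left (le_psi η g) hβ
  unfold nrm
  linarith

lemma gordon_fin {j k' : ℕ} {ι : Type} [Fintype ι] [Nonempty ι] (a : ι → Sph (j + 1)) {η : ℝ}
    (hη : 0 < η) (p : ι → (Fin (k' + 1) × Fin (j + 1) → ℝ) → ℝ) (pm : ∀ a, Measurable (p a))
    (p0 : ∀ a G, 0 ≤ p a G) (p1 : ∀ G, ∑ a, p a G ≤ 1)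
    (p2 : ∀ i G, p i G ≠ 0 → nrm (mv G (ofLp (a i : Euc (j + 1)))) < η) {β : ℝ} (hβ : 0 ≤ β)
    (hβη : β * (2 * η) ≤ 1) (s : ι → ℝ) :
    (∑ i, Ex (p i) * exp (-s i)) * ∫ h : Euc (j + 1), exp (-‖h‖ ^ 2 / 2) ≤
      exp 2 * (exp (-β ^ 2 / 2) * (I k' (-β) / I k' 0)) * Zs β (fun i => (a i : Euc (j + 1))) s := by
  have N1 : (1 : ℝ) ≤ Fintype.card ι := by exact_mod_cast Fintype.card_pos
  have key := gordon_ex (K := Fin (k' + 1)) (p := Fintype.card ι) (q := 1) (σ := 1) (by linarith)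
    hη (by linarith) β s (fun i => ofLp (a i : Euc (j + 1))) fun i => sum_sq_sph _
  have pb : ∀ i G, |p i G| ≤ 1 := fun i G => by
    rw [abs_of_nonneg (p0 i G)]
    exact (Finset.single_le_sum (fun b _ => p0 b G) (Finset.mem_univ i)).trans (p1 G)
  have L : ∑ i, exp (-1 - s i) * Ex (p i) ≤ Ex fun G : Fin (k' + 1) × Fin (j + 1) → ℝ =>
      soft (Fintype.card ι) 1 fun i => -(β * psi η (mv G (ofLp (a i : Euc (j + 1))))) - s i := by
    simp only [← Ex_const_mul]
    rw [← Ex_finsum _ fun i _ => by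
      simpa only [mul_assoc] using (bdd_int (pm i) (pb i)).const_mul _]
    refine Ex_mono (fun G => Finset.sum_nonneg fun i _ => mul_nonneg (exp_pos _).le (p0 i G))
      (soft_mv_gr (by linarith) 1 β hη a s).int fun G => ?_
    refine le_trans (Finset.sum_le_sum fun i _ => ?_) ((Finset.mul_sum _ _ _).symm.le.trans
      (mul_le_of_le_one_right (exp_pos _).le (p1 G)))
    by_cases h : p i G = 0
    · simp [h]
    refine mul_le_mul_of_nonneg_right (le_trans (exp_le_exp.2 ?_) (soft_ge (by linarith) _ i))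
      (p0 i G)
    have h1 := psi_le hη.le (mv G (ofLp (a i : Euc (j + 1))))
    have h2 := p2 i G h
    unfold nrm at h2
    nlinarith
  have R : (Ex fun h : Fin (j + 1) → ℝ => soft (Fintype.card ι) 1
      fun i => β * lin (ofLp (a i : Euc (j + 1))) h - s i) ≤
      exp 1 * (Zs β (fun i => (a i : Euc (j + 1))) s / ∫ h : Euc (j + 1), exp (-‖h‖ ^ 2 / 2)) := by
    have e := Ex_toLp (J := Fin (j + 1)) fun h => exp (mx β (fun i => (a i : Euc (j + 1))) s h)
    simp only [← exp_add, neg_div, ← sub_eq_add_neg] at e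
    simp only [neg_div]
    rw [Zs, ← e, ← Ex_const_mul]
    refine Ex_mono (fun _ => (exp_pos _).le) ?_ fun h => ?_
    · have := ((PiLp.volume_preserving_toLp (Fin (j + 1))).integrable_comp_of_integrable
        (mx_int β (fun i => (a i : Euc (j + 1))) s)).const_mul (exp 1)
      refine this.congr (.of_forall fun x => ?_)
      simp only [Function.comp, norm_toLp, nrm_sq, gw, add_assoc, ← exp_add, neg_div,
        sub_eq_add_neg]
    · rw [← exp_add, add_comm (1 : ℝ)]
      exact soft_le _ fun i => by rw [← inner_toLp]; exact le_mx β (fun i => (a i : Euc (j + 1))) s _ i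
  have Z0 := gauss_pos (j := j)
  have Zs0 : 0 ≤ Zs β (fun i => (a i : Euc (j + 1))) s := integral_nonneg fun _ => (exp_pos _).le
  rw [one_mul, one_mul, one_mul] at key
  have h1 := (mul_le_mul_of_nonneg_right L (exp_pos _).le).trans (key.trans
    (mul_le_mul R (Ex_neg_le hβ) (Ex_nonneg fun _ => (exp_pos _).le) (by positivity)))
  have e1 : ∑ i, exp (-1 - s i) * Ex (p i) = exp (-1) * ∑ i, Ex (p i) * exp (-s i) := by
    rw [Finset.mul_sum]
    exact Finset.sum_congr rfl fun i _ => by rw [sub_eq_add_neg, exp_add]; ring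
  rw [e1] at h1
  have h2 := mul_le_mul_of_nonneg_left h1 (exp_pos (1 - β ^ 2 / 2)).le
  have e2 : exp (1 - β ^ 2 / 2) * exp (-1) * exp (β ^ 2 / 2) = 1 := by
    simp only [← exp_add]; rw [show 1 - β ^ 2 / 2 + -1 + β ^ 2 / 2 = 0 by ring, exp_zero]
  have e3 : exp (1 - β ^ 2 / 2) * exp 1 = exp 2 * exp (-β ^ 2 / 2) := by
    simp only [← exp_add]; congr 1; ring
  rw [← le_div_iff₀ Z0]
  calc _ = exp (1 - β ^ 2 / 2) * exp (-1) * exp (β ^ 2 / 2) * ∑ i, Ex (p i) * exp (-s i) := by
        rw [e2, one_mul]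
    _ ≤ exp (1 - β ^ 2 / 2) * exp 1 * (Zs β (fun i => (a i : Euc (j + 1))) s /
        (∫ h : Euc (j + 1), exp (-‖h‖ ^ 2 / 2)) * (I k' (-β) / I k' 0)) := by linarith
    _ = _ := by rw [e3]; ring

lemma half_nonempty (hk : k < n) : (half n k).Nonempty :=
  ⟨⟨EuclideanSpace.single ⟨k, hk⟩ 1, by simp⟩, fun i => ⟨fun h => by
    simp [Fin.ext_iff, h.ne'], fun h => by simp [Fin.ext_iff, h]⟩⟩

lemma Ex_cone {j : ℕ} {B : Set (Sph (j + 1))} (hB : MeasurableSet B) (b : ℝ) :
    Ex (fun x => (cone B).indicator (fun h => exp (b * ‖h‖)) (toLp 2 x)) =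
      sig B * (I j b / I j 0) := by
  rw [Ex_toLp, div_eq_iff gauss_pos.ne', ← int_cone hB, ← integral_indicator (cone_meas hB)]
  refine integral_congr_ae (.of_forall fun h => ?_)
  by_cases hh : h ∈ cone B
  · simp only [indicator_of_mem hh, ← exp_add, neg_div, sub_eq_add_neg]
  · simp only [indicator_of_notMem hh, zero_mul]

lemma inner_le_nrm (p : Fin n → Prop) [DecidablePred p] (a : Sph n) (x : Fin n → ℝ)
    (h : ∀ i, ¬p i → ofLp (a : Euc n) i * x i ≤ 0) :
    inner ℝ (a : Euc n) (toLp 2 x) ≤ nrm fun i : {i // p i} => x i := by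
  rw [inner_toLp, lin, ← Fintype.sum_subtype_add_sum_subtype p]
  have h1 : ∑ i : {i // ¬p i}, ofLp (a : Euc n) i * x i ≤ 0 :=
    Finset.sum_nonpos fun i _ => h i i.2
  have h2 := Finset.sum_mul_sq_le_sq_mul_sq Finset.univ
    (fun i : {i // p i} => ofLp (a : Euc n) i) fun i => x i
  have h3 : ∑ i : {i // p i}, ofLp (a : Euc n) i ^ 2 ≤ 1 := by
    refine le_trans ?_ (sum_sq_sph a).le
    rw [← Fintype.sum_subtype_add_sum_subtype p]
    exact le_add_of_nonneg_right (by positivity)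
  have h4 : ∑ i : {i // p i}, ofLp (a : Euc n) i * x i ≤ nrm fun i : {i // p i} => x i :=
    le_sqrt_of_sq_le (h2.trans (mul_le_of_le_one_left (by positivity) h3))
  linarith

lemma half_upper {j : ℕ} (hk : k < j + 1) {β ε : ℝ} (hβ : 0 ≤ β) :
    sig (nbhd (half (j + 1) k) ε) * (I j (β * (1 - ε ^ 2 / 2)) / I j 0) ≤ I k β / I k 0 := by
  rw [← Ex_cone (nbhd_meas _ _), ← Ex_exp_nrm (J := {i : Fin (j + 1) // (i : ℕ) < k + 1})
    (Fintype.card_fin_lt_of_le hk), ← Ex_sub_left]
  refine Ex_mono (fun _ => indicator_nonneg (fun _ _ => (exp_pos _).le) _)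
    (gr_exp_nrm β (by fun_prop) (C := 1) fun x l => by simpa using norm_le_pi_norm x l).int
    fun x => ?_
  by_cases hx : toLp 2 x ∈ cone (nbhd (half (j + 1) k) ε)
  · rw [indicator_of_mem hx, mul_assoc]
    exact exp_le_exp.2 (mul_le_mul_of_nonneg_left (inner_le_of_mem_cone (half_nonempty hk) hx
      fun a ha => inner_le_nrm _ a x fun i hi => by rw [(ha i).1 (by omega), zero_mul]) hβ)
  · rw [indicator_of_notMem hx]; exact (exp_pos _).le

lemma sig_le_one {j : ℕ} (B : Set (Sph (j + 1))) : sig B ≤ 1 :=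
  (div_le_one (sph_pos _)).2 (measureReal_mono (subset_univ _))

lemma I_neg_le (j : ℕ) {β : ℝ} (hβ : 0 ≤ β) : I j (-β) ≤ I j 0 :=
  setIntegral_mono_on (I_int _ _ _) (I_int _ _ _) measurableSet_Ioi fun r hr =>
    mul_le_mul_of_nonneg_left (exp_le_exp.2 (by nlinarith [hr.out])) (pow_nonneg hr.out.le _)

theorem lower {j k' : ℕ} (hkm : k' + 1 + m = j + 1) (hm : 1 ≤ m) {A : Set (Sph (j + 1))}
    (hA : Transversal m A) {ε : ℝ} (ε0 : 0 < ε) (ε1 : ε ^ 2 ≤ 2) {K : ℕ}
    (hK : 8 * (j + 1) ≤ (K : ℝ) / 8 * (1 - (1 - ε ^ 2 / 2) ^ 2)) :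
    sig (nbhd (half (j + 1) (k' + 1)) ε) ≤ 10 ^ 5 * K ^ 9 * sig (nbhd A ε) := by
  have j0 : (0 : ℝ) ≤ j := j.cast_nonneg
  have K0 : (0 : ℝ) < K := by
    rcases (K.cast_nonneg : (0 : ℝ) ≤ K).eq_or_lt with h | h
    · rw [← h] at hK; linarith
    · exact h
  obtain ⟨T, p, hT, pm, p0, p1, p2, p3, p4⟩ := weights hkm hA (η := 4 / K) (by positivity)
  have : Nonempty T := by
    by_contra h
    rw [not_nonempty_iff] at h
    simp at p4
    linarith
  set φ := ∑ a, Ex (p a) with hφ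
  have φ0 : 0 < φ := by linarith
  have Ik := I_pos k' 0
  refine core (ι := T) (a := fun a => (a.1 : Euc (j + 1))) (fun a => by simp)
    (Subtype.val_injective.comp Subtype.val_injective) (μ := fun a => Ex (p a) / φ)
    (fun a => div_pos (p3 a) φ0) (by rw [← Finset.sum_div, div_self φ0.ne']) (by linarith)
    (by nlinarith) (nbhd_meas A ε) (fun a h h0 hh => mem_cone_nbhd ε0.le (hT a.2) h0 hh) hK
    (R := fun β => I k' (-β) / I k' 0) (fun β => (div_pos (I_pos _ _) Ik).le)
    (fun β hβ => (div_le_one Ik).2 (I_neg_le _ hβ)) (fun β hβ hβ' s => ?_) (sig_nonneg _)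
    (sig_le_one _) fun β hβ => ?_
  · have h1 := gordon_fin (fun a : T => a.1) (by positivity) p pm p0 p1 p2 hβ.le (by
      have : β * (2 * (4 / K)) = β * 8 / K := by ring
      rw [this, div_le_one K0]; linarith) s
    have h2 : ∑ i, Ex (p i) / φ * exp (-s i) ≤ 2 * ∑ i, Ex (p i) * exp (-s i) := by
      rw [Finset.mul_sum]
      refine Finset.sum_le_sum fun i _ => ?_
      rw [← mul_assoc]
      refine mul_le_mul_of_nonneg_right ((div_le_iff₀ φ0).2 ?_) (exp_pos _).le
      nlinarith [p3 i]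
    linarith [mul_le_mul_of_nonneg_right h2 (gauss_pos (j := j)).le]
  · have h1 := half_upper (k := k' + 1) (j := j) (by omega) (ε := ε) hβ
    have h2 := wronsk k' β
    have h3 := mul_pos (I_pos k' β) (I_pos (k' + 1) (-β))
    have Ik' := I_pos (k' + 1) 0
    have h4 : exp (-β ^ 2 / 2) * (I k' (-β) / I k' 0) * (I (k' + 1) β / I (k' + 1) 0) ≤ 2 := by
      rw [mul_assoc, div_mul_div_comm, ← mul_div_assoc, div_le_iff₀ (by positivity)]
      have h5 := mul_le_mul_of_nonneg_left (show I k' (-β) * I (k' + 1) β ≤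
        exp (β ^ 2 / 2) * (2 * (I (k' + 1) 0 * I k' 0)) by linarith) (exp_pos (-β ^ 2 / 2)).le
      rw [← mul_assoc (exp _) (exp _), ← exp_add, show -β ^ 2 / 2 + β ^ 2 / 2 = 0 by ring,
        exp_zero] at h5
      linarith
    have h6 := mul_le_mul_of_nonneg_left h1 (show 0 ≤ exp (-β ^ 2 / 2) * (I k' (-β) / I k' 0) by
      have := I_pos k' (-β); positivity)
    linarith

end Pool.Agent.Lib.MP_229ad9_gt
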