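import Pool.Agent.Lib.MP_229ad9_gt.Upper

set_option autoImplicit false
set_option linter.unusedSectionVars false

/-! The least measure up to polynomial factors. -/

namespace Pool.Agent.Lib.MP_229ad9_gt

open MeasureTheory Set Real WithLp

lemma half_transversal {n m : ℕ} (hm : 1 ≤ m) (hn : m < n) : Transversal m (half n (n - m)) := by
  intro V hV
  let T : V →ₗ[ℝ] {i : Fin n // ¬(i : ℕ) < n - m + 1} → ℝ :=
    { toFun := fun v i => v.1 i
      map_add' := fun _ _ => rfl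
      map_smul' := fun _ _ => rfl }
  have hT : LinearMap.ker T ≠ ⊥ := LinearMap.ker_ne_bot_of_finrank_lt (by
    rw [hV, Module.finrank_fintype_fun_eq_card, Fintype.card_subtype_compl,
      Fintype.card_fin_lt_of_le (by omega), Fintype.card_fin]
    omega)
  obtain ⟨v, hv, v0⟩ := Submodule.exists_mem_ne_zero_of_ne_bot hT
  have key : ∀ w : V, w ∈ LinearMap.ker T → w ≠ 0 → 0 ≤ w.1 ⟨n - m, by omega⟩ →
      ∃ a ∈ half n (n - m), (a : Euc n) ∈ V := fun w hw w0 h => by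
    have : ‖w.1‖ ≠ 0 := by simpa using w0
    refine ⟨⟨‖w.1‖⁻¹ • w.1, by simp [norm_smul, this]⟩, fun i => ⟨fun hi => ?_, fun hi => ?_⟩,
      V.smul_mem _ w.2⟩
    · have := congrFun (LinearMap.mem_ker.1 hw) ⟨i, by omega⟩
      exact mul_eq_zero_of_right _ this
    · rw [show i = ⟨n - m, by clear hi i; omega⟩ from Fin.ext hi]
      exact mul_nonneg (by positivity) h
  rcases le_total 0 (v.1 ⟨n - m, by omega⟩) with h | h
  · exact key v hv v0 h
  · exact key (-v) (neg_mem hv) (neg_ne_zero.2 v0) (by simpa using h)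

lemma nbhd_univ {n m : ℕ} (hn : m < n) {A : Set (Sph n)} (hA : Transversal m A) {ε : ℝ}
    (ε0 : 0 ≤ ε) (ε1 : 2 ≤ ε ^ 2) : nbhd A ε = univ := by
  refine eq_univ_of_forall fun x => ?_
  have x0 : (x : Euc n) ≠ 0 := ne_zero_of_mem_unit_sphere x
  have h1 : Module.finrank ℝ (ℝ ∙ (x : Euc n))ᗮ = n - 1 := by
    have := Submodule.finrank_add_finrank_orthogonal (ℝ ∙ (x : Euc n))
    rw [finrank_span_singleton x0, finrank_euclideanSpace, Fintype.card_fin] at this
    omega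
  obtain ⟨f, hf⟩ := exists_linearIndependent_of_le_finrank (R := ℝ) (M := (ℝ ∙ (x : Euc n))ᗮ)
    (n := m) (by omega)
  obtain ⟨a, ha, ha'⟩ := hA (Submodule.span ℝ (range ((ℝ ∙ (x : Euc n))ᗮ.subtype ∘ f))) (by
    simpa using finrank_span_eq_card (hf.map' _ (Submodule.ker_subtype _)))
  have h2 : (a : Euc n) ∈ (ℝ ∙ (x : Euc n))ᗮ :=
    Submodule.span_le.2 (range_subset_iff.2 fun i => (f i).2) ha'
  obtain ⟨-, y, hy, e⟩ := mem_cone_nbhd ε0 ha x0 (by
    rw [Submodule.mem_orthogonal_singleton_iff_inner_left.1 h2]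
    exact mul_nonpos_of_nonpos_of_nonneg (by linarith) (norm_nonneg _))
  rwa [show x = y from Subtype.ext (by simp [e])]

lemma mu_le {n m : ℕ} {A : Set (Sph n)} (hA : Transversal m A) (ε : ℝ) :
    mu n m ε ≤ sig (nbhd A ε) :=
  csInf_le ⟨0, by rintro _ ⟨B, -, rfl⟩; exact sig_nonneg _⟩ ⟨A, hA, rfl⟩

lemma le_mu {n m : ℕ} (hm : 1 ≤ m) (hn : m < n) {ε t : ℝ}
    (h : ∀ A : Set (Sph n), Transversal m A → t ≤ sig (nbhd A ε)) : t ≤ mu n m ε :=
  le_csInf ⟨_, _, half_transversal hm hn, rfl⟩ (by rintro _ ⟨B, hB, rfl⟩; exact h B hB)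

theorem main : ∃ C : ℝ, ∀ n m : ℕ, 1 ≤ m → m < n → ∀ ε : ℝ, 0 < ε →
    Transversal m (half n (n - m)) ∧ mu n m ε ≤ sig (nbhd (half n (n - m)) ε) ∧
    (ε < √2 → sig (nbhd (half n (n - m)) ε) ≤ C * (n / ε ^ 2) ^ 9 * mu n m ε ∧
      1 - mu n m ε ≤ C * (n ^ 3 / (2 - ε ^ 2)) * (1 - sig (nbhd (half n (n - m)) ε))) ∧
    (√2 ≤ ε → mu n m ε = 1) := by
  refine ⟨10 ^ 5 * 129 ^ 9, fun n m hm hn ε ε0 => ⟨half_transversal hm hn,
    mu_le (half_transversal hm hn) ε, fun ε1 => ?_, fun ε1 => ?_⟩⟩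
  · rw [lt_sqrt ε0.le] at ε1
    obtain ⟨m', rfl⟩ : ∃ m', m = m' + 1 := ⟨m - 1, by omega⟩
    obtain ⟨k', rfl⟩ : ∃ k', n = k' + 1 + m' + 1 := ⟨n - m' - 2, by omega⟩
    rw [show k' + 1 + m' + 1 - (m' + 1) = k' + 1 by omega]
    set j := k' + 1 + m' with hj
    have j1 : (1 : ℝ) ≤ j := by exact_mod_cast (show 1 ≤ j by omega)
    have e2 := pow_pos ε0 2
    push_cast
    constructor
    · have x1 : 1 ≤ ((j : ℝ) + 1) / ε ^ 2 := (one_le_div e2).2 (by linarith)
      rw [← div_le_iff₀' (by positivity)]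
      refine le_mu hm hn fun A hA => (div_le_iff₀' (by positivity)).2 ?_
      refine (lower (K := ⌈128 * ((j + 1 : ℝ) / ε ^ 2)⌉₊) (by omega) hm hA ε0 ε1.le ?_).trans
        (mul_le_mul_of_nonneg_right ?_ (sig_nonneg _))
      · have h1 : ε ^ 2 / 2 ≤ 1 - (1 - ε ^ 2 / 2) ^ 2 := by nlinarith
        refine le_trans (le_of_eq ?_) (mul_le_mul (div_le_div_of_nonneg_right (Nat.le_ceil _)
          (by norm_num)) h1 (by positivity) (by positivity))
        field_simp; norm_num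
      · rw [mul_assoc, ← mul_pow]
        refine mul_le_mul_of_nonneg_left (pow_le_pow_left₀ (by positivity) ?_ _) (by norm_num)
        linarith [Nat.ceil_lt_add_one (show 0 ≤ 128 * ((j + 1 : ℝ) / ε ^ 2) by positivity)]
    · rw [sub_le_comm]
      refine le_mu hm hn fun A hA => sub_le_comm.1 ((upper (k' := k') (by omega) hA ε0 ε1).trans ?_)
      refine mul_le_mul_of_nonneg_right (mul_le_mul_of_nonneg_right ?_
        (div_nonneg (by positivity) (by linarith))) (sub_nonneg.2 (sig_le_one _))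
      have E6 : exp 6 = exp 1 ^ 6 := by rw [← exp_nat_mul]; norm_num
      have := pow_le_pow_left₀ (exp_pos 1).le (exp_one_lt_three.le) 6
      linarith
  · rw [sqrt_le_left ε0.le] at ε1
    obtain ⟨j, rfl⟩ : ∃ j, n = j + 1 := ⟨n - 1, by omega⟩
    have s1 : sig (univ : Set (Sph (j + 1))) = 1 := div_self (sph_pos _).ne'
    refine le_antisymm ((mu_le (half_transversal hm hn) ε).trans (sig_le_one _))
      (le_mu hm hn fun A hA => ?_)
    rw [nbhd_univ hn hA ε0.le ε1, s1]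

end Pool.Agent.Lib.MP_229ad9_gt
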