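import Pool.Agent.Lib.MP_229ad9_gt.Radial
import Pool.Agent.Lib.MP_229ad9_gt.Defs

set_option autoImplicit false
set_option linter.unusedSectionVars false

/-! Polar coordinates. -/

namespace Pool.Agent.Lib.MP_229ad9_gt

open MeasureTheory Set Real Metric WithLp

section
variable {E : Type} [NormedAddCommGroup E] [NormedSpace ℝ E] [MeasurableSpace E] [BorelSpace E]
  [FiniteDimensional ℝ E] [Nontrivial E]

/-- the cone over a subset of the sphere -/
def cone (B : Set (sphere (0 : E) 1)) : Set E := {h | h ≠ 0 ∧ ‖h‖⁻¹ • h ∈ Subtype.val '' B}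

lemma polar (μ : Measure E) [μ.IsAddHaarMeasure] {B : Set (sphere (0 : E) 1)}
    (hB : MeasurableSet B) (φ : ℝ → ℝ) :
    ∫ h, (cone B).indicator (fun h => φ ‖h‖) h ∂μ =
      μ.toSphere.real B * ∫ r in Ioi (0 : ℝ), r ^ (Module.finrank ℝ E - 1) * φ r := by
  calc ∫ h, (cone B).indicator (fun h => φ ‖h‖) h ∂μ
      = ∫ x : ({(0)}ᶜ : Set E), (cone B).indicator (fun h => φ ‖h‖) x.1 ∂(μ.comap (↑)) := by
        rw [integral_subtype_comap (measurableSet_singleton _).compl
          fun x => (cone B).indicator (fun h => φ ‖h‖) x, restrict_compl_singleton]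
    _ = ∫ x, B.indicator (fun _ => (1 : ℝ)) x.1 * φ x.2
          ∂μ.toSphere.prod (.volumeIoiPow (Module.finrank ℝ E - 1)) := by
        rw [← μ.measurePreserving_homeomorphUnitSphereProd.integral_comp
          (Homeomorph.measurableEmbedding _)]
        refine integral_congr_ae (.of_forall fun x => ?_)
        have : x.1 ∈ cone B ↔ (homeomorphUnitSphereProd E x).1 ∈ B := by
          constructor
          · rintro ⟨-, y, hy, e⟩
            rwa [show (homeomorphUnitSphereProd E x).1 = y from Subtype.ext (by simp [e])]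
          · exact fun h => ⟨x.2, _, h, by simp⟩
        by_cases hx : x.1 ∈ cone B
        · simp [indicator_of_mem hx, indicator_of_mem (this.1 hx)]
        · simp [indicator_of_notMem hx, indicator_of_notMem (mt this.2 hx)]
    _ = μ.toSphere.real B * ∫ x : Ioi (0 : ℝ), φ x ∂.volumeIoiPow (Module.finrank ℝ E - 1) := by
        rw [integral_prod_mul (fun x => B.indicator (fun _ => (1 : ℝ)) x)
          fun x : Ioi (0 : ℝ) => φ x, integral_indicator hB]
        simp
    _ = _ := by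
        simp only [Measure.volumeIoiPow, ENNReal.ofReal]
        rw [integral_withDensity_eq_integral_smul,
          integral_subtype_comap measurableSet_Ioi
            fun a => Real.toNNReal (a ^ (Module.finrank ℝ E - 1)) • φ a,
          setIntegral_congr_fun measurableSet_Ioi fun x hx => ?_]
        · rw [NNReal.smul_def, Real.coe_toNNReal _ (pow_nonneg hx.out.le _), smul_eq_mul]
        · exact (measurable_subtype_coe.pow_const _).real_toNNReal

lemma polar_univ (μ : Measure E) [μ.IsAddHaarMeasure] (φ : ℝ → ℝ) :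
    ∫ h, φ ‖h‖ ∂μ =
      μ.toSphere.real univ * ∫ r in Ioi (0 : ℝ), r ^ (Module.finrank ℝ E - 1) * φ r := by
  rw [integral_fun_norm_addHaar, μ.toSphere_real_apply_univ, nsmul_eq_mul, smul_eq_mul, mul_assoc]
  rfl

lemma sph_pos (μ : Measure E) [μ.IsAddHaarMeasure] : 0 < μ.toSphere.real univ := by
  rw [μ.toSphere_real_apply_univ]
  exact mul_pos (by exact_mod_cast Module.finrank_pos)
    (ENNReal.toReal_pos (measure_ball_pos μ _ one_pos).ne' measure_ball_lt_top.ne)

lemma cone_meas {B : Set (sphere (0 : E) 1)} (hB : MeasurableSet B) : MeasurableSet (cone B) :=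
  (measurableSet_singleton (0 : E)).compl.inter
    ((isClosed_sphere.measurableSet.subtype_image hB).preimage (by fun_prop))

end

variable {J : Type} [Fintype J]

/-- Euclidean norm -/
noncomputable def nrm (x : J → ℝ) : ℝ := √(∑ l, x l ^ 2)

lemma norm_toLp (x : J → ℝ) : ‖(toLp 2 x : EuclideanSpace ℝ J)‖ = nrm x := by
  simp [EuclideanSpace.norm_eq, nrm]

lemma nrm_sq (x : J → ℝ) : nrm x ^ 2 = ∑ l, x l ^ 2 := sq_sqrt (by positivity)

lemma int_toLp (f : EuclideanSpace ℝ J → ℝ) :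
    ∫ x : J → ℝ, f (toLp 2 x) * gw x = ∫ h, f h * exp (-‖h‖ ^ 2 / 2) := by
  rw [← (PiLp.volume_preserving_toLp J).integral_comp
    (MeasurableEquiv.toLp 2 (J → ℝ)).measurableEmbedding]
  simp only [norm_toLp, nrm_sq, gw]

lemma Ex_toLp (f : EuclideanSpace ℝ J → ℝ) : Ex (fun x => f (toLp 2 x)) =
    (∫ h, f h * exp (-‖h‖ ^ 2 / 2)) / ∫ h : EuclideanSpace ℝ J, exp (-‖h‖ ^ 2 / 2) := by
  have := int_toLp (J := J) fun _ => 1
  simp only [one_mul] at this
  rw [Ex, int_toLp, this]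

lemma euc_nontrivial {j : ℕ} (hJ : Fintype.card J = j + 1) : Nontrivial (EuclideanSpace ℝ J) :=
  Module.nontrivial_of_finrank_pos (R := ℝ) (by simp [hJ])

lemma gauss_total {j : ℕ} (hJ : Fintype.card J = j + 1) :
    ∫ h : EuclideanSpace ℝ J, exp (-‖h‖ ^ 2 / 2) =
      (volume : Measure (EuclideanSpace ℝ J)).toSphere.real univ * I j 0 := by
  have := euc_nontrivial hJ
  rw [polar_univ volume fun r => exp (-r ^ 2 / 2), I]
  simp [hJ, neg_div]

lemma Ex_rad {j : ℕ} (hJ : Fintype.card J = j + 1) (φ : ℝ → ℝ) : Ex (fun x : J → ℝ => φ (nrm x)) =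
    (∫ r in Ioi (0 : ℝ), r ^ j * (φ r * exp (-r ^ 2 / 2))) / I j 0 := by
  have := euc_nontrivial hJ
  have := Ex_toLp (J := J) fun h => φ ‖h‖
  simp only [norm_toLp] at this
  rw [this, gauss_total hJ, polar_univ volume fun r => φ r * exp (-r ^ 2 / 2),
    mul_div_mul_left _ _ (sph_pos _).ne']
  simp [hJ]

lemma Ex_exp_nrm {j : ℕ} (hJ : Fintype.card J = j + 1) (b : ℝ) :
    Ex (fun x : J → ℝ => exp (b * nrm x)) = I j b / I j 0 := by
  rw [Ex_rad hJ fun r => exp (b * r)]
  simp only [I, ← exp_add, sub_eq_add_neg, neg_div]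

lemma int_cone {j : ℕ} {B : Set (Sph (j + 1))} (hB : MeasurableSet B) (b : ℝ) :
    ∫ h in cone B, exp (b * ‖h‖ - ‖h‖ ^ 2 / 2) =
      sig B * (I j b / I j 0) * ∫ h : Euc (j + 1), exp (-‖h‖ ^ 2 / 2) := by
  rw [← integral_indicator (cone_meas hB), polar volume hB fun r => exp (b * r - r ^ 2 / 2),
    gauss_total (j := j) (by simp), sig]
  have := (sph_pos (volume : Measure (Euc (j + 1)))).ne'
  have := (I_pos j 0).ne'
  simp only [finrank_euclideanSpace, Fintype.card_fin, add_tsub_cancel_right]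
  show _ * I j b = _
  field_simp

lemma sig_nonneg {n : ℕ} (B : Set (Sph n)) : 0 ≤ sig B :=
  div_nonneg measureReal_nonneg measureReal_nonneg

lemma sig_compl {j : ℕ} {B : Set (Sph (j + 1))} (hB : MeasurableSet B) : sig Bᶜ = 1 - sig B := by
  have := (sph_pos (volume : Measure (Euc (j + 1)))).ne'
  rw [sig, sig, measureReal_compl hB]
  field_simp

lemma nbhd_meas {n : ℕ} (A : Set (Sph n)) (ε : ℝ) : MeasurableSet (nbhd A ε) :=
  (isClosed_le ((continuous_infDist_pt _).comp continuous_subtype_val)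
    continuous_const).measurableSet

lemma dist_sq_unit {n : ℕ} {h a : Euc n} (h0 : h ≠ 0) (ha : ‖a‖ = 1) :
    dist (‖h‖⁻¹ • h) a ^ 2 = 2 - 2 * (inner ℝ a h / ‖h‖) := by
  have := norm_ne_zero_iff.2 h0
  rw [dist_eq_norm, norm_sub_sq_real, norm_smul, norm_inv, norm_norm, inv_mul_cancel₀ this, ha,
    real_inner_smul_left, real_inner_comm]
  field_simp; ring

lemma mem_cone_nbhd {n : ℕ} {A : Set (Sph n)} {ε : ℝ} (hε : 0 ≤ ε) {a : Sph n} (ha : a ∈ A)
    {h : Euc n} (h0 : h ≠ 0) (hh : (1 - ε ^ 2 / 2) * ‖h‖ ≤ inner ℝ (a : Euc n) h) :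
    h ∈ cone (nbhd A ε) := by
  have hp := norm_pos_iff.2 h0
  refine ⟨h0, ⟨‖h‖⁻¹ • h, by simp [norm_smul, hp.ne']⟩, ?_, rfl⟩
  refine (infDist_le_dist_of_mem (mem_image_of_mem _ ha)).trans ?_
  refine le_of_sq_le_sq ?_ hε
  rw [dist_sq_unit h0 (by simp)]
  have := (le_div_iff₀ hp).2 hh
  linarith

lemma inner_le_of_mem_cone {n : ℕ} {A : Set (Sph n)} (hA : A.Nonempty) {ε : ℝ} {h : Euc n}
    (hh : h ∈ cone (nbhd A ε)) {t : ℝ} (ht : ∀ a ∈ A, inner ℝ (a : Euc n) h ≤ t) :
    (1 - ε ^ 2 / 2) * ‖h‖ ≤ t := by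
  obtain ⟨h0, x, hx, e⟩ := hh
  have hp := norm_pos_iff.2 h0
  have h1 : √(2 - 2 * (t / ‖h‖)) ≤ infDist (x : Euc n) (Subtype.val '' A) := by
    refine (le_infDist (hA.image _)).2 ?_
    rintro _ ⟨a, ha, rfl⟩
    refine sqrt_le_iff.2 ⟨dist_nonneg, ?_⟩
    rw [e, dist_sq_unit h0 (by simp)]
    have := div_le_div_of_nonneg_right (ht a ha) hp.le
    linarith
  have h2 := (sqrt_le_iff.1 (h1.trans hx)).2
  rw [← le_div_iff₀ hp]
  linarith

end Pool.Agent.Lib.MP_229ad9_gt
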