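import Pool.Agent.Lib.MP_229ad9_gt.Gauss

set_option autoImplicit false
set_option linter.unusedSectionVars false

/-! One dimensional radial integrals. -/

namespace Pool.Agent.Lib.MP_229ad9_gt

open MeasureTheory Set Real Filter Topology

/-- Radial Laplace transform. -/
noncomputable def I (j : ℕ) (b : ℝ) : ℝ := ∫ r in Ioi (0 : ℝ), r ^ j * exp (b * r - r ^ 2 / 2)

lemma I_int' (j : ℕ) (b : ℝ) : Integrable fun r : ℝ => r ^ j * exp (b * r - r ^ 2 / 2) := by
  refine (int_exp_abs (j + |b|)).mono' (by fun_prop) (.of_forall fun r => ?_)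
  rw [Real.norm_eq_abs, abs_mul, abs_pow, abs_of_pos (exp_pos _)]
  have h1 : |r| ^ j ≤ exp (j * |r|) := by
    rw [exp_nat_mul]
    exact pow_le_pow_left₀ (abs_nonneg _) (by linarith [add_one_le_exp |r|]) j
  refine (mul_le_mul_of_nonneg_right h1 (exp_pos _).le).trans ?_
  rw [← exp_add]
  refine exp_le_exp.2 ?_
  have := le_abs_self (b * r)
  rw [abs_mul] at this
  linarith

lemma I_int (j : ℕ) (b : ℝ) (s : Set ℝ) :
    IntegrableOn (fun r : ℝ => r ^ j * exp (b * r - r ^ 2 / 2)) s := (I_int' j b).integrableOn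

lemma I_pos (j : ℕ) (b : ℝ) : 0 < I j b := by
  rw [I, setIntegral_pos_iff_support_of_nonneg_ae _ (I_int j b _)]
  · refine lt_of_lt_of_le (by simp : (0 : ENNReal) < volume (Ioi (0 : ℝ))) (measure_mono ?_)
    exact fun r hr => ⟨(mul_pos (pow_pos hr j) (exp_pos _)).ne', hr⟩
  · filter_upwards [ae_restrict_mem measurableSet_Ioi] with r hr
    exact (mul_pos (pow_pos hr j) (exp_pos _)).le

lemma d_exp (b r : ℝ) : HasDerivAt (fun r : ℝ => exp (b * r - r ^ 2 / 2))
    (exp (b * r - r ^ 2 / 2) * (b - r)) r := by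
  have := (((hasDerivAt_id r).const_mul b).fun_sub (((hasDerivAt_id r).fun_pow 2).div_const 2)).exp
  exact this.congr_deriv (by simp)

lemma I_one (b : ℝ) : I 1 b = b * I 0 b + 1 := by
  have hi : IntegrableOn (fun r => exp (b * r - r ^ 2 / 2) * (b - r)) (Ioi (0 : ℝ)) :=
    (((I_int 0 b _).const_mul b).sub (I_int 1 b _)).congr (.of_forall fun r => by simp; ring)
  have := integral_Ioi_of_hasDerivAt_of_tendsto' (fun r _ => d_exp b r) hi
    (tendsto_zero_of_hasDerivAt_of_integrableOn_Ioi (fun r _ => d_exp b r) hi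
      (by simpa using I_int 0 b (Ioi 0)))
  have e : ∫ r in Ioi (0 : ℝ), exp (b * r - r ^ 2 / 2) * (b - r) = b * I 0 b - I 1 b := by
    rw [I, I, ← integral_const_mul, ← integral_sub ((I_int 0 b _).const_mul b) (I_int 1 b _)]
    exact integral_congr_ae (.of_forall fun r => by simp; ring)
  simp at this
  linarith

lemma I_rec (j : ℕ) (b : ℝ) : I (j + 2) b = b * I (j + 1) b + (j + 1) * I j b := by
  have d : ∀ r : ℝ, HasDerivAt (fun r : ℝ => r ^ (j + 1) * exp (b * r - r ^ 2 / 2))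
      ((j + 1) * (r ^ j * exp (b * r - r ^ 2 / 2)) + b * (r ^ (j + 1) * exp (b * r - r ^ 2 / 2)) -
        r ^ (j + 2) * exp (b * r - r ^ 2 / 2)) r := fun r => by
    refine (((hasDerivAt_id r).fun_pow (j + 1)).fun_mul (d_exp b r)).congr_deriv ?_
    simp; ring
  have i1 : IntegrableOn (fun r : ℝ => (j + 1) * (r ^ j * exp (b * r - r ^ 2 / 2)) +
      b * (r ^ (j + 1) * exp (b * r - r ^ 2 / 2))) (Ioi 0) :=
    ((I_int j b (Ioi 0)).const_mul (j + 1)).add ((I_int (j + 1) b _).const_mul b)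
  have hi := i1.sub (I_int (j + 2) b _)
  have := integral_Ioi_of_hasDerivAt_of_tendsto' (fun r _ => d r) hi
    (tendsto_zero_of_hasDerivAt_of_integrableOn_Ioi (fun r _ => d r) hi (I_int (j + 1) b _))
  rw [integral_sub i1 (I_int (j + 2) b _), integral_add ((I_int j b _).const_mul _)
    ((I_int (j + 1) b _).const_mul b), integral_const_mul, integral_const_mul] at this
  simp only [I]
  simp at this
  linarith

lemma I_zero_add (b : ℝ) : I 0 b + I 0 (-b) = ∫ t : ℝ, exp (b * t - t ^ 2 / 2) := by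
  have h := I_int' 0 b
  simp only [pow_zero, one_mul] at h
  rw [← intervalIntegral.integral_Iic_add_Ioi (b := 0) h.integrableOn h.integrableOn, add_comm]
  congr 1
  · have := integral_comp_neg_Ioi 0 fun t : ℝ => exp (b * t - t ^ 2 / 2)
    rw [neg_zero] at this
    rw [← this, I]
    simp
  · simp [I]

lemma wronsk (j : ℕ) (b : ℝ) : I (j + 1) b * I j (-b) + I j b * I (j + 1) (-b) =
    exp (b ^ 2 / 2) * (2 * (I (j + 1) 0 * I j 0)) := by
  induction j with
  | zero =>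
    have h1 := I_zero_add b
    have h2 := I_zero_add 0
    rw [int_shift] at h1 h2
    simp only [neg_zero, ne_eq, OfNat.ofNat_ne_zero, not_false_eq_true, zero_pow, zero_div,
      exp_zero, one_mul] at h2
    rw [← h2] at h1
    simp only [zero_add, I_one]
    linear_combination h1
  | succ j ih =>
    rw [I_rec, I_rec, I_rec]
    linear_combination (j + 1) * ih

lemma I_ratio (j : ℕ) (b : ℝ) : I (j + 1) b ≤ (|b| + j + 1) * I j b := by
  have p0 := I_pos j b
  have p1 := I_pos (j + 1) b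
  set ρ := I (j + 1) b / I j b with hρ
  have h : 0 ≤ I (j + 2) b - 2 * ρ * I (j + 1) b + ρ ^ 2 * I j b := by
    have i1 : IntegrableOn (fun r : ℝ => r ^ (j + 2) * exp (b * r - r ^ 2 / 2) -
        2 * ρ * (r ^ (j + 1) * exp (b * r - r ^ 2 / 2))) (Ioi 0) :=
      (I_int (j + 2) b (Ioi 0)).sub ((I_int (j + 1) b _).const_mul (2 * ρ))
    rw [I, I, I, ← integral_const_mul, ← integral_const_mul,
      ← integral_sub (I_int _ b _) ((I_int _ b _).const_mul _),
      ← integral_add i1 ((I_int _ b _).const_mul _)]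
    refine setIntegral_nonneg measurableSet_Ioi fun r hr => ?_
    have : 0 ≤ r ^ j * exp (b * r - r ^ 2 / 2) * (r - ρ) ^ 2 :=
      mul_nonneg (mul_pos (pow_pos hr j) (exp_pos _)).le (sq_nonneg _)
    refine this.trans (le_of_eq ?_)
    ring
  have e : I (j + 1) b = ρ * I j b := by rw [hρ]; field_simp
  rw [I_rec, e] at h
  rw [e]
  refine mul_le_mul_of_nonneg_right ?_ p0.le
  have h' : ρ ^ 2 ≤ b * ρ + (j + 1) := by
    have : 0 ≤ (b * ρ + (j + 1) - ρ ^ 2) * I j b := by linarith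
    linarith [nonneg_of_mul_nonneg_left this p0]
  by_contra hc
  push Not at hc
  have j0 : (0 : ℝ) ≤ j := j.cast_nonneg
  nlinarith [le_abs_self b, abs_nonneg b]

lemma I_half (j : ℕ) : I j 0 ≤ 2 * I (j + 1) 0 := by
  have h1 := I_rec j 0
  have h2 := I_ratio (j + 1) 0
  have p0 := I_pos j 0
  have p1 := I_pos (j + 1) 0
  have j0 : (0 : ℝ) ≤ j := j.cast_nonneg
  simp at h1 h2
  nlinarith

lemma I_scale (j : ℕ) (b : ℝ) {l : ℝ} (h0 : 0 < l) (h1 : l < 1) :
    I j b * l ^ (j + 1) ≤ exp (b ^ 2 / (2 * (1 - l ^ 2))) * I j 0 := by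
  have e := integral_comp_mul_left_Ioi (fun r : ℝ => r ^ j * exp (0 * r - r ^ 2 / 2)) 0 h0
  rw [mul_zero] at e
  have e2 : I j 0 = l * ∫ r in Ioi (0 : ℝ), (l * r) ^ j * exp (0 * (l * r) - (l * r) ^ 2 / 2) := by
    rw [e, I, smul_eq_mul]; field_simp
  have hl : 0 < 1 - l ^ 2 := by nlinarith
  rw [e2, I, ← integral_mul_const, ← integral_const_mul, ← integral_const_mul]
  refine setIntegral_mono_on ((I_int j b _).mul_const _)
    ((((I_int' j 0).comp_mul_left' h0.ne').integrableOn.const_mul _).const_mul _) measurableSet_Ioi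
    fun r hr => ?_
  have : exp (b * r - r ^ 2 / 2) ≤
      exp (b ^ 2 / (2 * (1 - l ^ 2))) * exp (0 * (l * r) - (l * r) ^ 2 / 2) := by
    rw [← exp_add]
    refine exp_le_exp.2 ?_
    have : b * r - (1 - l ^ 2) * r ^ 2 / 2 ≤ b ^ 2 / (2 * (1 - l ^ 2)) := by
      rw [le_div_iff₀ (by positivity)]
      nlinarith [sq_nonneg (b - (1 - l ^ 2) * r)]
    linarith
  have h2 := mul_le_mul_of_nonneg_left this (mul_pos (pow_pos hr j) (pow_pos h0 (j + 1))).le
  calc _ = r ^ j * l ^ (j + 1) * exp (b * r - r ^ 2 / 2) := by ring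
    _ ≤ _ := h2
    _ = _ := by ring

lemma I_start (j : ℕ) : I j (1 / (j + 1)) ≤ 2 * exp 1 * I j 0 := by
  have j0 : (0 : ℝ) ≤ j := j.cast_nonneg
  set x : ℝ := 1 / (2 * (j + 1)) with hx
  have x0 : 0 < x := by positivity
  have x1 : x ≤ 1 / 2 := one_div_le_one_div_of_le (by norm_num) (by linarith)
  have xj : x * (j + 1) = 1 / 2 := by rw [hx]; field_simp
  have h := I_scale j (1 / (j + 1)) (l := 1 - x) (by linarith) (by linarith)
  have b1 : 1 / 2 ≤ (1 - x) ^ (j + 1) := by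
    have := one_add_mul_le_pow (a := -x) (by linarith) (j + 1)
    push_cast at this
    rw [← sub_eq_add_neg] at this
    linarith
  have b2 : exp ((1 / (j + 1)) ^ 2 / (2 * (1 - (1 - x) ^ 2))) ≤ exp 1 := by
    refine exp_le_exp.2 ((div_le_one (by nlinarith)).2 ?_)
    have : (1 : ℝ) / (j + 1) = 2 * x := by rw [hx]; field_simp
    rw [this]
    nlinarith
  have p := I_pos j 0
  have p' := I_pos j (1 / (j + 1))
  nlinarith [mul_le_mul_of_nonneg_right b2 p.le, mul_le_mul_of_nonneg_left b1 p'.le]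

lemma I_end (j : ℕ) {c B : ℝ} (c0 : 0 ≤ c) (c1 : c < 1) (hB : 8 * (j + 1) ≤ B * (1 - c ^ 2)) :
    I j (B * c) ≤ exp (B ^ 2 / 2 - 14) * I j 0 := by
  have j0 : (0 : ℝ) ≤ j := j.cast_nonneg
  set S := 1 - c ^ 2 with hS
  have S0 : 0 < S := by nlinarith
  have S1 : S ≤ 1 := by nlinarith
  have h := I_scale j (B * c) (l := S / 2) (by linarith) (by linarith)
  have b1 : exp (-(2 * (j + 1) / S)) ≤ (S / 2) ^ (j + 1) := by
    have : exp (-(2 / S)) ≤ S / 2 := by
      rw [exp_neg, inv_le_comm₀ (exp_pos _) (by linarith), inv_div]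
      linarith [add_one_le_exp (2 / S)]
    refine le_trans (le_of_eq ?_) (pow_le_pow_left₀ (exp_pos _).le this (j + 1))
    rw [← exp_nat_mul]; congr 1; push_cast; ring
  have b2 : (B * c) ^ 2 / (2 * (1 - (S / 2) ^ 2)) ≤ B ^ 2 / 2 - B ^ 2 * S / 4 := by
    rw [div_le_iff₀ (by nlinarith)]
    have : (B * c) ^ 2 = B ^ 2 * (1 - S) := by rw [hS]; ring
    rw [this]
    have : 1 - S ≤ (1 / 2 - S / 4) * (2 * (1 - (S / 2) ^ 2)) := by nlinarith [mul_pos S0 S0]
    nlinarith [sq_nonneg B]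
  have b3 : 14 + 2 * (j + 1) / S ≤ B ^ 2 * S / 4 := by
    have t1 : (8 * (j + 1)) ^ 2 ≤ (B * S) ^ 2 := pow_le_pow_left₀ (by positivity) hB 2
    rw [← mul_le_mul_iff_left₀ S0, add_mul, div_mul_cancel₀ _ S0.ne']
    nlinarith
  have p := I_pos j 0
  have p' := I_pos j (B * c)
  have b4 : I j (B * c) * exp (-(2 * (j + 1) / S)) ≤
      exp (B ^ 2 / 2 - 14) * I j 0 * exp (-(2 * (j + 1) / S)) := by
    refine (mul_le_mul_of_nonneg_left b1 p'.le).trans (h.trans ?_)
    rw [mul_right_comm, ← exp_add]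
    exact mul_le_mul_of_nonneg_right (exp_le_exp.2 (by linarith)) p.le
  exact le_of_mul_le_mul_right b4 (exp_pos _)

lemma I_upper (j : ℕ) {b r0 : ℝ} (h0 : 0 < r0) (h : b * r0 + r0 ^ 2 = j + 1) :
    I j (-b) ≤ exp 1 * r0 * (r0 ^ j * exp (-b * r0 - r0 ^ 2 / 2)) := by
  have e : ∫ r in Ioi (0 : ℝ), exp (-r0⁻¹ * r) = r0 := by
    rw [integral_exp_mul_Ioi (by simpa using h0)]; simp
  have hi : IntegrableOn (fun r => exp (-r0⁻¹ * r)) (Ioi (0 : ℝ)) :=
    exp_neg_integrableOn_Ioi 0 (inv_pos.2 h0)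
  calc I j (-b) ≤ ∫ r in Ioi (0 : ℝ), exp 1 * (r0 ^ j * exp (-b * r0 - r0 ^ 2 / 2)) *
        exp (-r0⁻¹ * r) := by
        refine setIntegral_mono_on (I_int _ _ _) (hi.const_mul _) measurableSet_Ioi fun r hr => ?_
        obtain ⟨x, rfl⟩ : ∃ x, r = r0 * x := ⟨r / r0, by field_simp⟩
        have x0 : 0 < x := (mul_pos_iff_of_pos_left h0).1 hr
        have h1 : x ^ j ≤ exp (j * (x - 1)) := by
          rw [exp_nat_mul]
          exact pow_le_pow_left₀ x0.le (by linarith [add_one_le_exp (x - 1)]) j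
        have h2 : exp (j * (x - 1)) * exp (-b * (r0 * x) - (r0 * x) ^ 2 / 2) ≤
            exp 1 * exp (-b * r0 - r0 ^ 2 / 2) * exp (-r0⁻¹ * (r0 * x)) := by
          simp only [← exp_add]
          refine exp_le_exp.2 ?_
          have : -r0⁻¹ * (r0 * x) = -x := by field_simp
          rw [this]
          have hj : (j : ℝ) = b * r0 + r0 ^ 2 - 1 := by linarith
          rw [hj]
          nlinarith [mul_nonneg (sq_nonneg r0) (sq_nonneg (x - 1))]
        calc _ = r0 ^ j * (x ^ j * exp (-b * (r0 * x) - (r0 * x) ^ 2 / 2)) := by ring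
          _ ≤ r0 ^ j * (exp 1 * exp (-b * r0 - r0 ^ 2 / 2) * exp (-r0⁻¹ * (r0 * x))) :=
            mul_le_mul_of_nonneg_left
              ((mul_le_mul_of_nonneg_right h1 (exp_pos _).le).trans h2) (by positivity)
          _ = _ := by ring
    _ = _ := by rw [integral_const_mul, e]; ring

lemma box_low (j : ℕ) {b r0 η : ℝ} (hb : 0 ≤ b) (h0 : 0 < r0) (h : b * r0 + r0 ^ 2 = j + 1)
    (η0 : 0 < η) (η1 : η * (j + 1) ≤ 1 / 2) :
    η / (2 * exp 1) * I j (-b) ≤
      ∫ r in Ioo ((1 - η) * r0) r0, r ^ j * exp (-b * r - r ^ 2 / 2) := by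
  have j0 : (0 : ℝ) ≤ j := j.cast_nonneg
  have η2 : η ≤ 1 / 2 := by nlinarith
  have b1 : 1 / 2 ≤ (1 - η) ^ j := by
    have := one_add_mul_le_pow (a := -η) (by linarith) j
    rw [← sub_eq_add_neg] at this
    nlinarith
  calc _ ≤ η / (2 * exp 1) * (exp 1 * r0 * (r0 ^ j * exp (-b * r0 - r0 ^ 2 / 2))) :=
        mul_le_mul_of_nonneg_left (I_upper j h0 h) (by positivity)
    _ = ∫ _ in Ioo ((1 - η) * r0) r0, 1 / 2 * r0 ^ j * exp (-b * r0 - r0 ^ 2 / 2) := by
        rw [setIntegral_const, Real.volume_real_Ioo_of_le (by nlinarith), smul_eq_mul]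
        field_simp; ring
    _ ≤ _ := by
        refine setIntegral_mono_on (integrableOn_const (by simp)) (I_int _ _ _) measurableSet_Ioo
          fun r hr => ?_
        have r1 : 0 ≤ (1 - η) * r0 := by nlinarith
        refine mul_le_mul ((mul_le_mul_of_nonneg_right b1 (by positivity)).trans ?_)
          (exp_le_exp.2 (by nlinarith [hr.1, hr.2])) (exp_pos _).le
          (pow_nonneg (r1.trans hr.1.le) _)
        rw [← mul_pow]
        exact pow_le_pow_left₀ r1 hr.1.le j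

lemma box_high (j : ℕ) {s0 η : ℝ} (h0 : 0 < s0) (h : s0 ^ 2 = j + 1)
    (η0 : 0 < η) (η1 : η * (j + 1) ≤ 1 / 2) :
    η / (exp 1 * exp 1) * I j 0 ≤
      ∫ r in Ioo s0 ((1 + η) * s0), r ^ j * exp (0 * r - r ^ 2 / 2) := by
  have j0 : (0 : ℝ) ≤ j := j.cast_nonneg
  have η2 : η ≤ 1 / 2 := by nlinarith
  have := I_upper j (b := 0) h0 (by linarith)
  rw [neg_zero] at this
  calc _ ≤ η / (exp 1 * exp 1) * (exp 1 * s0 * (s0 ^ j * exp (0 * s0 - s0 ^ 2 / 2))) :=
        mul_le_mul_of_nonneg_left this (by positivity)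
    _ = ∫ _ in Ioo s0 ((1 + η) * s0), s0 ^ j * exp (0 * s0 - s0 ^ 2 / 2 - 1) := by
        rw [setIntegral_const, Real.volume_real_Ioo_of_le (by nlinarith), smul_eq_mul,
          exp_sub _ 1]
        field_simp; ring
    _ ≤ _ := by
        refine setIntegral_mono_on (integrableOn_const (by simp)) (I_int _ _ _) measurableSet_Ioo
          fun r hr => ?_
        refine mul_le_mul (pow_le_pow_left₀ h0.le hr.1.le j) (exp_le_exp.2 ?_) (exp_pos _).le
          (pow_nonneg (h0.le.trans hr.1.le) _)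
        have : r ^ 2 ≤ ((1 + η) * s0) ^ 2 := pow_le_pow_left₀ (h0.le.trans hr.1.le) hr.2.le 2
        rw [mul_pow, h] at this
        nlinarith

end Pool.Agent.Lib.MP_229ad9_gt
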