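import Pool.Agent.Lib.MP_229ad9_gt.Interp

set_option autoImplicit false
set_option linter.unusedSectionVars false

/-! Gaussian comparison for soft maxima. -/

namespace Pool.Agent.Lib.MP_229ad9_gt

open MeasureTheory Set Real

variable {J : Type} [Fintype J] [DecidableEq J] {ι : Type} [Fintype ι] [Nonempty ι]

/-- The power `q / p` of the partition function. -/
noncomputable def soft (p q : ℝ) (y : ι → ℝ) : ℝ := exp (q / p * log (∑ i, exp (p * y i)))

lemma avg_bound {w e : ι → ℝ} (hw : ∀ i, 0 < w i) {C : ℝ} (he : ∀ i, |e i| ≤ C) :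
    |(∑ i, w i * e i) / ∑ i, w i| ≤ C := by
  have hS : 0 < ∑ i, w i := Finset.sum_pos (fun i _ => hw i) Finset.univ_nonempty
  rw [abs_div, abs_of_pos hS, div_le_iff₀ hS, Finset.mul_sum]
  refine (Finset.abs_sum_le_sum_abs _ _).trans (Finset.sum_le_sum fun i _ => ?_)
  rw [abs_mul, abs_of_pos (hw i), mul_comm]
  exact mul_le_mul_of_nonneg_right (he i) (hw i).le

lemma log_sum_bound {p : ℝ} (hp : 0 < p) {y : ι → ℝ} {b : ℝ} (h : ∀ i, |y i| ≤ b) :
    |log (∑ i, exp (p * y i))| ≤ p * b + Fintype.card ι := by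
  have hS : 0 < ∑ i, exp (p * y i) := Finset.sum_pos (fun i _ => exp_pos _) Finset.univ_nonempty
  have hN : (0 : ℝ) < Fintype.card ι := by exact_mod_cast Fintype.card_pos
  rw [abs_le]
  constructor
  · obtain ⟨i⟩ := ‹Nonempty ι›
    rw [le_log_iff_exp_le hS]
    refine le_trans ?_ (Finset.single_le_sum (f := fun i => exp (p * y i))
      (fun _ _ => (exp_pos _).le) (Finset.mem_univ i))
    refine exp_le_exp.2 ?_
    nlinarith [(abs_le.1 (h i)).1]
  · rw [log_le_iff_le_exp hS]
    calc ∑ i, exp (p * y i) ≤ ∑ _i : ι, exp (p * b) := Finset.sum_le_sum fun i _ =>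
          exp_le_exp.2 (mul_le_mul_of_nonneg_left (abs_le.1 (h i)).2 hp.le)
      _ = Fintype.card ι * exp (p * b) := by simp
      _ ≤ exp (Fintype.card ι) * exp (p * b) := by
          gcongr; linarith [add_one_le_exp (Fintype.card ι : ℝ)]
      _ = _ := by rw [← exp_add, add_comm]

lemma soft_gr {p : ℝ} (hp : 0 < p) (q : ℝ) {E : ι → (J → ℝ) → ℝ} (hc : ∀ i, Continuous (E i))
    {C : ℝ} (hE : ∀ i x, |E i x| ≤ C * (1 + ‖x‖)) : Gr fun x => soft p q fun i => E i x := by
  refine Gr.exp (C := |q / p| * (p * C + Fintype.card ι)) ?_ fun x => ?_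
  · refine continuous_const.mul (Continuous.log (by fun_prop) fun x => ?_)
    exact (Finset.sum_pos (fun i _ => exp_pos _) Finset.univ_nonempty).ne'
  · refine (le_abs_self _).trans ?_
    rw [abs_mul, mul_assoc]
    refine mul_le_mul_of_nonneg_left ((log_sum_bound hp fun i => hE i x).trans ?_) (abs_nonneg _)
    have : (0 : ℝ) ≤ Fintype.card ι * ‖x‖ := by positivity
    nlinarith

theorem soft_cmp (P : J → Prop) [DecidablePred P] {p q σ : ℝ} (hp : 0 < p)
    (hσ : σ * (q * (q - p)) ≤ 0) (E : ι → (J → ℝ) → ℝ) (e1 e2 : ι → J → (J → ℝ) → ℝ)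
    (hd : ∀ i, Differentiable ℝ (E i))
    (h1 : ∀ i l x, HasLineDerivAt ℝ (E i) (e1 i l x) x (Pi.single l 1))
    (h2 : ∀ i l x, HasLineDerivAt ℝ (e1 i l) (e2 i l x) x (Pi.single l 1))
    (c1 : ∀ i l, Continuous (e1 i l)) (c2 : ∀ i l, Continuous (e2 i l)) {C : ℝ}
    (b0 : ∀ i x, |E i x| ≤ C * (1 + ‖x‖)) (b1 : ∀ i l x, |e1 i l x| ≤ C)
    (b2 : ∀ i l x, |e2 i l x| ≤ C)
    (ha : ∀ i x, ∑ l, (if P l then 1 else -1) * e2 i l x = 0)
    (hb : ∀ i x, ∑ l, (if P l then 1 else -1) * (e1 i l x * e1 i l x) = 0)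
    (hc : ∀ i j x, 0 ≤ ∑ l, (if P l then 1 else -1) * (e1 i l x * e1 j l x)) :
    σ * ∫ x : J → ℝ, (soft p q fun i => E i fun l => if P l then x l else 0) * gw x ≤
      σ * ∫ x : J → ℝ, (soft p q fun i => E i fun l => if P l then 0 else x l) * gw x := by
  set S : (J → ℝ) → ℝ := fun x => ∑ i, exp (p * E i x) with hS
  set F : (J → ℝ) → ℝ := fun x => soft p q fun i => E i x with hF
  set A : J → (J → ℝ) → ℝ := fun l x => ∑ i, exp (p * E i x) * e1 i l x with hA
  set B : J → (J → ℝ) → ℝ :=
    fun l x => ∑ i, exp (p * E i x) * (p * (e1 i l x * e1 i l x) + e2 i l x) with hB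
  have Spos : ∀ x, 0 < S x := fun x => Finset.sum_pos (fun i _ => exp_pos _) Finset.univ_nonempty
  have c0 : ∀ i, Continuous (E i) := fun i => (hd i).continuous
  have cS : Continuous S := by simp only [hS]; fun_prop
  have gF : Gr F := soft_gr hp q c0 b0
  have gA : ∀ l, Gr fun x => A l x / S x := fun l =>
    Gr.of_bdd' (C := C) (Continuous.div (by simp only [hA]; fun_prop) cS fun x => (Spos x).ne')
      fun x => avg_bound (fun i => exp_pos _) fun i => b1 i l x
  have gB : ∀ l, Gr fun x => B l x / S x := fun l =>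
    Gr.of_bdd' (C := p * (C * C) + C)
      (Continuous.div (by simp only [hB]; fun_prop) cS fun x => (Spos x).ne')
      fun x => avg_bound (fun i => exp_pos _) fun i => by
        refine (abs_add_le _ _).trans (add_le_add ?_ (b2 i l x))
        rw [abs_mul, abs_mul, abs_of_pos hp]
        exact mul_le_mul_of_nonneg_left (mul_le_mul (b1 i l x) (b1 i l x) (abs_nonneg _)
          ((abs_nonneg _).trans (b1 i l x))) hp.le
  have dS : ∀ l x, HasDerivAt (fun t : ℝ => S (x + t • (Pi.single l 1 : J → ℝ)))
      (p * A l x) 0 := fun l x => by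
    have := HasDerivAt.fun_sum fun i (_ : i ∈ Finset.univ) =>
      (HasDerivAt.const_mul p (h1 i l x)).exp
    refine this.congr_deriv ?_
    simp only [hA, zero_smul, add_zero, Finset.mul_sum]
    exact Finset.sum_congr rfl fun i _ => by ring
  have dA : ∀ l x, HasDerivAt (fun t : ℝ => A l (x + t • (Pi.single l 1 : J → ℝ)))
      (B l x) 0 := fun l x => by
    have := HasDerivAt.fun_sum fun i (_ : i ∈ Finset.univ) =>
      (HasDerivAt.const_mul p (h1 i l x)).exp.fun_mul (h2 i l x)
    refine this.congr_deriv ?_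
    simp only [hB, zero_smul, add_zero]
    exact Finset.sum_congr rfl fun i _ => by ring
  have dF : ∀ l x, HasDerivAt (fun t : ℝ => F (x + t • (Pi.single l 1 : J → ℝ)))
      (q * (F x * (A l x / S x))) 0 := fun l x => by
    have := (((dS l x).log (by simpa using (Spos x).ne')).const_mul (q / p)).exp
    refine this.congr_deriv ?_
    simp only [zero_smul, add_zero, hF, soft, hS]
    field_simp
  have key := interp P (fun x => σ * F x) (fun l x => σ * (q * (F x * (A l x / S x))))
    (fun l x => σ * (F x * (q * (q - p) * (A l x / S x * (A l x / S x)) + q * (B l x / S x))))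
    (by
      refine Differentiable.const_mul (Differentiable.exp (Differentiable.const_mul
        (Differentiable.log (by fun_prop) fun x => (Spos x).ne') _)) _)
    (fun l x => (dF l x).const_mul σ)
    (fun l x => by
      have := (((dF l x).fun_mul ((dA l x).fun_div (dS l x)
        (by simpa using (Spos x).ne'))).const_mul q).const_mul σ
      refine this.congr_deriv ?_
      have := (Spos x).ne'
      simp only [zero_smul, add_zero]
      field_simp
      ring)
    ((Gr.const σ).mul gF) (fun l => (Gr.const σ).mul ((Gr.const q).mul (gF.mul (gA l))))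
    (fun l => (Gr.const σ).mul (gF.mul (((Gr.const _).mul ((gA l).mul (gA l))).add
      ((Gr.const q).mul (gB l)))))
    (fun x => by
      rw [← sub_nonpos, ← Finset.sum_sub_distrib]
      have e : ∀ l, ∀ y : ℝ, (if P l then y else 0) - (if P l then 0 else y) =
          (if P l then 1 else -1) * y := fun l y => by split_ifs <;> ring
      simp only [e]
      have e2' : ∑ l, (if P l then 1 else -1) * (A l x * A l x) = ∑ i, ∑ j,
          exp (p * E i x) * exp (p * E j x) *
            ∑ l, (if P l then 1 else -1) * (e1 i l x * e1 j l x) := by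
        simp only [hA, Finset.sum_mul_sum]
        simp only [Finset.mul_sum]
        rw [Finset.sum_comm]
        refine Finset.sum_congr rfl fun i _ => ?_
        rw [Finset.sum_comm]
        exact Finset.sum_congr rfl fun j _ => Finset.sum_congr rfl fun l _ => by ring
      have e3 : ∑ l, (if P l then 1 else -1) * B l x = 0 := by
        simp only [hB, Finset.mul_sum]
        rw [Finset.sum_comm]
        refine Finset.sum_eq_zero fun i _ => ?_
        have : ∑ l, (if P l then 1 else -1) * (exp (p * E i x) *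
            (p * (e1 i l x * e1 i l x) + e2 i l x)) = exp (p * E i x) *
            (p * ∑ l, (if P l then 1 else -1) * (e1 i l x * e1 i l x) +
              ∑ l, (if P l then 1 else -1) * e2 i l x) := by
          simp only [Finset.mul_sum, ← Finset.sum_add_distrib]
          exact Finset.sum_congr rfl fun l _ => by ring
        rw [this, ha, hb]; ring
      have e4 : ∑ l, (if P l then 1 else -1) * (σ * (F x * (q * (q - p) *
          (A l x / S x * (A l x / S x)) + q * (B l x / S x)))) =
          σ * (q * (q - p)) * (F x / (S x * S x) *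
            ∑ l, (if P l then 1 else -1) * (A l x * A l x)) +
          σ * F x * q / S x * ∑ l, (if P l then 1 else -1) * B l x := by
        simp only [Finset.mul_sum, ← Finset.sum_add_distrib]
        exact Finset.sum_congr rfl fun l _ => by ring
      rw [e4, e3, mul_zero, add_zero, e2']
      refine mul_nonpos_of_nonpos_of_nonneg hσ (mul_nonneg (div_nonneg (exp_pos _).le
        (mul_pos (Spos x) (Spos x)).le) ?_)
      exact Finset.sum_nonneg fun i _ => Finset.sum_nonneg fun j _ =>
        mul_nonneg (by positivity) (hc i j x))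
  simpa only [mul_assoc, integral_const_mul] using key

lemma soft_ge {p : ℝ} (hp : 0 < p) (y : ι → ℝ) (i : ι) : exp (y i) ≤ soft p 1 y := by
  refine exp_le_exp.2 ?_
  have hS : 0 < ∑ i, exp (p * y i) := Finset.sum_pos (fun i _ => exp_pos _) Finset.univ_nonempty
  have : p * y i ≤ log (∑ i, exp (p * y i)) := (le_log_iff_exp_le hS).2
    (Finset.single_le_sum (f := fun i => exp (p * y i)) (fun _ _ => (exp_pos _).le)
      (Finset.mem_univ i))
  rw [one_div, inv_mul_eq_div, le_div_iff₀ hp]
  linarith

lemma soft_le (y : ι → ℝ) {b : ℝ} (h : ∀ i, y i ≤ b) :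
    soft (Fintype.card ι) 1 y ≤ exp (b + 1) := by
  refine exp_le_exp.2 ?_
  have hN : (0 : ℝ) < Fintype.card ι := by exact_mod_cast Fintype.card_pos
  have hS : 0 < ∑ i, exp (Fintype.card ι * y i) :=
    Finset.sum_pos (fun i _ => exp_pos _) Finset.univ_nonempty
  rw [one_div, inv_mul_eq_div, div_le_iff₀ hN, log_le_iff_le_exp hS]
  calc ∑ i, exp (Fintype.card ι * y i) ≤ ∑ _i : ι, exp (Fintype.card ι * b) :=
        Finset.sum_le_sum fun i _ => exp_le_exp.2 (mul_le_mul_of_nonneg_left (h i) hN.le)
    _ = Fintype.card ι * exp (Fintype.card ι * b) := by simp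
    _ ≤ exp (Fintype.card ι) * exp (Fintype.card ι * b) := by
        gcongr; linarith [add_one_le_exp (Fintype.card ι : ℝ)]
    _ = _ := by rw [← exp_add]; ring_nf

lemma soft_neg (p : ℝ) (y : ι → ℝ) : soft p (-1) y = (soft p 1 y)⁻¹ := by
  rw [soft, soft, ← exp_neg]; congr 1; ring

end Pool.Agent.Lib.MP_229ad9_gt
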