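import Pool.Agent.Lib.MP_229ad9_gt.Lower

set_option autoImplicit false
set_option linter.unusedSectionVars false

/-! The upper bound for the complements of neighbourhoods of transversal sets. -/

namespace Pool.Agent.Lib.MP_229ad9_gt

open MeasureTheory Set Real Filter Topology WithLp

section
variable {J : Type} [Fintype J]

lemma soft_pos (p q : ℝ) (y : J → ℝ) : 0 < soft p q y := exp_pos _

lemma Ex_neg (f : (J → ℝ) → ℝ) : Ex (fun x => f (-x)) = Ex f := by
  unfold Ex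
  rw [← integral_neg_eq_self (fun x => f x * gw x)]
  simp [gw]

lemma Ex_half {s : Set ℝ} (hs : MeasurableSet s) (i : J) :
    Ex (fun v : J → ℝ => s.indicator (fun _ => (1 : ℝ)) (nrm v)) ≤
      2 * Ex fun v : J → ℝ => if v i ≤ 0 then s.indicator (fun _ => (1 : ℝ)) (nrm v) else 0 := by
  set f : (J → ℝ) → ℝ := fun v => if v i ≤ 0 then s.indicator (fun _ => (1 : ℝ)) (nrm v) else 0
    with hf
  have fm : Measurable f := Measurable.ite (measurableSet_le (by fun_prop) measurable_const)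
    ((measurable_const.indicator hs).comp nrm_cont.measurable) measurable_const
  have fb : ∀ v, |f v| ≤ 1 := fun v => by
    simp only [hf]
    split_ifs
    · by_cases h : nrm v ∈ s <;> simp [h]
    · simp
  have i1 := bdd_int fm fb
  have i2 := bdd_int (f := fun v => f (-v)) (fm.comp measurable_neg) fun v => fb _
  rw [two_mul]
  nth_rw 2 [← Ex_neg f]
  rw [← Ex_add i1 i2]
  refine Ex_mono (fun _ => indicator_nonneg (fun _ _ => zero_le_one) _)
    (by simp only [add_mul]; exact i1.add i2) fun v => ?_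
  have h0 : 0 ≤ s.indicator (fun _ => (1 : ℝ)) (nrm v) := indicator_nonneg (fun _ _ => zero_le_one) _
  have e : nrm (-v) = nrm v := by simp [nrm]
  simp only [hf, e, Pi.neg_apply]
  split_ifs <;> linarith

lemma Ex_box {j : ℕ} (hJ : Fintype.card J = j + 1) (b : ℝ) {x y : ℝ} (hx : 0 ≤ x) :
    Ex (fun v : J → ℝ => (Ioo x y).indicator (fun r => exp (b * r)) (nrm v)) =
      (∫ r in Ioo x y, r ^ j * exp (b * r - r ^ 2 / 2)) / I j 0 := by
  rw [Ex_rad hJ, ← integral_indicator measurableSet_Ioo, ← integral_indicator measurableSet_Ioi]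
  congr 2
  ext r
  by_cases h : r ∈ Ioo x y
  · simp only [indicator_of_mem h, indicator_of_mem (show r ∈ Ioi 0 from hx.trans_lt h.1),
      ← exp_add, neg_div, sub_eq_add_neg]
  · simp [indicator_of_notMem h]

end

variable {n k m : ℕ}

lemma mem_cone_compl {B : Set (Sph n)} {h : Euc n} (h0 : h ≠ 0) (hh : h ∉ cone B) :
    h ∈ cone Bᶜ :=
  ⟨h0, ⟨‖h‖⁻¹ • h, by simp [norm_smul, norm_ne_zero_iff.2 h0]⟩, fun hb => hh ⟨h0, _, hb, rfl⟩, rfl⟩

lemma not_mem_cone {B : Set (Sph n)} {h : Euc n} (hh : h ∈ cone Bᶜ) : h ∉ cone B := by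
  obtain ⟨-, x, hx, e⟩ := hh
  rintro ⟨-, y, hy, e'⟩
  exact hx (Subtype.ext (e'.trans e.symm) ▸ hy)

lemma cone_int {j : ℕ} {B : Set (Sph (j + 1))} (hB : MeasurableSet B) {b : ℝ} (hb : b ≤ 0) :
    Integrable fun x : Fin (j + 1) → ℝ =>
      (cone B).indicator (fun h => exp (b * ‖h‖)) (toLp 2 x) * gw x := by
  refine bdd_int (((by fun_prop : Measurable fun h : Euc (j + 1) => exp (b * ‖h‖)).indicator
    (cone_meas hB)).comp (by fun_prop)) (C := 1) fun x => ?_
  by_cases h : toLp 2 x ∈ cone B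
  · rw [indicator_of_mem h, abs_of_pos (exp_pos _)]
    exact exp_le_one_iff.2 (mul_nonpos_of_nonpos_of_nonneg hb (norm_nonneg _))
  · simp [indicator_of_notMem h]

lemma box_real {β r0 s0 η c K N r s : ℝ} (hβ : 0 ≤ β) (r00 : 0 < r0) (hr : β * r0 + r0 ^ 2 ≤ K)
    (s00 : 0 < s0) (η0 : 0 < η) (η1 : η * K ≤ 1 / 2) (c0 : 0 < c) (c1 : c ≤ 1)
    (h1 : r0 ^ 2 ≤ c ^ 2 * (r0 ^ 2 + s0 ^ 2)) (h2 : β = 0 ∨ r0 ^ 2 = c ^ 2 * (r0 ^ 2 + s0 ^ 2))
    (N0 : 0 ≤ N) (rr : 0 ≤ r) (e : N ^ 2 = r ^ 2 + s ^ 2) (a1 : r ∈ Ioo ((1 - η) * r0) r0)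
    (a3 : s ∈ Ioo s0 ((1 + η) * s0)) : r < c * N ∧ -1 + -β * r ≤ -(β * c) * N := by
  have r2 : r ^ 2 < r0 ^ 2 := pow_lt_pow_left₀ a1.2 rr two_ne_zero
  have s2 : s0 ^ 2 < s ^ 2 := pow_lt_pow_left₀ a3.1 s00.le two_ne_zero
  constructor
  · refine lt_of_pow_lt_pow_left₀ 2 (by positivity) ?_
    have : c ^ 2 ≤ 1 := pow_le_one₀ c0.le c1
    rw [mul_pow, e]
    linarith [mul_pos (pow_pos c0 2) (sub_pos.2 s2),
      mul_nonneg (sub_nonneg.2 this) (sub_pos.2 r2).le]
  rcases h2 with rfl | h2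
  · simp
  have le : c * N ≤ (1 + η) * r0 := by
    refine le_of_sq_le_sq ?_ (by positivity)
    have s3 : s ^ 2 ≤ ((1 + η) * s0) ^ 2 := pow_le_pow_left₀ (s00.trans a3.1).le a3.2.le 2
    have r3 : r ^ 2 ≤ ((1 + η) * r0) ^ 2 :=
      pow_le_pow_left₀ rr (by linarith [mul_pos η0 r00, a1.2]) 2
    rw [mul_pow, e, mul_pow, h2]
    linarith [mul_le_mul_of_nonneg_left (add_le_add r3 s3) (sq_nonneg c)]
  have h3 := mul_le_mul_of_nonneg_left (show c * N - r ≤ 2 * η * r0 by linarith [a1.1]) hβ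
  have h4 := mul_le_mul_of_nonneg_left hr η0.le
  linarith [mul_pos η0 (pow_pos r00 2)]

lemma half_lower {j k' m' : ℕ} (hkm : k' + 1 + (m' + 1) = j + 1) {ε β r0 s0 η : ℝ} (hβ : 0 ≤ β)
    (r00 : 0 < r0) (hr : β * r0 + r0 ^ 2 = k' + 1) (s00 : 0 < s0) (hs : s0 ^ 2 = m' + 1)
    (η0 : 0 < η) (η1 : η * (j + 1) ≤ 1 / 2) (c0 : 0 < 1 - ε ^ 2 / 2)
    (h1 : r0 ^ 2 ≤ (1 - ε ^ 2 / 2) ^ 2 * (r0 ^ 2 + s0 ^ 2))
    (h2 : β = 0 ∨ r0 ^ 2 = (1 - ε ^ 2 / 2) ^ 2 * (r0 ^ 2 + s0 ^ 2)) :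
    exp (-1) * (η / (2 * exp 1) * (I k' (-β) / I k' 0) * (η / (exp 1 * exp 1) / 2)) ≤
      sig (nbhd (half (j + 1) (k' + 1)) ε)ᶜ * (I j (-(β * (1 - ε ^ 2 / 2))) / I j 0) := by
  set c := 1 - ε ^ 2 / 2 with hc
  have c1 : c ≤ 1 := by linarith [sq_nonneg ε]
  have hk : ((k' : ℝ) + 1) + (m' + 1) = j + 1 := by exact_mod_cast hkm
  have k0 : (0 : ℝ) ≤ k' := k'.cast_nonneg
  have m0 : (0 : ℝ) ≤ m' := m'.cast_nonneg
  have ηk : η * (k' + 1) ≤ 1 / 2 :=
    (mul_le_mul_of_nonneg_left (by linarith) η0.le).trans η1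
  have ηm : η * (m' + 1) ≤ 1 / 2 :=
    (mul_le_mul_of_nonneg_left (by linarith) η0.le).trans η1
  have η2 : η ≤ 1 / 2 := by linarith [mul_nonneg η0.le k0]
  have cp : Fintype.card {i : Fin (j + 1) // (i : ℕ) < k' + 1} = k' + 1 :=
    Fintype.card_fin_lt_of_le (by omega)
  have cq : Fintype.card {i : Fin (j + 1) // ¬(i : ℕ) < k' + 1} = m' + 1 := by
    rw [Fintype.card_subtype_compl, cp, Fintype.card_fin]; omega
  let i0 : {i : Fin (j + 1) // ¬(i : ℕ) < k' + 1} := ⟨⟨k' + 1, by omega⟩, lt_irrefl _⟩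
  have b1 : η / (2 * exp 1) * (I k' (-β) / I k' 0) ≤
      Ex fun v : {i : Fin (j + 1) // (i : ℕ) < k' + 1} → ℝ =>
        (Ioo ((1 - η) * r0) r0).indicator (fun r => exp (-β * r)) (nrm v) := by
    rw [Ex_box cp _ (mul_nonneg (by linarith) r00.le), ← mul_div_assoc]
    exact div_le_div_of_nonneg_right (box_low k' hβ r00 hr η0 ηk) (I_pos _ _).le
  have b2 : η / (exp 1 * exp 1) / 2 ≤ Ex fun v : {i : Fin (j + 1) // ¬(i : ℕ) < k' + 1} → ℝ =>
      if v i0 ≤ 0 then (Ioo s0 ((1 + η) * s0)).indicator (fun _ => (1 : ℝ)) (nrm v) else 0 := by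
    have e := Ex_box cq 0 (y := (1 + η) * s0) s00.le
    have := Ex_half (s := Ioo s0 ((1 + η) * s0)) measurableSet_Ioo i0
    have h3 := (le_div_iff₀ (I_pos m' 0)).2 (box_high m' s00 hs η0 ηm)
    rw [← e] at h3
    simp only [zero_mul, exp_zero] at h3
    linarith
  refine (mul_le_mul_of_nonneg_left (mul_le_mul b1 b2 (by positivity)
    (Ex_nonneg fun _ => indicator_nonneg (fun _ _ => (exp_pos _).le) _)) (exp_pos _).le).trans ?_
  rw [← Ex_sub, ← Ex_const_mul, ← Ex_cone (nbhd_meas _ _).compl]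
  have nn : ∀ x : Fin (j + 1) → ℝ, 0 ≤ (cone (nbhd (half (j + 1) (k' + 1)) ε)ᶜ).indicator
    (fun h => exp (-(β * c) * ‖h‖)) (toLp 2 x) := fun _ =>
      indicator_nonneg (fun _ _ => (exp_pos _).le) _
  refine Ex_mono (fun x => mul_nonneg (exp_pos _).le (mul_nonneg
    (indicator_nonneg (fun _ _ => (exp_pos _).le) _) ?_))
    (cone_int (nbhd_meas _ _).compl (neg_nonpos.2 (by positivity))) fun x => ?_
  · split_ifs
    · exact indicator_nonneg (fun _ _ => zero_le_one) _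
    · exact le_rfl
  set r := nrm fun i : {i : Fin (j + 1) // (i : ℕ) < k' + 1} => x i with hr'
  set s := nrm fun i : {i : Fin (j + 1) // ¬(i : ℕ) < k' + 1} => x i with hs'
  by_cases a1 : r ∈ Ioo ((1 - η) * r0) r0
  swap
  · simpa only [indicator_of_notMem a1, zero_mul, mul_zero] using nn x
  by_cases a2 : x i0 ≤ 0
  swap
  · simpa only [if_neg a2, mul_zero] using nn x
  by_cases a3 : s ∈ Ioo s0 ((1 + η) * s0)
  swap
  · simpa only [indicator_of_notMem a3, ite_self, mul_zero] using nn x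
  have e : ‖(toLp 2 x : Euc (j + 1))‖ ^ 2 = r ^ 2 + s ^ 2 := by
    rw [norm_toLp, nrm_sq, nrm_sq, nrm_sq,
      Fintype.sum_subtype_add_sum_subtype (fun i : Fin (j + 1) => (i : ℕ) < k' + 1)
        fun i => x i ^ 2]
  set N := ‖(toLp 2 x : Euc (j + 1))‖ with hN
  obtain ⟨lt, fin⟩ := box_real hβ r00 (hr.trans_le (by linarith : (k' : ℝ) + 1 ≤ j + 1)) s00 η0 η1
    c0 c1 h1 h2 (norm_nonneg _) (nrm_nonneg _) e a1 a3
  have mem : toLp 2 x ∈ cone (nbhd (half (j + 1) (k' + 1)) ε)ᶜ := by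
    refine mem_cone_compl (fun h => ?_) fun h => ?_
    · rw [h, norm_zero, mul_zero] at lt
      exact absurd lt (not_lt.2 (nrm_nonneg _))
    refine absurd (inner_le_of_mem_cone (half_nonempty (by omega)) h fun a ha =>
      inner_le_nrm _ a x fun i hi => ?_) (not_le.2 lt)
    rcases (not_lt.1 hi).eq_or_lt with h | h
    · obtain rfl : i = i0.1 := Fin.ext h.symm
      exact mul_nonpos_of_nonneg_of_nonpos ((ha _).2 rfl) a2
    · rw [(ha i).1 h, zero_mul]
  rw [indicator_of_mem a1, if_pos a2, indicator_of_mem a3, indicator_of_mem mem, mul_one,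
    ← exp_add, ← hN]
  exact exp_le_exp.2 fin

lemma gordon_up {j k' : ℕ} (hkm : k' + 1 + m = j + 1) {A : Set (Sph (j + 1))}
    (hA : Transversal m A) {ε : ℝ} (ε0 : 0 ≤ ε) {β : ℝ} (hβ : 0 ≤ β) :
    exp (-1) * (sig (nbhd A ε)ᶜ * (I j (-(β * (1 - ε ^ 2 / 2))) / I j 0)) * (I k' β / I k' 0) ≤
      2 * exp 1 * exp (β ^ 2 / 2) := by
  classical
  obtain ⟨a0, ha0, -⟩ := exists_ker hkm hA 0
  set η : ℝ := 1 / (2 * (β + 1)) with hη
  have η0 : 0 < η := by positivity
  have η1 : β * (2 * η) ≤ 1 := by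
    rw [hη, mul_one_div, ← mul_div_assoc, div_le_one (by positivity)]; linarith
  have gr : Gr fun G : Fin (k' + 1) × Fin (j + 1) → ℝ =>
      exp (β * nrm (mv G (ofLp (a0 : Euc (j + 1))))) :=
    gr_exp_nrm β (by fun_prop) (mv_bound a0)
  obtain ⟨T, hT, hb⟩ := net hkm hA η0 gr fun _ => (exp_pos _).le
  have : Nonempty (insert a0 T : Finset _) := ⟨⟨a0, Finset.mem_insert_self _ _⟩⟩
  have N1 : (1 : ℝ) ≤ Fintype.card (insert a0 T : Finset _) := by exact_mod_cast Fintype.card_pos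
  have key := gordon_ex (K := Fin (k' + 1)) (ι := (insert a0 T : Finset _))
    (p := Fintype.card (insert a0 T : Finset _)) (q := -1) (σ := -1) (by linarith) η0
    (by linarith) β (fun _ => 0) (fun i => ofLp (i.1 : Euc (j + 1))) fun i => sum_sq_sph _
  have L1 : exp (-1) * (sig (nbhd A ε)ᶜ * (I j (-(β * (1 - ε ^ 2 / 2))) / I j 0)) ≤
      Ex fun h : Fin (j + 1) → ℝ => soft (Fintype.card (insert a0 T : Finset _)) (-1)
        fun i : (insert a0 T : Finset _) => β * lin (ofLp (i.1 : Euc (j + 1))) h - 0 := by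
    rw [← Ex_cone (nbhd_meas _ _).compl, ← Ex_const_mul]
    refine Ex_mono (fun _ => mul_nonneg (exp_pos _).le
      (indicator_nonneg (fun _ _ => (exp_pos _).le) _)) (soft_gr (by linarith) _
        (fun i => by unfold lin; fun_prop) (C := β * (j + 1)) fun i x => ?_).int fun x => ?_
    · have := lin_bound (abs_sph i.1) x
      rw [sub_zero, abs_mul, abs_of_nonneg hβ, mul_assoc]
      simp only [Fintype.card_fin, Nat.cast_add, Nat.cast_one] at this
      exact mul_le_mul_of_nonneg_left (this.trans (mul_le_mul_of_nonneg_left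
        (le_add_of_nonneg_left zero_le_one) (by positivity))) hβ
    by_cases hx : toLp 2 x ∈ cone (nbhd A ε)ᶜ
    swap
    · rw [indicator_of_notMem hx, mul_zero]; exact (exp_pos _).le
    rw [indicator_of_mem hx, soft_neg, ← exp_add, le_inv_comm₀ (exp_pos _) (soft_pos _ _ _),
      ← exp_neg]
    refine (soft_le _ (b := β * ((1 - ε ^ 2 / 2) * ‖(toLp 2 x : Euc (j + 1))‖)) fun i => ?_).trans
      (exp_le_exp.2 (by linarith))
    rw [sub_zero, ← inner_toLp]
    refine mul_le_mul_of_nonneg_left (le_of_not_ge fun h => not_mem_cone hx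
      (mem_cone_nbhd ε0 ?_ hx.1 h)) hβ
    rcases Finset.mem_insert.1 i.2 with e | e
    · rw [e]; exact ha0
    · exact hT e
  have L2 : I k' β / I k' 0 ≤ Ex fun g : Fin (k' + 1) → ℝ => exp (-(-1 * β * psi η g)) := by
    rw [← Ex_exp_nrm (J := Fin (k' + 1)) (by simp)]
    refine Ex_mono (fun _ => (exp_pos _).le) (g := fun g => exp (-(-1 * β * psi η g))) ?_
      fun g => exp_le_exp.2 ?_
    · refine ((gr_exp_nrm β continuous_id (C := 1) fun x l => by
        simpa using norm_le_pi_norm x l).int.const_mul (exp (β * η))).mono'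
        (Continuous.aestronglyMeasurable (by unfold psi gw; fun_prop)) (.of_forall fun g => ?_)
      rw [Real.norm_eq_abs, abs_of_pos (mul_pos (exp_pos _) (gw_pos _)), ← mul_assoc, ← exp_add]
      refine mul_le_mul_of_nonneg_right (exp_le_exp.2 ?_) (gw_pos _).le
      have := mul_le_mul_of_nonneg_left (psi_le η0.le g) hβ
      simp only [nrm, id]
      linarith
    · have := mul_le_mul_of_nonneg_left (le_psi η g) hβ
      unfold nrm
      linarith
  have R : (Ex fun G : Fin (k' + 1) × Fin (j + 1) → ℝ =>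
      soft (Fintype.card (insert a0 T : Finset _)) (-1) fun i : (insert a0 T : Finset _) =>
        -(β * psi η (mv G (ofLp (i.1 : Euc (j + 1))))) - 0) ≤ 2 * exp 1 := by
    have i1 : Integrable fun G : Fin (k' + 1) × Fin (j + 1) → ℝ => (bad (k' + 1) η T).indicator
        (fun G => exp (β * nrm (mv G (ofLp (a0 : Euc (j + 1)))))) G * gw G := by
      simp only [← indicator_mul_left]
      exact gr.int.indicator (bad_meas _ _)
    have i0 := (Gr.const (J := Fin (k' + 1) × Fin (j + 1)) 1).int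
    refine (Ex_mono (fun _ => (exp_pos _).le) (g := fun G => exp 1 * (1 + (bad (k' + 1) η T).indicator
      (fun G => exp (β * nrm (mv G (ofLp (a0 : Euc (j + 1)))))) G)) (by
        simp only [mul_assoc, add_mul]; exact (i0.add i1).const_mul _) fun G => ?_).trans ?_
    swap
    · rw [Ex_const_mul, Ex_add i0 i1, Ex_one]
      linarith [mul_le_mul_of_nonneg_left hb (exp_pos 1).le, exp_pos 1]
    have bd : ∀ i : (insert a0 T : Finset _), (soft (Fintype.card (insert a0 T : Finset _)) (-1)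
        fun i : (insert a0 T : Finset _) => -(β * psi η (mv G (ofLp (i.1 : Euc (j + 1))))) - 0) ≤
        exp (β * η + β * nrm (mv G (ofLp (i.1 : Euc (j + 1))))) := fun i => by
      rw [soft_neg, inv_le_comm₀ (soft_pos _ _ _) (exp_pos _), ← exp_neg]
      refine le_trans (exp_le_exp.2 ?_) (soft_ge (by linarith) _ i)
      have := mul_le_mul_of_nonneg_left (psi_le η0.le (mv G (ofLp (i.1 : Euc (j + 1))))) hβ
      unfold nrm
      linarith
    by_cases h : G ∈ bad (k' + 1) η T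
    · rw [indicator_of_mem h]
      refine (bd ⟨a0, Finset.mem_insert_self _ _⟩).trans ?_
      rw [exp_add]
      exact mul_le_mul (exp_le_exp.2 (by linarith [mul_nonneg hβ η0.le])) (le_add_of_nonneg_left zero_le_one)
        (exp_pos _).le (exp_pos _).le
    · rw [indicator_of_notMem h, add_zero, mul_one]
      simp only [bad, mem_ofPred_eq, not_forall, not_le] at h
      obtain ⟨a, ha, h⟩ := h
      refine (bd ⟨a, Finset.mem_insert_of_mem ha⟩).trans (exp_le_exp.2 ?_)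
      linarith [mul_le_mul_of_nonneg_left h.le hβ]
  rw [show (-1 * β) ^ 2 = β ^ 2 by ring] at key
  have h1 := mul_le_mul L1 L2 (div_pos (I_pos _ _) (I_pos _ _)).le
    (Ex_nonneg fun _ => (exp_pos _).le)
  linarith [mul_le_mul_of_nonneg_right R (exp_pos (β ^ 2 / 2)).le]

lemma params (k m : ℝ) (hk : 1 ≤ k) (hm : 1 ≤ m) {c : ℝ} (c0 : 0 < c) (c1 : c < 1) :
    ∃ β r0 : ℝ, 0 ≤ β ∧ 0 < r0 ∧ β * r0 + r0 ^ 2 = k ∧ r0 ^ 2 ≤ c ^ 2 * (r0 ^ 2 + m) ∧
      (β = 0 ∨ r0 ^ 2 = c ^ 2 * (r0 ^ 2 + m)) ∧ β * c ≤ k := by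
  by_cases h : k ≤ c ^ 2 * (k + m)
  · have e := sq_sqrt (show 0 ≤ k by linarith)
    exact ⟨0, √k, le_rfl, sqrt_pos.2 (by linarith), by linarith, by rwa [e], .inl rfl, by linarith⟩
  have S0 : 0 < 1 - c ^ 2 := by nlinarith
  have cc := pow_pos c0 2
  have p0 : 0 < c ^ 2 * m / (1 - c ^ 2) := by positivity
  have e := sq_sqrt p0.le
  have r0 := sqrt_pos.2 p0
  set r := √(c ^ 2 * m / (1 - c ^ 2))
  have e2 : r ^ 2 = c ^ 2 * (r ^ 2 + m) := by
    rw [eq_div_iff S0.ne'] at e; linarith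
  have rk : r ^ 2 ≤ k := by
    rw [e, div_le_iff₀ S0]; linarith
  have cr : c ≤ r := le_of_sq_le_sq (by nlinarith [sq_nonneg r]) r0.le
  have b0 : 0 ≤ (k - r ^ 2) / r := div_nonneg (by linarith) r0.le
  have b1 : (k - r ^ 2) / r * r = k - r ^ 2 := div_mul_cancel₀ _ r0.ne'
  exact ⟨(k - r ^ 2) / r, r, b0, r0, by linarith, e2.le, .inr e2, by
    linarith [mul_le_mul_of_nonneg_left cr b0, sq_nonneg r]⟩

theorem upper {j k' m' : ℕ} (hkm : k' + 1 + (m' + 1) = j + 1) {A : Set (Sph (j + 1))}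
    (hA : Transversal (m' + 1) A) {ε : ℝ} (ε0 : 0 < ε) (ε1 : ε ^ 2 < 2) :
    1 - sig (nbhd A ε) ≤ 256 * exp 6 * ((j + 1) ^ 3 / (2 - ε ^ 2)) *
      (1 - sig (nbhd (half (j + 1) (k' + 1)) ε)) := by
  have hk : ((k' : ℝ) + 1) + (m' + 1) = j + 1 := by exact_mod_cast hkm
  have k0 : (0 : ℝ) ≤ k' := k'.cast_nonneg
  have m0 : (0 : ℝ) ≤ m' := m'.cast_nonneg
  have c0 : 0 < 1 - ε ^ 2 / 2 := by linarith
  have c1 : 1 - ε ^ 2 / 2 < 1 := by linarith [pow_pos ε0 2]
  obtain ⟨β, r0, hβ, r00, hr, h1, h2, h3⟩ := params (k' + 1) (m' + 1) (by linarith) (by linarith)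
    c0 c1
  have e := sq_sqrt (show (0 : ℝ) ≤ m' + 1 by linarith)
  have n0 : (0 : ℝ) < j + 1 := by linarith
  have L := half_lower hkm (η := 1 / (2 * (j + 1))) hβ r00 hr (sqrt_pos.2 (by linarith)) e
    (by positivity) (le_of_eq (by field_simp)) c0 (by rwa [e]) (by rwa [e])
  have U := gordon_up hkm hA ε0.le hβ
  rw [sig_compl (nbhd_meas _ _)] at L U
  have F0 := sub_nonneg.2 (sig_le_one (nbhd A ε))
  set F := 1 - sig (nbhd A ε)
  set H := 1 - sig (nbhd (half (j + 1) (k' + 1)) ε)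
  have X0 := div_pos (I_pos j (-(β * (1 - ε ^ 2 / 2)))) (I_pos j 0)
  set X := I j (-(β * (1 - ε ^ 2 / 2))) / I j 0
  have p0 := I_pos k' 0
  have p1 := I_pos k' β
  have p2 := I_pos k' (-β)
  have W : exp (β ^ 2 / 2) ≤ 2 * (β + k' + 1) * (I k' β / I k' 0 * (I k' (-β) / I k' 0)) := by
    have w := wronsk k' β
    have r1 := mul_le_mul_of_nonneg_right (I_ratio k' β) p2.le
    have r2 := mul_le_mul_of_nonneg_left (I_ratio k' (-β)) p1.le
    rw [abs_of_nonneg hβ] at r1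
    rw [abs_neg, abs_of_nonneg hβ] at r2
    have r3 := mul_le_mul_of_nonneg_left (mul_le_mul_of_nonneg_right (I_half k') p0.le)
      (exp_pos (β ^ 2 / 2)).le
    rw [div_mul_div_comm, ← mul_div_assoc, le_div_iff₀ (by positivity)]
    linarith
  have P0 := div_pos p1 p0
  have Q0 := div_pos p2 p0
  set P := I k' β / I k' 0
  set Q := I k' (-β) / I k' 0
  have E0 := exp_pos 1
  have E1 : exp (-1) = (exp 1)⁻¹ := exp_neg 1
  have E6 : exp 6 = exp 1 ^ 6 := by rw [← exp_nat_mul]; norm_num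
  rw [E1] at L U
  rw [E6]
  set E := exp 1
  have a1 : F * X ≤ 4 * E ^ 2 * (β + k' + 1) * Q := by
    have := U.trans (mul_le_mul_of_nonneg_left W (by positivity))
    rw [mul_assoc, inv_mul_le_iff₀ E0] at this
    exact le_of_mul_le_mul_right (by linarith) P0
  have a2 : Q ≤ 16 * E ^ 4 * (j + 1) ^ 2 * (H * X) := by
    rw [← div_le_iff₀' (by positivity)]
    refine le_of_eq_of_le ?_ L
    field_simp; norm_num
  have a3 : β + k' + 1 ≤ 4 * (j + 1) / (2 - ε ^ 2) := by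
    rw [le_div_iff₀ (by linarith)]
    linarith [mul_nonneg (show (0 : ℝ) ≤ k' + 1 by linarith) (sq_nonneg ε)]
  have a4 := a1.trans (mul_le_mul (mul_le_mul_of_nonneg_left a3 (by positivity)) a2 Q0.le
    (mul_nonneg (by positivity) (div_nonneg (by positivity) (by linarith))))
  refine le_of_mul_le_mul_right (a4.trans_eq ?_) X0
  ring

end Pool.Agent.Lib.MP_229ad9_gt
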