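import Pool.Agent.Lib.MP_229ad9_gt.Cells

set_option autoImplicit false
set_option linter.unusedSectionVars false

/-! Log-concavity inside a cell and slow motion of the cells. -/

namespace Pool.Agent.Lib.MP_229ad9_gt

open MeasureTheory Set Real Filter Topology

variable {j : ℕ} {ι : Type} [Fintype ι] [Nonempty ι]

lemma pl_two (β1 β2 : ℝ) {a : Euc (j + 1)} (ha : ‖a‖ = 1) {A B C : Set (Euc (j + 1))}
    (hA : MeasurableSet A) (hB : MeasurableSet B) (hC : MeasurableSet C)
    (mid : ∀ x ∈ A, ∀ y ∈ B, (1 / 2 : ℝ) • (x + y) ∈ C) {u v : Euc (j + 1) → ℝ}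
    (hu : Continuous u) (hv : Continuous v) {κ : ℝ}
    (h : ∀ x ∈ A, ∀ y ∈ B, u x + v y + κ ≤ ‖x - y‖ ^ 2 / 4 - |β2 - β1| * ‖x - y‖ / 2) :
    exp κ * ((∫ x in A, W β1 a x * exp (u x)) * ∫ y in B, W β2 a y * exp (v y)) ≤
      (∫ z in C, W ((β1 + β2) / 2) a z) ^ 2 := by
  have := prekopa (f := A.indicator fun x => exp κ * (W β1 a x * exp (u x)))
    (g := B.indicator fun y => W β2 a y * exp (v y)) (H := C.indicator (W ((β1 + β2) / 2) a))
    (Measurable.indicator (by fun_prop) hA) (Measurable.indicator (by fun_prop) hB)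
    (Measurable.indicator (by fun_prop) hC)
    (fun x => indicator_nonneg (fun x _ => by have := W_pos β1 a x; positivity) _)
    (fun x => indicator_nonneg (fun x _ => by have := W_pos β2 a x; positivity) _)
    (fun x => indicator_nonneg (fun x _ => (W_pos _ _ _).le) _) ((W_int _ _).indicator hC)
    fun x y => by
      by_cases hx : x ∈ A; swap
      · rw [indicator_of_notMem hx, zero_mul]; positivity
      by_cases hy : y ∈ B; swap
      · rw [indicator_of_notMem hy, mul_zero]; positivity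
      rw [indicator_of_mem hx, indicator_of_mem hy, indicator_of_mem (mid x hx y hy)]
      simp only [W, sq (exp _), ← exp_add]
      refine exp_le_exp.2 ?_
      have h1 := h x hx y hy
      have h2 : |inner ℝ a (x - y)| ≤ ‖x - y‖ := by
        simpa [ha] using abs_real_inner_le_norm a (x - y)
      have h3 : -(|β2 - β1| * ‖x - y‖) ≤ (β2 - β1) * inner ℝ a (x - y) := by
        refine le_trans ?_ (neg_abs_le _)
        rw [abs_mul]
        exact neg_le_neg (mul_le_mul_of_nonneg_left h2 (abs_nonneg _))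
      have h4 : ‖(1 / 2 : ℝ) • (x + y)‖ ^ 2 = (2 * ‖x‖ ^ 2 + 2 * ‖y‖ ^ 2 - ‖x - y‖ ^ 2) / 4 := by
        rw [norm_smul, mul_pow, norm_add_sq_real, norm_sub_sq_real]; norm_num; ring
      rw [h4, real_inner_smul_right, inner_add_right]
      rw [inner_sub_right] at h3
      linarith
  rwa [integral_indicator hA, integral_indicator hB, integral_indicator hC, integral_const_mul,
    mul_assoc] at this

/-- signed defect from the cone -/
noncomputable def df (c : ℝ) (a h : Euc (j + 1)) : ℝ := inner ℝ a h - c * ‖h‖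

@[fun_prop] lemma df_cont (c : ℝ) (a : Euc (j + 1)) : Continuous (df c a) := by
  unfold df; fun_prop

lemma df_lip {c : ℝ} (c0 : 0 ≤ c) (c1 : c ≤ 1) {a : Euc (j + 1)} (ha : ‖a‖ = 1)
    (x y : Euc (j + 1)) : |df c a x - df c a y| ≤ 2 * ‖x - y‖ := by
  have h2 : |inner ℝ a (x - y)| ≤ ‖x - y‖ := by simpa [ha] using abs_real_inner_le_norm a (x - y)
  have h3 := abs_norm_sub_norm_le x y
  have e : df c a x - df c a y = inner ℝ a (x - y) - c * (‖x‖ - ‖y‖) := by
    rw [inner_sub_right, df, df]; ring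
  rw [e]
  refine (abs_sub _ _).trans ?_
  rw [abs_mul, abs_of_nonneg c0]
  nlinarith [abs_nonneg (‖x‖ - ‖y‖)]

lemma df_mid {c : ℝ} (c0 : 0 ≤ c) (a x y : Euc (j + 1)) :
    (df c a x + df c a y) / 2 ≤ df c a ((1 / 2 : ℝ) • (x + y)) := by
  simp only [df, real_inner_smul_right, inner_add_right, norm_smul]
  norm_num
  nlinarith [norm_add_le x y]

/-- truncation to an interval -/
noncomputable def clip (δ x : ℝ) : ℝ := max 0 (min x δ)

@[fun_prop] lemma clip_cont (δ : ℝ) : Continuous (clip δ) := by unfold clip; fun_prop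

lemma clip_nonneg (δ x : ℝ) : 0 ≤ clip δ x := le_max_left _ _

lemma clip_le {δ : ℝ} (h : 0 ≤ δ) (x : ℝ) : clip δ x ≤ δ := max_le h (min_le_right _ _)

lemma clip_abs {δ : ℝ} (h : 0 ≤ δ) (x : ℝ) : |clip δ x| ≤ δ := by
  rw [abs_of_nonneg (clip_nonneg _ _)]; exact clip_le h x

lemma clip_lip (δ x y : ℝ) : |clip δ x - clip δ y| ≤ |x - y| := by
  refine (abs_max_sub_max_le_max _ _ _ _).trans (max_le (by simp) ?_)
  refine (abs_min_sub_min_le_max _ _ _ _).trans (max_le le_rfl (by simp))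

/-- mass of the part of a cell above a level -/
noncomputable def up (β c : ℝ) (a : Euc (j + 1)) (C : Set (Euc (j + 1))) (s : ℝ) : ℝ :=
  ∫ h in C ∩ {h | s ≤ df c a h}, W β a h

/-- the truncated first moment -/
noncomputable def mom (β c δ : ℝ) (a : Euc (j + 1)) (C : Set (Euc (j + 1))) : ℝ :=
  ∫ h in C, W β a h * clip δ (df c a h)

lemma lev_meas (c : ℝ) (a : Euc (j + 1)) (s : ℝ) : MeasurableSet {h | s ≤ df c a h} :=
  (isClosed_le continuous_const (df_cont c a)).measurableSet

lemma mom_int (β c : ℝ) {δ : ℝ} (hδ : 0 ≤ δ) (a : Euc (j + 1)) :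
    Integrable fun h => W β a h * clip δ (df c a h) :=
  W_int_mul β a (by fun_prop) fun _ => clip_abs hδ _

lemma mom_le (β c : ℝ) {δ : ℝ} (hδ : 0 ≤ δ) (a : Euc (j + 1)) (C : Set (Euc (j + 1))) :
    mom β c δ a C ≤ δ * up β c a C 0 := by
  rw [mom, up, ← setIntegral_indicator (lev_meas c a 0), ← integral_const_mul]
  refine integral_mono (mom_int β c hδ a).integrableOn
    (((W_int β a).indicator (lev_meas c a 0)).const_mul _).integrableOn fun h => ?_
  by_cases hh : h ∈ {h | 0 ≤ df c a h}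
  · simp only [indicator_of_mem hh]
    rw [mul_comm]
    exact mul_le_mul_of_nonneg_right (clip_le hδ _) (W_pos _ _ _).le
  · simp only [indicator_of_notMem hh]
    have : clip δ (df c a h) = 0 := max_eq_left ((min_le_left _ _).trans (not_le.1 hh).le)
    simp [this]

lemma le_mom (β c : ℝ) {δ : ℝ} (hδ : 0 ≤ δ) (a : Euc (j + 1)) (C : Set (Euc (j + 1))) :
    δ * up β c a C δ ≤ mom β c δ a C := by
  rw [mom, up, ← setIntegral_indicator (lev_meas c a δ), ← integral_const_mul]
  refine integral_mono (((W_int β a).indicator (lev_meas c a δ)).const_mul _).integrableOn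
    (mom_int β c hδ a).integrableOn fun h => ?_
  by_cases hh : h ∈ {h | δ ≤ df c a h}
  · simp only [indicator_of_mem hh]
    have : clip δ (df c a h) = δ := by rw [clip, min_eq_right hh, max_eq_right hδ]
    rw [this, mul_comm]
  · simp only [indicator_of_notMem hh, mul_zero]
    exact mul_nonneg (W_pos _ _ _).le (clip_nonneg _ _)

lemma up_nonneg (β c : ℝ) (a : Euc (j + 1)) (C : Set (Euc (j + 1))) (s : ℝ) :
    0 ≤ up β c a C s := integral_nonneg fun _ => (W_pos _ _ _).le

lemma up_add (β c : ℝ) (a : Euc (j + 1)) (C : Set (Euc (j + 1))) (s : ℝ) :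
    up β c a C s + ∫ h in C \ {h | s ≤ df c a h}, W β a h = ∫ h in C, W β a h :=
  integral_inter_add_sdiff (lev_meas c a s) (W_int β a).integrableOn

lemma up_anti (β c : ℝ) (a : Euc (j + 1)) (C : Set (Euc (j + 1))) {s s' : ℝ} (h : s ≤ s') :
    up β c a C s' ≤ up β c a C s :=
  setIntegral_mono_set (W_int β a).integrableOn (.of_forall fun _ => (W_pos _ _ _).le)
    (LE.le.eventuallyLE fun _ hx => ⟨hx.1, h.trans hx.2⟩)

lemma seq_lc {τ : ℕ → ℝ} {K : ℕ} (pos : ∀ i ≤ K, 0 < τ i) (h0 : 0 ≤ τ (K + 1))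
    (lc : ∀ i, τ i * τ (i + 2) ≤ τ (i + 1) ^ 2) :
    (τ (K + 1) / τ K) ^ (K + 1) * τ 0 ≤ τ (K + 1) := by
  set r := τ (K + 1) / τ K with hr
  have r0 : 0 ≤ r := div_nonneg h0 (pos K le_rfl).le
  have h1 : ∀ d i, i + d = K → r * τ i ≤ τ (i + 1) := by
    intro d
    induction d with
    | zero => rintro i rfl; exact (div_mul_cancel₀ _ (pos _ le_rfl).ne').le
    | succ d ih =>
      intro i hi
      have h2 := ih (i + 1) (by omega)
      have p1 := pos (i + 1) (by omega)
      have p0 := pos i (by omega)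
      refine le_of_mul_le_mul_right ?_ p1
      nlinarith [lc i, mul_le_mul_of_nonneg_left h2 p0.le]
  have h2 : ∀ i ≤ K + 1, r ^ i * τ 0 ≤ τ i := by
    intro i hi
    induction i with
    | zero => simp
    | succ i ih =>
      refine le_trans ?_ (h1 (K - i) i (by omega))
      rw [pow_succ', mul_assoc]
      exact mul_le_mul_of_nonneg_left (ih (by omega)) r0
  exact h2 _ le_rfl

lemma window (β : ℝ) {c : ℝ} (c0 : 0 ≤ c) (c1 : c ≤ 1) {a : Euc (j + 1)} (ha : ‖a‖ = 1)
    {C : Set (Euc (j + 1))} (hC : MeasurableSet C)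
    (mid : ∀ x ∈ C, ∀ y ∈ C, (1 / 2 : ℝ) • (x + y) ∈ C) {K : ℕ} {δ : ℝ} (hK : K * δ = 8)
    (hδ : 0 < δ) (M0 : 0 < ∫ h in C, W β a h)
    (h1 : δ / 4 * ∫ h in C, W β a h ≤ mom β c δ a C)
    (h2 : mom β c δ a C ≤ 3 * δ / 4 * ∫ h in C, W β a h) :
    ∫ h in C, W β a h ≤
      28 * (K + 1) * ∫ h in (C ∩ {h | 0 ≤ df c a h}) \ {h | δ ≤ df c a h}, W β a h := by
  set M := ∫ h in C, W β a h with hM
  have t0 : M / 4 ≤ up β c a C 0 :=
    le_of_mul_le_mul_left (by linarith [mom_le β c hδ.le a C]) hδ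
  have t1 : up β c a C δ ≤ 3 * M / 4 :=
    le_of_mul_le_mul_left (by linarith [le_mom β c hδ.le a C]) hδ
  have e : (β + β) / 2 = β := by ring
  have t2 : 7 * M / 8 ≤ up β c a C (-8) := by
    have := pl_two β β ha (hC.inter (lev_meas c a 0)) (hC.diff (lev_meas c a (-8))) hC
      (fun x hx y hy => mid x hx.1 y hy.1) (u := fun _ => 0) (v := fun _ => 0) continuous_const
      continuous_const (κ := 4) fun x hx y hy => by
        have l1 := (abs_le.1 (df_lip c0 c1 ha x y)).2
        have l2 : 0 ≤ df c a x := hx.2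
        have l3 : df c a y < -8 := not_le.1 hy.2
        simp only [sub_self, abs_zero]
        nlinarith
    simp only [exp_zero, mul_one, e] at this
    have e4 : 32 ≤ exp 4 := by
      have := quadratic_le_exp_of_nonneg (show (0 : ℝ) ≤ 1 by norm_num)
      have h := pow_le_pow_left₀ (by norm_num) this 4
      rw [← exp_nat_mul] at h
      norm_num at h ⊢
      linarith
    have l1 := up_add β c a C (-8)
    have l0 : 0 ≤ ∫ h in C \ {h | -8 ≤ df c a h}, W β a h :=
      integral_nonneg fun _ => (W_pos _ _ _).le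
    rw [← hM] at this l1
    change exp 4 * (up β c a C 0 * _) ≤ _ at this
    set L := ∫ h in C \ {h | -8 ≤ df c a h}, W β a h
    have : 32 * (M / 4 * L) ≤ M ^ 2 := le_trans (mul_le_mul e4 (mul_le_mul_of_nonneg_right t0 l0)
      (by positivity) (exp_pos _).le) this
    have : L ≤ M / 8 := le_of_mul_le_mul_left (by nlinarith) M0
    linarith
  have key := seq_lc (τ := fun i => up β c a C (-8 + i * δ)) (K := K)
    (fun i hi => lt_of_lt_of_le (by linarith) (t0.trans (up_anti β c a C (by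
      have : (i : ℝ) * δ ≤ K * δ := mul_le_mul_of_nonneg_right (by exact_mod_cast hi) hδ.le
      linarith)))) (up_nonneg _ _ _ _ _) fun i => by
      have := pl_two β β ha (hC.inter (lev_meas c a (-8 + i * δ)))
        (hC.inter (lev_meas c a (-8 + (i + 2 : ℕ) * δ)))
        (hC.inter (lev_meas c a (-8 + (i + 1 : ℕ) * δ)))
        (fun x hx y hy => ⟨mid x hx.1 y hy.1, le_trans (by
          have l2 : _ ≤ df c a x := hx.2
          have l3 : _ ≤ df c a y := hy.2
          push_cast at l3 ⊢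
          linarith) (df_mid c0 a x y)⟩) (u := fun _ => 0) (v := fun _ => 0) continuous_const
        continuous_const (κ := 0) fun x hx y hy => by
          simp only [sub_self, abs_zero]
          nlinarith
      simpa only [exp_zero, mul_one, one_mul, e, up] using this
  have e1 : -8 + ((K + 1 : ℕ) : ℝ) * δ = δ := by push_cast; linarith
  have e2 : -8 + (K : ℝ) * δ = 0 := by linarith
  simp only [e1, e2, Nat.cast_zero, zero_mul, add_zero] at key
  have p0 : 0 < up β c a C 0 := by linarith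
  set r := up β c a C δ / up β c a C 0 with hr
  have r0 : 0 ≤ r := div_nonneg (up_nonneg _ _ _ _ _) p0.le
  have b := one_add_mul_le_pow (a := r - 1) (by linarith) (K + 1)
  rw [add_sub_cancel] at b
  have b2 : r ^ (K + 1) ≤ 6 / 7 := by
    have : r ^ (K + 1) * (7 * M / 8) ≤ 3 * M / 4 :=
      (mul_le_mul_of_nonneg_left t2 (pow_nonneg r0 _)).trans (key.trans t1)
    exact le_of_mul_le_mul_right (by linarith) M0
  have l1 := up_add β c a (C ∩ {h | 0 ≤ df c a h}) δ
  have l2 : up β c a (C ∩ {h | 0 ≤ df c a h}) δ = up β c a C δ := by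
    have : {h | δ ≤ df c a h} ⊆ {h | 0 ≤ df c a h} := fun x hx => hδ.le.trans hx
    rw [up, up, inter_assoc, inter_eq_self_of_subset_right this]
  have l3 : up β c a C δ = r * up β c a C 0 := (div_mul_cancel₀ _ p0.ne').symm
  rw [l2] at l1
  change _ = up β c a C 0 at l1
  have l4 : ∫ h in (C ∩ {h | 0 ≤ df c a h}) \ {h | δ ≤ df c a h}, W β a h =
      (1 - r) * up β c a C 0 := by linarith
  rw [l4]
  push_cast at b
  have : 1 / 7 ≤ (K + 1) * (1 - r) := by linarith
  nlinarith [mul_le_mul this t0 (by positivity) (by linarith)]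

lemma jensen_exp (β : ℝ) (a : Euc (j + 1)) (C : Set (Euc (j + 1))) {u : Euc (j + 1) → ℝ}
    (hu : Continuous u) {b : ℝ} (hb : ∀ x, |u x| ≤ b) (M0 : 0 < ∫ h in C, W β a h) :
    (∫ h in C, W β a h) * exp ((∫ h in C, W β a h * u h) / ∫ h in C, W β a h) ≤
      ∫ h in C, W β a h * exp (u h) := by
  set M := ∫ h in C, W β a h with hM
  set m := (∫ h in C, W β a h * u h) / M with hm
  have i1 := (W_int_mul β a hu hb).integrableOn (s := C)
  have i0 := (W_int β a).integrableOn (s := C)
  have : ∫ h in C, (exp m * (1 - m) * W β a h + exp m * (W β a h * u h)) = M * exp m := by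
    rw [integral_add (i0.const_mul _) (i1.const_mul _), integral_const_mul, integral_const_mul,
      ← hM, show ∫ h in C, W β a h * u h = m * M from (div_mul_cancel₀ _ M0.ne').symm]
    ring
  rw [← this]
  refine integral_mono ((i0.const_mul _).add (i1.const_mul _))
    (W_int_mul β a (by fun_prop) (C := exp b) fun x => by
      rw [abs_of_pos (exp_pos _)]; exact exp_le_exp.2 (abs_le.1 (hb x)).2).integrableOn
    fun h => ?_
  have := mul_le_mul_of_nonneg_left (add_one_le_exp (u h - m)) (exp_pos m).le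
  rw [← exp_add, add_sub_cancel] at this
  have := mul_le_mul_of_nonneg_left this (W_pos β a h).le
  simp only
  linarith

lemma step {a : ι → Euc (j + 1)} (ha : ∀ i, ‖a i‖ = 1) (hinj : Function.Injective a)
    {μ : ι → ℝ} (μ0 : ∀ i, 0 < μ i) (μ1 : ∑ i, μ i = 1) {c δ β1 β2 : ℝ} (c0 : 0 ≤ c) (c1 : c ≤ 1)
    (hδ : 0 < δ) (hβ : |β2 - β1| ≤ δ / 16) {t1 t2 : ι → ℝ}
    (Z1 : Zs β1 a (fun i => β1 * t1 i) ≤ 1) (Z2 : Zs β2 a (fun i => β2 * t2 i) ≤ 1)
    (M1 : ∀ i, μ i * exp (β1 * t1 i) ≤ ∫ h in cell a t1 i, W β1 (a i) h)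
    (M2 : ∀ i, μ i * exp (β2 * t2 i) ≤ ∫ h in cell a t2 i, W β2 (a i) h) (S : Finset ι)
    (hS : ∀ i ∈ S, δ / 2 ≤ |mom β1 c δ (a i) (cell a t1 i) / (∫ h in cell a t1 i, W β1 (a i) h) -
      mom β2 c δ (a i) (cell a t2 i) / ∫ h in cell a t2 i, W β2 (a i) h|) :
    (∑ i ∈ S, μ i) * δ ^ 2 ≤ 64 * (β2 - β1) ^ 2 := by
  classical
  set Δ := |β2 - β1| with hΔ
  have Δ0 : 0 ≤ Δ := abs_nonneg _
  set sb : ι → ℝ := fun i => (β1 * t1 i + β2 * t2 i) / 2 with hsb
  set g : ι → ℝ := fun i => (if i ∈ S then δ ^ 2 / 256 else 0) - Δ ^ 2 / 4 with hg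
  have key : ∀ i, μ i * exp (g i / 2) ≤
      ∫ h in cell a (fun l => (t1 l + t2 l) / 2) i, exp (-sb i) * W ((β1 + β2) / 2) (a i) h := by
    intro i
    have p1 : 0 < ∫ h in cell a t1 i, W β1 (a i) h :=
      (mul_pos (μ0 i) (exp_pos _)).trans_le (M1 i)
    have p2 : 0 < ∫ h in cell a t2 i, W β2 (a i) h :=
      (mul_pos (μ0 i) (exp_pos _)).trans_le (M2 i)
    set m1 := mom β1 c δ (a i) (cell a t1 i) / ∫ h in cell a t1 i, W β1 (a i) h with hm1
    set m2 := mom β2 c δ (a i) (cell a t2 i) / ∫ h in cell a t2 i, W β2 (a i) h with hm2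
    obtain ⟨θ, hθ⟩ : ∃ θ : ℝ, g i ≤ θ * (m1 - m2) - (Δ / 2 + 2 * |θ|) ^ 2 := by
      by_cases hi : i ∈ S
      · have := hS i hi
        simp only [hg, if_pos hi]
        rcases le_total 0 (m1 - m2) with h | h
        · refine ⟨δ / 32, ?_⟩
          rw [abs_of_nonneg h] at this
          rw [abs_of_pos (by positivity)]
          nlinarith
        · refine ⟨-(δ / 32), ?_⟩
          rw [abs_of_nonpos h] at this
          rw [abs_neg, abs_of_pos (by positivity)]
          nlinarith
      · exact ⟨0, by simp only [hg, if_neg hi, abs_zero]; linarith⟩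
    have bd : ∀ (θ : ℝ) x, |θ * clip δ (df c (a i) x)| ≤ |θ| * δ := fun θ x => by
      rw [abs_mul]; exact mul_le_mul_of_nonneg_left (clip_abs hδ.le _) (abs_nonneg _)
    have P := pl_two β1 β2 (ha i) (cell_closed a t1 i).measurableSet
      (cell_closed a t2 i).measurableSet (cell_closed a _ i).measurableSet
      (fun x hx y hy => cell_mid a t1 t2 i hx hy) (u := fun x => θ * clip δ (df c (a i) x))
      (v := fun x => -θ * clip δ (df c (a i) x)) (by fun_prop) (by fun_prop)
      (κ := -(Δ / 2 + 2 * |θ|) ^ 2) fun x _ y _ => by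
        have l1 := (clip_lip δ _ _).trans (df_lip c0 c1 (ha i) x y)
        have l2 := (le_abs_self (θ * (clip δ (df c (a i) x) - clip δ (df c (a i) y)))).trans
          ((abs_mul _ _).le.trans (mul_le_mul_of_nonneg_left l1 (abs_nonneg θ)))
        nlinarith [sq_nonneg (‖x - y‖ / 2 - (Δ / 2 + 2 * |θ|))]
    have J1 := jensen_exp β1 (a i) (cell a t1 i) (u := fun x => θ * clip δ (df c (a i) x))
      (by fun_prop) (bd θ) p1
    have J2 := jensen_exp β2 (a i) (cell a t2 i) (u := fun x => -θ * clip δ (df c (a i) x))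
      (by fun_prop) (bd (-θ)) p2
    simp only [mul_left_comm (W _ _ _), integral_const_mul, mul_div_assoc] at J1 J2
    change _ * exp (θ * m1) ≤ _ at J1
    change _ * exp (-θ * m2) ≤ _ at J2
    have J1' := (mul_le_mul_of_nonneg_right (M1 i) (exp_pos _).le).trans J1
    have J2' := (mul_le_mul_of_nonneg_right (M2 i) (exp_pos _).le).trans J2
    have q := μ0 i
    have P2 := (mul_le_mul_of_nonneg_left (mul_le_mul J1' J2' (by positivity)
      (le_trans (by positivity) J1')) (exp_pos _).le).trans P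
    rw [integral_const_mul, exp_neg, ← div_eq_inv_mul, le_div_iff₀ (exp_pos _)]
    refine le_of_sq_le_sq (le_trans ?_ P2) (integral_nonneg fun _ => (W_pos _ _ _).le)
    have : ∀ x y z w v : ℝ, exp v * (μ i * exp x * exp y * (μ i * exp z * exp w)) =
        μ i ^ 2 * exp (v + x + y + z + w) := fun x y z w v => by simp only [exp_add]; ring
    rw [this, mul_assoc, ← exp_add, mul_pow, ← exp_nat_mul]
    refine mul_le_mul_of_nonneg_left (exp_le_exp.2 ?_) (sq_nonneg _)
    simp only [hsb]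
    push_cast
    linarith
  have tot := cell_sum hinj (fun l => (t1 l + t2 l) / 2) Finset.univ
    (fun i => (cell_closed a _ i).measurableSet) (fun i => subset_rfl)
    (w := fun i h => exp (-sb i) * W ((β1 + β2) / 2) (a i) h)
    (fun i => (W_int _ _).const_mul _)
    (Φ := fun h => (exp (mx β1 a (fun i => β1 * t1 i) h - ‖h‖ ^ 2 / 2) +
      exp (mx β2 a (fun i => β2 * t2 i) h - ‖h‖ ^ 2 / 2)) / 2)
    (((mx_int _ _ _).add (mx_int _ _ _)).div_const 2) (fun h => by positivity)
    fun i _ h _ _ => by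
      have l1 := le_mx β1 a (fun i => β1 * t1 i) h i
      have l2 := le_mx β2 a (fun i => β2 * t2 i) h i
      set x := mx β1 a (fun i => β1 * t1 i) h - ‖h‖ ^ 2 / 2
      set y := mx β2 a (fun i => β2 * t2 i) h - ‖h‖ ^ 2 / 2
      have : exp (-sb i) * W ((β1 + β2) / 2) (a i) h ≤ exp (x / 2) * exp (y / 2) := by
        rw [W, ← exp_add, ← exp_add]
        refine exp_le_exp.2 ?_
        simp only [hsb, x, y]
        linarith
      have e1 : exp x = exp (x / 2) ^ 2 := by rw [← exp_nat_mul]; congr 1; push_cast; ring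
      have e2 : exp y = exp (y / 2) ^ 2 := by rw [← exp_nat_mul]; congr 1; push_cast; ring
      nlinarith [sq_nonneg (exp (x / 2) - exp (y / 2))]
  rw [integral_div, integral_add (mx_int _ _ _) (mx_int _ _ _)] at tot
  have s1 : ∑ i, μ i * (g i / 2 + 1) ≤ 1 := by
    refine le_trans (Finset.sum_le_sum fun i _ =>
      (mul_le_mul_of_nonneg_left (add_one_le_exp _) (μ0 i).le).trans (key i)) (tot.trans ?_)
    unfold Zs at Z1 Z2
    linarith
  have s2 : ∑ i, μ i * (g i / 2 + 1) =
      (∑ i ∈ S, μ i) * (δ ^ 2 / 512) + (∑ i, μ i) * (1 - Δ ^ 2 / 8) := by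
    rw [Finset.sum_mul, Finset.sum_mul, ← Finset.univ_inter S, ← Finset.sum_ite_mem,
      ← Finset.sum_add_distrib]
    refine Finset.sum_congr rfl fun i _ => ?_
    simp only [hg]
    split_ifs <;> ring
  rw [s2, μ1, hΔ, sq_abs] at s1
  linarith

end Pool.Agent.Lib.MP_229ad9_gt
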