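import Pool.Agent.Lib.MP_229ad9_gt.XHopf

set_option autoImplicit false
set_option linter.unusedSectionVars false

/-! The projective action preserves minimisers. -/

namespace Pool.Agent.Lib.MP_229ad9_gt

open MeasureTheory Set Real Metric Function

variable {n m : ℕ}

lemma norm_nz {v : Euc n} (h : v ≠ 0) : ‖nz v‖ = 1 := by
  simp [nz, norm_smul, norm_ne_zero_iff.2 h]

lemma nz_smul {c : ℝ} (hc : 0 < c) (v : Euc n) : nz (c • v) = nz v := by
  rw [nz, nz, norm_smul, smul_smul, Real.norm_eq_abs, abs_of_pos hc, mul_inv, mul_right_comm,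
    inv_mul_cancel₀ hc.ne', one_mul]

lemma smul_nz (v : Euc n) : ‖v‖ • nz v = v := by
  rcases eq_or_ne v 0 with rfl | h
  · simp
  · rw [nz, smul_smul, mul_inv_cancel₀ (norm_ne_zero_iff.2 h), one_smul]

lemma nz_sub (v : Euc n) {u : Euc n} (hu : ‖u‖ = 1) : ‖nz v - u‖ ≤ 2 * ‖v - u‖ := by
  rcases eq_or_ne v 0 with rfl | h
  · simp [nz, hu]
  have h1 : ‖nz v - v‖ = |‖u‖ - ‖v‖| := by
    nth_rw 2 [← smul_nz v]
    nth_rw 1 [← one_smul ℝ (nz v)]
    rw [← sub_smul, norm_smul, norm_nz h, hu, mul_one, Real.norm_eq_abs]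
  linarith [norm_sub_le_norm_sub_add_norm_sub (nz v) v u, abs_norm_sub_norm_le u v,
    norm_sub_rev u v]

open Classical in
/-- the projective action on the sphere -/
noncomputable def act (T : CL n) (a : Sph n) : Sph n :=
  if h : T a = 0 then a else ⟨nz (T a), by simp [norm_nz h]⟩

lemma map_ne {T : CL n} (hT : Injective T) (a : Sph n) : T a ≠ 0 := fun h =>
  ne_zero_of_mem_unit_sphere a (hT (h.trans (map_zero T).symm))

lemma act_coe {T : CL n} (hT : Injective T) (a : Sph n) : (act T a : Euc n) = nz (T a) := by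
  rw [act, dif_neg (map_ne hT a)]

lemma act_cont {T : CL n} (hT : Injective T) : Continuous (act T) := by
  refine continuous_induced_rng.2 ?_
  have : Subtype.val ∘ act T = fun a : Sph n => ‖T a‖⁻¹ • T a := funext (act_coe hT)
  rw [this]
  exact (Continuous.inv₀ (by fun_prop) fun a => norm_ne_zero_iff.2 (map_ne hT a)).smul
    (by fun_prop)

lemma act_act {S T : CL n} (hS : Injective S) (hT : Injective T) (a : Sph n) :
    act S (act T a) = act (S * T) a := by
  refine Subtype.ext ?_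
  rw [act_coe hS, act_coe hT, act_coe (T := S * T) (hS.comp hT), nz.eq_1 (T a), map_smul,
    nz_smul (inv_pos.2 (norm_pos_iff.2 (map_ne hT a)))]
  rfl

lemma act_one (a : Sph n) : act 1 a = a :=
  Subtype.ext ((act_coe (T := 1) injective_id a).trans (by simp [nz]))

lemma act_trans {T : CL n} (hT : Injective T) {B : Set (Sph n)} (hB : Transversal m B) :
    Transversal m (act T '' B) := fun V hV => by
  let e := LinearEquiv.ofInjectiveEndo (T : Euc n →ₗ[ℝ] Euc n) hT
  obtain ⟨a, ha, v, hv, h⟩ := hB (V.map (e.symm : Euc n →ₗ[ℝ] Euc n))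
    ((e.symm.finrank_map_eq V).trans hV)
  refine ⟨_, mem_image_of_mem _ ha, ?_⟩
  rw [act_coe hT, ← h]
  exact V.smul_mem _ ((show T (e.symm v) = v from e.apply_symm_apply v).symm ▸ hv)

lemma inj_of {T : CL n} (h : ‖T - 1‖ ≤ 1 / 2) : Injective T :=
  (injective_iff_map_eq_zero T).2 fun v hv => by
    have := half_le h v
    rw [hv, norm_zero] at this
    exact norm_le_zero_iff.1 (by linarith)

/-- the support function -/
noncomputable def hs (B : Set (Sph n)) (x : Sph n) : ℝ := 1 - infDist x B ^ 2 / 2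

@[fun_prop] lemma hs_cont (B : Set (Sph n)) : Continuous (hs B) := by unfold hs; fun_prop

lemma dist_sq_sph (x b : Sph n) : dist x b ^ 2 = 2 - 2 * inner ℝ (x : Euc n) (b : Euc n) := by
  rw [Subtype.dist_eq, dist_eq_norm, norm_sub_sq_real]; simp; ring

lemma le_hs {B : Set (Sph n)} {b : Sph n} (hb : b ∈ B) (x : Sph n) :
    inner ℝ (x : Euc n) (b : Euc n) ≤ hs B x := by
  have := pow_le_pow_left₀ infDist_nonneg (infDist_le_dist_of_mem (x := x) hb) 2
  rw [dist_sq_sph] at this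
  unfold hs; linarith

lemma hs_le {B : Set (Sph n)} (hB : B.Nonempty) {x : Sph n} {t : ℝ}
    (h : ∀ b ∈ B, inner ℝ (x : Euc n) (b : Euc n) ≤ t) : hs B x ≤ t := by
  have h1 : √(2 - 2 * t) ≤ infDist x B := (le_infDist hB).2 fun b hb =>
    sqrt_le_iff.2 ⟨dist_nonneg, by rw [dist_sq_sph]; linarith [h b hb]⟩
  have := (sqrt_le_iff.1 h1).2
  unfold hs; linarith

lemma inner_le_add (x : Sph n) (u v : Euc n) :
    inner ℝ (x : Euc n) u ≤ inner ℝ (x : Euc n) v + ‖u - v‖ := by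
  have := real_inner_le_norm (x : Euc n) (u - v)
  rw [inner_sub_right, norm_eq_of_mem_sphere] at this
  linarith

/-- admissible test functions -/
structure Psi (ψ ψ1 ψ2 : ℝ → ℝ) (Λ : ℝ) : Prop where
  h1 : ∀ y, HasDerivAt ψ (ψ1 y) y
  h2 : ∀ y, HasDerivAt ψ1 (ψ2 y) y
  h3 : Continuous ψ2
  c0 : ∀ y, 0 ≤ ψ1 y
  c1 : ∀ y, ψ1 y ≤ Λ
  c2 : ∀ y, |ψ2 y| ≤ Λ * ψ1 y

variable {ψ ψ1 ψ2 : ℝ → ℝ} {Λ : ℝ}

lemma Psi.cont (h : Psi ψ ψ1 ψ2 Λ) : Continuous ψ :=
  continuous_iff_continuousAt.2 fun y => (h.h1 y).continuousAt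

lemma Psi.nonneg (h : Psi ψ ψ1 ψ2 Λ) : 0 ≤ Λ := (h.c0 0).trans (h.c1 0)

lemma Psi.le (h : Psi ψ ψ1 ψ2 Λ) {a b η : ℝ} (η0 : 0 ≤ η) (hab : a ≤ b + η) :
    ψ a ≤ ψ b + Λ * η := by
  have d : Differentiable ℝ ψ := fun y => (h.h1 y).differentiableAt
  have h1 := monotone_of_deriv_nonneg d (fun y => by rw [(h.h1 y).deriv]; exact h.c0 y) hab
  have h2 := image_sub_le_mul_sub_of_deriv_le d (fun y => by rw [(h.h1 y).deriv]; exact h.c1 y)
    (le_add_of_nonneg_right η0 : b ≤ b + η)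
  rw [add_sub_cancel_left] at h2
  linarith

lemma Psi.int_le (h : Psi ψ ψ1 ψ2 Λ) {f g : Sph n → ℝ} (hf : Continuous f) (hg : Continuous g)
    {η : ℝ} (η0 : 0 ≤ η) (hfg : ∀ x, f x ≤ g x + η) :
    ∫ x, ψ (f x) ∂PP n ≤ ∫ x, ψ (g x) ∂PP n + Λ * η * (PP n).real univ := by
  have i1 := cont_int (PP n) (h.cont.comp hf)
  have i2 := cont_int (PP n) (h.cont.comp hg)
  rw [mul_comm _ ((PP n).real univ), ← smul_eq_mul, ← integral_const,
    ← integral_add (f := fun x => ψ (g x)) i2 (integrable_const _)]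
  exact integral_mono i1 (i2.add (integrable_const _)) fun x => h.le η0 (hfg x)

/-- the smoothed measure of a neighbourhood -/
noncomputable def JJ (ψ : ℝ → ℝ) (B : Set (Sph n)) : ℝ := ∫ x, ψ (hs B x) ∂PP n

@[fun_prop] lemma lse_cont {ι : Type} [Fintype ι] [Nonempty ι] (β : ℝ) :
    Continuous (lse β : (ι → ℝ) → ℝ) :=
  continuous_const.mul (Continuous.log (by fun_prop) fun y => (sum_exp_pos β y).ne')

lemma approx (h : Psi ψ ψ1 ψ2 Λ) {B : Set (Sph n)} (hB : IsCompact B) (h0 : B.Nonempty) (δ : ℝ)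
    (δ0 : 0 < δ) : ∃ g : CL n → ℝ, ContinuousOn g {T | ‖T - 1‖ ≤ 1 / 2} ∧
      ∀ T, ‖T - 1‖ ≤ 1 / 2 → |g T - JJ ψ (act T '' B)| ≤ δ ∧ ∃ d1 d2 : Fin n × Fin n → Unit → ℝ,
        (∀ k, Jet (fun s _ => g (T + tau s • El k T)) (d1 k) (d2 k)) ∧ ∑ k, d2 k () ≤ δ := by
  have Λ0 := h.nonneg
  have V0 : 0 ≤ (PP n).real univ := measureReal_nonneg
  set V := (PP n).real univ with hV
  set η := δ / (6 * (Λ * V + 1)) with hη
  have η0 : 0 < η := by positivity
  have η1 : Λ * (6 * η) * V ≤ δ := by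
    have : η * (6 * (Λ * V + 1)) = δ := div_mul_cancel₀ _ (by positivity)
    linarith
  obtain ⟨t, ht, tf, hc⟩ := finite_cover_balls_of_compact hB η0
  have := tf.fintype
  have : Nonempty t := by
    obtain ⟨a, ha, -⟩ := mem_iUnion₂.1 (hc h0.some_mem)
    exact ⟨⟨a, ha⟩⟩
  set β := Λ + 1 + 16 * Λ * Fintype.card t * V / δ with hβ
  have β0 : 0 < β := by positivity
  have β1 : 16 * Λ * Fintype.card t / β * V ≤ δ := by
    rw [div_mul_eq_mul_div, div_le_iff₀ β0, ← div_le_iff₀' δ0]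
    linarith
  have pc : Continuous (Phi β ψ : (t → Euc n) → ℝ) := by
    have := h.cont
    unfold Phi
    simpa only [Measure.restrict_univ] using continuous_parametric_integral_of_continuous
      (μ := PP n) (f := fun (u : t → Euc n) (x : Sph n) =>
        ψ (lse β fun a => inner ℝ (x : Euc n) (u a))) (by fun_prop) isCompact_univ
  refine ⟨fun T => Phi β ψ fun a : t => nz (T a.1), pc.comp_continuousOn (continuousOn_pi.2
    fun a => (ContinuousOn.inv₀ (by fun_prop) fun T hT =>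
      norm_ne_zero_iff.2 (map_ne (inj_of hT) _)).smul (by fun_prop)), fun T hT => ⟨?_, ?_⟩⟩
  · have hi := inj_of hT
    rw [abs_sub_le_iff, sub_le_iff_le_add', sub_le_iff_le_add']
    constructor
    · refine (h.int_le (by fun_prop) (hs_cont _) (η := Fintype.card t / β) (by positivity)
        fun x => lse_le β0 _ fun a => ?_).trans (add_le_add le_rfl (le_trans ?_ β1))
      · simpa only [act_coe hi] using le_hs (mem_image_of_mem (act T) (ht a.2)) x
      · rw [mul_assoc 16, mul_div_assoc, mul_div_assoc, mul_assoc 16]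
        have : 0 ≤ Λ * (Fintype.card t / β) * V := by positivity
        linarith
    · refine (h.int_le (hs_cont _) (by fun_prop) (η := 6 * η) (by positivity)
        fun x => hs_le (h0.image _) ?_).trans (add_le_add le_rfl η1)
      rintro _ ⟨b, hb, rfl⟩
      obtain ⟨a, ha, hab⟩ := mem_iUnion₂.1 (hc hb)
      refine (inner_le_add x _ (nz (T a))).trans (add_le_add
        (le_lse β0 (fun a : t => inner ℝ (x : Euc n) (nz (T a.1))) ⟨a, ha⟩) ?_)
      have a0 := norm_pos_iff.2 (map_ne hi a)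
      have a1 : ‖T a‖⁻¹ ≤ 2 := inv_le_of_inv_le₀ (by norm_num) (by simpa using half_le hT a)
      rw [act_coe hi, ← nz_smul (inv_pos.2 a0)]
      refine (nz_sub _ (norm_nz (map_ne hi a))).trans ?_
      rw [nz, ← smul_sub, ← map_sub, norm_smul, norm_inv, norm_norm]
      have a2 := (T.le_opNorm (b.1 - a.1)).trans (mul_le_mul (norm_le_of hT)
        (show ‖b.1 - a.1‖ ≤ η from (mem_ball_iff_norm.1 hab).le) (norm_nonneg _) (by norm_num))
      linarith [mul_le_mul a1 a2 (norm_nonneg _) (by norm_num)]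
  · obtain ⟨d1, d2, j, s⟩ := fin_super β0 (by
      have : 0 ≤ 16 * Λ * Fintype.card t * V / δ := by positivity
      linarith) h.h1 h.h2 h.h3 h.c0 h.c1 h.c2 (fun a : t => nz (T a.1))
      fun a => norm_nz (map_ne (inj_of hT) _)
    refine ⟨d1, d2, fun k => (j k).congr (fun s _ => ?_) (fun _ => rfl) fun _ => rfl, s.trans β1⟩
    congr 1
    ext1 a
    rw [← nz_smul (inv_pos.2 (norm_pos_iff.2 (map_ne (inj_of hT) a.1))) ((T + _) _)]
    simp only [add_apply, smul_apply, El_apply, smul_add, smul_smul, nz, PiLp.smul_apply,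
      smul_eq_mul, mul_left_comm]

/-- compact transversal sets minimising the smoothed measure -/
def IsMinimal (ψ : ℝ → ℝ) (m : ℕ) (B : Set (Sph n)) : Prop :=
  IsCompact B ∧ Transversal m B ∧ ∀ A : Set (Sph n), Transversal m A → JJ ψ B ≤ JJ ψ A

lemma trans_nonempty (hm : m ≤ n) {B : Set (Sph n)} (hB : Transversal m B) : B.Nonempty := by
  obtain ⟨f, hf⟩ := exists_linearIndependent_of_le_finrank (R := ℝ) (M := Euc n) (n := m)
    (by simpa using hm)
  obtain ⟨a, ha, -⟩ := hB (Submodule.span ℝ (range f)) (by simpa using finrank_span_eq_card hf)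
  exact ⟨a, ha⟩

theorem IsMinimal.act (h : Psi ψ ψ1 ψ2 Λ) (hm : m ≤ n) {B : Set (Sph n)} (hB : IsMinimal ψ m B)
    {M : CL n} (hM : QQ (M - 1) < 1 / 16) : IsMinimal ψ m (act M '' B) := by
  have hi : Injective M := inj_of (le_of_sq_le_sq (by linarith [op_le (M - 1)]) (by norm_num))
  refine ⟨hB.1.image (act_cont hi), act_trans hi hB.2.1, fun A hA => le_trans ?_ (hB.2.2 A hA)⟩
  exact hopf (f := fun T => JJ ψ (Pool.Agent.Lib.MP_229ad9_gt.act T '' B))
    (fun T hT => hB.2.2 _ (act_trans (inj_of hT) hB.2.1)) (by simp [act_one])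
    (approx h hB.1 (trans_nonempty hm hB.2.1)) hM

end Pool.Agent.Lib.MP_229ad9_gt
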