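import Pool.Agent.Lib.MP_229ad9_gt.XAct

set_option autoImplicit false
set_option linter.unusedSectionVars false

/-! Degenerating a minimiser to a half great sphere. -/

namespace Pool.Agent.Lib.MP_229ad9_gt

open MeasureTheory Set Real Metric Function TopologicalSpace Filter Topology Module

variable {n m k : ℕ} {ψ ψ1 ψ2 : ℝ → ℝ} {Λ : ℝ}

lemma exists_minimal (h : Psi ψ ψ1 ψ2 Λ) (hm : m ≤ n) {A : Set (Sph n)} (hA : Transversal m A) :
    ∃ B : Set (Sph n), IsMinimal ψ m B := by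
  let cl : ∀ A : Set (Sph n), Transversal m A → NonemptyCompacts (Sph n) := fun A hA =>
    ⟨⟨closure A, isClosed_closure.isCompact⟩, (trans_nonempty hm hA).closure⟩
  have ct : ∀ A hA, Transversal m (cl A hA : Set (Sph n)) := fun A hA V hV =>
    (hA V hV).imp fun a ha => ⟨subset_closure ha.1, ha.2⟩
  have c1 : IsClosed {K : NonemptyCompacts (Sph n) | Transversal m (K : Set (Sph n))} := by
    simp only [Transversal, ofPred_forall]
    exact isClosed_iInter fun V => isClosed_iInter fun _ =>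
      NonemptyCompacts.isClosed_inter_nonempty_of_isClosed
        (V.closed_of_finiteDimensional.preimage continuous_subtype_val)
  have c2 : Continuous fun K : NonemptyCompacts (Sph n) => JJ ψ (K : Set (Sph n)) := by
    have := (lipschitz_infDist (α := Sph n)).continuous.comp continuous_swap
    unfold JJ hs
    simpa only [Measure.restrict_univ] using continuous_parametric_integral_of_continuous
      (μ := PP n) (f := fun (K : NonemptyCompacts (Sph n)) (x : Sph n) =>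
        ψ (1 - infDist x K ^ 2 / 2))
      (h.cont.comp (continuous_const.sub ((this.pow 2).div_const 2))) isCompact_univ
  obtain ⟨K, hK, hmin⟩ := c1.isCompact.exists_isMinOn ⟨cl A hA, ct A hA⟩ c2.continuousOn
  refine ⟨K, K.isCompact, hK, fun A hA => (hmin (ct A hA)).trans_eq ?_⟩
  show JJ ψ (closure A) = _
  simp only [JJ, hs, infDist_closure]

lemma exists_flag (hm : m ≤ n) {B : Set (Sph n)} (hc : IsCompact B) (hB : Transversal m B) :
    ∃ (E : Submodule ℝ (Euc n)) (p : Euc n) (s δ : ℝ), n < finrank ℝ E + m ∧ p ∈ E ∧ ‖p‖ = 1 ∧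
      0 < s ∧ 0 < δ ∧ ∀ e ∈ E, ‖e‖ = 1 → ‖e - p‖ < δ →
        ∃ b ∈ B, ∃ κ, s ≤ κ ∧ E.starProjection b = κ • e := by
  classical
  have ex : ∃ l, Transversal l B := ⟨m, hB⟩
  obtain ⟨l, hl⟩ : ∃ l, Nat.find ex = l + 1 := Nat.exists_eq_succ_of_ne_zero fun h0 => by
    obtain ⟨a, -, ha⟩ := Nat.find_spec ex ⊥ (by simp [h0])
    exact ne_zero_of_mem_unit_sphere a ha
  have l1 : l + 1 ≤ m := hl ▸ Nat.find_min' ex hB
  have l2 : Transversal (l + 1) B := hl ▸ Nat.find_spec ex
  have l3 := Nat.find_min ex (m := l) (by omega)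
  simp only [Transversal, not_forall, not_exists, not_and] at l3
  obtain ⟨Z, hZ, l3⟩ := l3
  have P0 : ∀ b ∈ B, Zᗮ.starProjection (b : Euc n) ≠ 0 := fun b hb h => l3 b hb (by
    simpa using (Submodule.starProjection_apply_eq_zero_iff _).1 h)
  obtain ⟨s, s0, hs⟩ := hc.exists_forall_le' (f := fun b : Sph n => ‖Zᗮ.starProjection (b : Euc n)‖)
    (by fun_prop) fun b hb => norm_pos_iff.2 (P0 b hb)
  set C := (fun b : Sph n => nz (Zᗮ.starProjection (b : Euc n))) '' B with hC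
  have Cc : IsClosed C := (hc.image_of_continuousOn ((ContinuousOn.inv₀ (by fun_prop)
    fun b hb => norm_ne_zero_iff.2 (P0 b hb)).smul (by fun_prop))).isClosed
  have cov : ∀ e ∈ Zᗮ, ‖e‖ = 1 → e ∈ C ∨ -e ∈ C := fun e he e1 => by
    obtain ⟨a, ha, hV⟩ := l2 (Z ⊔ ℝ ∙ e) (by
      rw [Submodule.finrank_sup_span_singleton, hZ]
      intro h
      have := Submodule.inner_right_of_mem_orthogonal h he
      rw [real_inner_self_eq_norm_sq, e1] at this
      norm_num at this)
    obtain ⟨z, hz, _, hw, e2⟩ := Submodule.mem_sup.1 hV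
    obtain ⟨c, rfl⟩ := Submodule.mem_span_singleton.1 hw
    have e3 : Zᗮ.starProjection (a : Euc n) = c • e := by
      rw [← e2, map_add, map_smul, Submodule.starProjection_eq_self_iff.2 he,
        (Submodule.starProjection_apply_eq_zero_iff _).2 (Z.le_orthogonal_orthogonal hz), zero_add]
    rcases lt_trichotomy c 0 with h | h | h
    · refine .inr ⟨a, ha, ?_⟩
      simp only [e3]
      rw [← neg_neg (c • e), ← neg_smul, ← smul_neg, nz_smul (neg_pos.2 h)]
      simp [nz, e1]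
    · exact absurd (by rw [e3, h, zero_smul]) (P0 a ha)
    · refine .inl ⟨a, ha, ?_⟩
      simp only [e3]
      rw [nz_smul h]
      simp [nz, e1]
  obtain ⟨p, δ, p1, p2, δ0, hp⟩ : ∃ (p : Euc n) (δ : ℝ), p ∈ Zᗮ ∧ ‖p‖ = 1 ∧ 0 < δ ∧
      ∀ e ∈ Zᗮ, ‖e‖ = 1 → ‖e - p‖ < δ → e ∈ C := by
    let X := {e : Euc n // e ∈ Zᗮ ∧ ‖e‖ = 1}
    by_cases hi : (interior {x : X | -x.1 ∈ C}).Nonempty
    · obtain ⟨x, hx⟩ := hi
      obtain ⟨δ, δ0, hδ⟩ := Metric.mem_nhds_iff.1 (mem_interior_iff_mem_nhds.1 hx)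
      refine ⟨-x.1, δ, neg_mem x.2.1, by simpa using x.2.2, δ0, fun e he e1 h => ?_⟩
      have := @hδ ⟨-e, neg_mem he, by simpa using e1⟩ (by
        rw [mem_ball, Subtype.dist_eq, dist_eq_norm, ← norm_neg]
        simpa [add_comm] using h)
      simpa using this
    · obtain ⟨b, hb⟩ := trans_nonempty hm hB
      refine ⟨nz (Zᗮ.starProjection b), 1, Zᗮ.smul_mem _ (Zᗮ.starProjection_apply_mem _),
        norm_nz (P0 b hb), one_pos, fun e he e1 _ => ?_⟩
      have := (Cc.preimage (continuous_subtype_val : Continuous fun x : X => x.1)).interior_union_left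
        (t := {x : X | -x.1 ∈ C}) (a := ⟨e, he, e1⟩) (by
          rw [show Subtype.val ⁻¹' C ∪ {x : X | -x.1 ∈ C} = univ from
            eq_univ_of_forall fun x => cov x.1 x.2.1 x.2.2]
          simp)
      exact this.resolve_right fun h => hi ⟨_, h⟩
  refine ⟨Zᗮ, p, s, δ, ?_, p1, p2, s0, δ0, fun e he e1 h => ?_⟩
  · have := Z.finrank_add_finrank_orthogonal
    simp only [finrank_euclideanSpace, Fintype.card_fin] at this
    omega
  · obtain ⟨b, hb, e2⟩ := hp e he e1 h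
    exact ⟨b, hb, _, hs b hb, by rw [← e2, smul_nz]⟩

/-- contraction by `θ` along `p` and by `θ ^ 2` along the orthogonal complement of `E` -/
noncomputable def TT (E : Submodule ℝ (Euc n)) (p : Euc n) (θ : ℝ) : CL n :=
  E.starProjection - (1 - θ) • (innerSL ℝ p).smulRight p + θ ^ 2 • (1 - E.starProjection)

lemma TT_apply (E : Submodule ℝ (Euc n)) (p : Euc n) (θ : ℝ) (v : Euc n) : TT E p θ v =
    E.starProjection v - ((1 - θ) * inner ℝ p v) • p + θ ^ 2 • (v - E.starProjection v) := by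
  simp [TT, smul_smul]

lemma inner_proj {E : Submodule ℝ (Euc n)} {p : Euc n} (hp : p ∈ E) (v : Euc n) :
    inner ℝ p (E.starProjection v) = inner ℝ p v := by
  rw [← Submodule.inner_starProjection_left_eq_right, Submodule.starProjection_eq_self_iff.2 hp]

lemma TT_mul {E : Submodule ℝ (Euc n)} {p : Euc n} (hp : p ∈ E) (p1 : ‖p‖ = 1) (θ θ' : ℝ) :
    TT E p θ * TT E p θ' = TT E p (θ * θ') := by
  refine ContinuousLinearMap.ext fun v => ?_
  have e1 : E.starProjection (TT E p θ' v) =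
      E.starProjection v - ((1 - θ') * inner ℝ p v) • p := by
    simp only [TT_apply, map_add, map_sub, map_smul, Submodule.starProjection_eq_self_iff.2 hp,
      Submodule.starProjection_eq_self_iff.2 (E.starProjection_apply_mem v), sub_self, smul_zero,
      add_zero]
  have e2 : inner ℝ p (TT E p θ' v) = θ' * inner ℝ p v := by
    rw [← inner_proj hp, e1, inner_sub_right, inner_smul_right, inner_proj hp,
      real_inner_self_eq_norm_sq, p1]
    ring
  show TT E p θ (TT E p θ' v) = _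
  rw [TT_apply E p θ, e1, e2, TT_apply, TT_apply]
  module

lemma TT_one (E : Submodule ℝ (Euc n)) (p : Euc n) : TT E p 1 = 1 :=
  ContinuousLinearMap.ext fun v => by simp [TT_apply]

lemma TT_near {E : Submodule ℝ (Euc n)} {p : Euc n} {s δ : ℝ} {B : Set (Sph n)} (hp : p ∈ E)
    (p1 : ‖p‖ = 1) (s0 : 0 < s) (h : ∀ e ∈ E, ‖e‖ = 1 → ‖e - p‖ < δ →
      ∃ b ∈ B, ∃ κ, s ≤ κ ∧ E.starProjection b = κ • e) {η l : ℝ} (η0 : 0 < η) (η1 : η ≤ 1)
    (l0 : 0 < l) (l1 : l ≤ 1) (l2 : 2 * (l / η) < δ) {ω : Euc n} (hω : ω ∈ E) (ω1 : ‖ω‖ = 1)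
    (ω0 : 0 ≤ inner ℝ p ω) : ∃ b ∈ B, ‖nz (TT E p l b) - ω‖ ≤ 2 * (η + 3 * l / s) := by
  have pp : inner ℝ p p = 1 := by rw [real_inner_self_eq_norm_sq, p1]; norm_num
  have c1 : inner ℝ p ω ≤ 1 := by simpa [p1, ω1] using real_inner_le_norm p ω
  set c := inner ℝ p ω with hc
  have w1 : ‖ω - c • p‖ ≤ 1 := le_of_sq_le_sq (by
    rw [norm_sub_sq_real, inner_smul_right, real_inner_comm, ← hc, norm_smul, p1, ω1, mul_one,
      Real.norm_eq_abs, sq_abs]
    nlinarith) zero_le_one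
  set e := (c + η) • p + l • (ω - c • p) with he
  have e1 : inner ℝ p e = c + η := by
    simp only [he, inner_add_right, inner_sub_right, inner_smul_right, pp, ← hc]; ring
  have c0 : 0 < c + η := by linarith
  have e0 : e ≠ 0 := fun h => by rw [h, inner_zero_right] at e1; linarith
  have e2 : ‖e‖ ≤ 3 := (norm_add_le _ _).trans (by
    rw [norm_smul, norm_smul, p1, Real.norm_eq_abs, Real.norm_eq_abs, abs_of_pos c0, abs_of_pos l0]
    nlinarith)
  obtain ⟨b, hb, κ, hκ, e3⟩ := h (nz e) (E.smul_mem _ (add_mem (E.smul_mem _ hp)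
    (E.smul_mem _ (sub_mem hω (E.smul_mem _ hp))))) (norm_nz e0) (by
      rw [← nz_smul (inv_pos.2 c0)]
      refine (nz_sub _ p1).trans_lt (lt_of_le_of_lt (mul_le_mul_of_nonneg_left ?_ zero_le_two) l2)
      rw [he, smul_add, smul_smul, inv_mul_cancel₀ c0.ne', one_smul, add_sub_cancel_left,
        smul_smul, norm_smul, Real.norm_eq_abs, abs_of_pos (by positivity), ← div_eq_inv_mul]
      exact (mul_le_of_le_one_right (by positivity) w1).trans
        (div_le_div_of_nonneg_left l0.le η0 (by linarith)))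
  refine ⟨b, hb, ?_⟩
  have n0 := norm_pos_iff.2 e0
  have κ0 : 0 < κ * ‖e‖⁻¹ := by have := s0.trans_le hκ; positivity
  rw [nz, smul_smul] at e3
  set r := κ * ‖e‖⁻¹ with hr
  have e4 : TT E p l b = (r * l) • (ω + (η • p + (l / r) • (b.1 - E.starProjection b))) := by
    rw [TT_apply, ← inner_proj hp]
    nth_rw 1 2 [e3]
    rw [inner_smul_right, e1, he, smul_add (r * l), smul_add (r * l), smul_smul _ (l / r),
      show r * l * (l / r) = l ^ 2 by field_simp]
    module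
  rw [e4, nz_smul (by positivity)]
  refine (nz_sub _ ω1).trans (mul_le_mul_of_nonneg_left ?_ zero_le_two)
  rw [add_sub_cancel_left]
  refine (norm_add_le _ _).trans (add_le_add (by simp [norm_smul, p1, abs_of_pos η0]) ?_)
  have b1 : ‖b.1 - E.starProjection b‖ ≤ 1 := by
    rw [← Submodule.starProjection_orthogonal_val]
    simpa using Eᗮ.norm_starProjection_apply_le b.1
  rw [norm_smul, Real.norm_eq_abs, abs_of_pos (by positivity)]
  refine (mul_le_of_le_one_right (by positivity) b1).trans ?_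
  rw [div_le_div_iff₀ κ0 s0, hr, ← div_eq_mul_inv, ← mul_div_assoc, le_div_iff₀ n0]
  nlinarith [mul_le_mul hκ e2 n0.le (s0.le.trans hκ)]

lemma exists_frame (hk : k < n) {E : Submodule ℝ (Euc n)} (hE : k < finrank ℝ E) {p : Euc n}
    (hp : p ∈ E) (p1 : ‖p‖ = 1) : ∃ U : Euc n ≃ₗᵢ[ℝ] Euc n,
      ∀ x ∈ half n k, U x.1 ∈ E ∧ 0 ≤ inner ℝ p (U x.1) := by
  obtain ⟨b, hb⟩ := Orthonormal.exists_orthonormalBasis_extension_of_card_eq (𝕜 := ℝ) (E := E)
    (ι := Fin (finrank ℝ E)) (by simp) (v := fun _ => ⟨p, hp⟩) (s := {⟨k, hE⟩})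
    ⟨fun _ => p1, fun i j h => absurd (Subsingleton.elim i j) h⟩
  obtain ⟨c, hc⟩ := Orthonormal.exists_orthonormalBasis_extension_of_card_eq (𝕜 := ℝ) (E := Euc n)
    (ι := Fin n) (by simp) (s := {i | i.1 ≤ k})
    (v := fun i => if h : i.1 ≤ k then (b ⟨i, h.trans_lt hE⟩ : Euc n) else 0) (by
      have := (b.orthonormal.comp (fun i : {i : Fin n | i.1 ≤ k} => ⟨i.1, i.2.trans_lt hE⟩)
        fun i j h => Subtype.ext (Fin.ext (Fin.mk.inj h))).comp_linearIsometry E.subtypeₗᵢ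
      refine (congrArg _ (funext fun i => ?_)).mp this
      simp [Set.domRestrict, show i.1.1 ≤ k from i.2])
  refine ⟨c.repr.symm, fun x hx => ⟨?_, ?_⟩⟩
  · rw [← c.sum_repr_symm]
    refine Submodule.sum_mem _ fun i _ => ?_
    by_cases h : i.1 ≤ k
    · rw [hc i h, dif_pos h]
      exact E.smul_mem _ (b _).2
    · rw [(hx i).1 (not_le.1 h), zero_smul]
      exact zero_mem _
  · have : c ⟨k, hk⟩ = p := by
      rw [hc ⟨k, hk⟩ (le_refl k), dif_pos le_rfl, hb _ rfl]
    rw [← this, ← c.repr_apply_apply, LinearIsometryEquiv.apply_symm_apply]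
    exact (hx _).2 rfl

lemma half_ne (hk : k < n) : (half n k).Nonempty :=
  ⟨⟨ee ⟨k, hk⟩, by simp⟩, fun i => ⟨fun h => by
    simp [Fin.ext_iff, h.ne'], fun h => by simp [Fin.ext_iff, h]⟩⟩

theorem JJ_half (h : Psi ψ ψ1 ψ2 Λ) (hm : 1 ≤ m) (hn : m ≤ n) {A : Set (Sph n)}
    (hA : Transversal m A) : JJ ψ (half n (n - m)) ≤ JJ ψ A := by
  obtain ⟨B, hB⟩ := exists_minimal h hn hA
  refine le_trans ?_ (hB.2.2 A hA)
  obtain ⟨E, p, s, δ, hE, hp, p1, s0, δ0, hb⟩ := exists_flag hn hB.1 hB.2.1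
  obtain ⟨U, hU⟩ := exists_frame (k := n - m) (by omega) (by omega) hp p1
  obtain ⟨θ, ⟨θ0, θ1⟩, hθ⟩ : ∃ θ ∈ Ioo (0 : ℝ) 1, QQ (TT E p θ - 1) < 1 / 16 := by
    have c : Continuous fun θ => QQ (TT E p θ - 1) := by unfold TT; fun_prop
    exact ((show ∀ᶠ θ in 𝓝[<] (1 : ℝ), θ ∈ Ioo 0 1 from Ioo_mem_nhdsLT one_pos).and
      (nhdsWithin_le_nhds (c.continuousAt.eventually (gt_mem_nhds
        (by simp [TT_one, QQ]))))).exists
  have hi : Injective (TT E p θ) :=
    inj_of (le_of_sq_le_sq (by linarith [op_le (TT E p θ - 1)]) (by norm_num))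
  have it : ∀ j : ℕ, Injective (TT E p (θ ^ j)) ∧ IsMinimal ψ m (act (TT E p (θ ^ j)) '' B) := by
    intro j
    induction j with
    | zero => simpa [TT_one, act_one] using ⟨injective_id, hB⟩
    | succ j ih =>
      rw [pow_succ', ← TT_mul hp p1]
      refine ⟨hi.comp ih.1, ?_⟩
      simpa only [image_image, act_act hi ih.1] using ih.2.act h hn hθ
  have V0 : 0 ≤ Λ * (PP n).real univ := mul_nonneg h.nonneg measureReal_nonneg
  refine le_of_forall_pos_le_add fun ε ε0 => ?_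
  obtain ⟨η, η0, η1, η2⟩ : ∃ η, 0 < η ∧ η ≤ 1 ∧ Λ * (4 * η) * (PP n).real univ ≤ ε := by
    refine ⟨min 1 (ε / (4 * (Λ * (PP n).real univ + 1))), by positivity, min_le_left _ _, ?_⟩
    have := (le_div_iff₀ (by positivity)).1
      (min_le_right 1 (ε / (4 * (Λ * (PP n).real univ + 1))))
    have : 0 < min 1 (ε / (4 * (Λ * (PP n).real univ + 1))) := by positivity
    linarith
  obtain ⟨j, hj⟩ := exists_pow_lt_of_lt_one (show 0 < min (δ * η / 2) (η * s / 3) by positivity) θ1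
  rw [lt_min_iff] at hj
  rw [JJ, ← int_iso U.symm]
  refine (h.int_le (by fun_prop) (hs_cont (act (TT E p (θ ^ j)) '' B)) (η := 4 * η)
    (by positivity) fun x => hs_le (half_ne (by omega)) fun y hy => ?_).trans
    (add_le_add ((it j).2.2.2 B hB.2.1) η2)
  obtain ⟨b, hb, e⟩ := TT_near hp p1 s0 hb η0 η1 (pow_pos θ0 j) (pow_le_one₀ θ0.le θ1.le)
    (by rw [← mul_div_assoc, div_lt_iff₀ η0]; linarith [hj.1]) (hU y hy).1 (by simp) (hU y hy).2
  rw [sm_coe, ← U.inner_map_map, U.apply_symm_apply]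
  refine (inner_le_add x _ (nz (TT E p (θ ^ j) b))).trans (add_le_add ?_ ?_)
  · simpa only [act_coe (it j).1] using le_hs (mem_image_of_mem (act (TT E p (θ ^ j))) hb) x
  · have : 3 * θ ^ j / s ≤ η := (div_le_iff₀ s0).2 (by linarith [hj.2])
    rw [norm_sub_rev]
    linarith

end Pool.Agent.Lib.MP_229ad9_gt
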