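import Pool.Agent.Lib.MP_229ad9_gt.XSoft
import Pool.Agent.Lib.MP_229ad9_gt.Defs

set_option autoImplicit false
set_option linter.unusedSectionVars false

/-! Superharmonicity, up to a small error, for finite configurations of points. -/

namespace Pool.Agent.Lib.MP_229ad9_gt

open MeasureTheory Set Real Metric Pointwise

variable {n : ℕ} {ι : Type} [Fintype ι] [Nonempty ι]

/-- surface measure -/
noncomputable abbrev PP (n : ℕ) : Measure (Sph n) := (volume : Measure (Euc n)).toSphere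

/-- basis vectors -/
noncomputable abbrev ee (i : Fin n) : Euc n := EuclideanSpace.single i 1

/-- normalisation -/
noncomputable def nz (v : Euc n) : Euc n := ‖v‖⁻¹ • v

/-- an isometry of the sphere -/
noncomputable def sm (U : Euc n ≃ₗᵢ[ℝ] Euc n) : Sph n ≃ₜ Sph n :=
  U.toHomeomorph.subtype fun x => by simp

lemma sm_coe (U : Euc n ≃ₗᵢ[ℝ] Euc n) (x : Sph n) : (sm U x : Euc n) = U x := rfl

lemma sm_mp (U : Euc n ≃ₗᵢ[ℝ] Euc n) : MeasurePreserving (sm U) (PP n) (PP n) := by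
  refine ⟨(sm U).measurable, Measure.ext fun s hs => ?_⟩
  have e : Ioo (0 : ℝ) 1 • (Subtype.val '' (sm U ⁻¹' s)) =
      U ⁻¹' (Ioo (0 : ℝ) 1 • (Subtype.val '' s)) := by
    ext v
    simp only [mem_preimage, mem_smul]
    constructor
    · rintro ⟨t, ht, _, ⟨x, hx, rfl⟩, rfl⟩
      exact ⟨t, ht, _, ⟨_, hx, rfl⟩, by simp [sm_coe]⟩
    · rintro ⟨t, ht, _, ⟨x, hx, rfl⟩, e⟩
      refine ⟨t, ht, _, ⟨(sm U).symm x, by simpa using hx, rfl⟩, U.injective ?_⟩
      rw [map_smul, ← sm_coe, Homeomorph.apply_symm_apply, e]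
  rw [Measure.map_apply (sm U).measurable hs, Measure.toSphere_apply' _ ((sm U).measurable hs),
    Measure.toSphere_apply' _ hs, e]
  exact congrArg _ (U.measurePreserving.measure_preimage_emb U.toHomeomorph.measurableEmbedding _)

lemma int_iso (U : Euc n ≃ₗᵢ[ℝ] Euc n) (g : Sph n → ℝ) :
    ∫ x, g (sm U x) ∂PP n = ∫ x, g x ∂PP n :=
  (sm_mp U).integral_comp (sm U).measurableEmbedding g

/-- the smoothed functional of a finite configuration -/
noncomputable def Phi (β : ℝ) (ψ : ℝ → ℝ) (u : ι → Euc n) : ℝ :=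
  ∫ x : Sph n, ψ (lse β fun a => inner ℝ (x : Euc n) (u a)) ∂PP n

lemma Phi_iso (β : ℝ) (ψ : ℝ → ℝ) (u : ι → Euc n) (U : Euc n ≃ₗᵢ[ℝ] Euc n) :
    (Phi β ψ fun a => U (u a)) = Phi β ψ u := by
  rw [Phi, ← int_iso U]
  simp only [sm_coe, LinearIsometryEquiv.inner_map_map, Phi]

lemma inner_ee (x : Euc n) (i : Fin n) : inner ℝ x (ee i) = x i := by
  simp [EuclideanSpace.inner_single_right]

lemma inner_sum (x a : Euc n) : inner ℝ x a = ∑ i, x i * a i := by
  simp [PiLp.inner_apply, mul_comm]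

lemma abs_coord (a : Euc n) (i : Fin n) : |a i| ≤ ‖a‖ := PiLp.norm_apply_le a i

/-- rotation in a coordinate plane -/
noncomputable def rotL (i j : Fin n) (s : ℝ) : Euc n →ₗ[ℝ] Euc n where
  toFun v := v + ((cos s - 1) * v i + sin s * v j) • ee i + ((cos s - 1) * v j - sin s * v i) • ee j
  map_add' v w := by simp only [PiLp.add_apply]; module
  map_smul' c v := by simp only [PiLp.smul_apply, smul_eq_mul, RingHom.id_apply]; module

lemma inner_rotL (i j : Fin n) (s : ℝ) (x v : Euc n) : inner ℝ x (rotL i j s v) =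
    inner ℝ x v + ((x i * v i + x j * v j) * (cos s + -1) + (x i * v j - x j * v i) * sin s) := by
  show inner ℝ x (v + _ + _) = _
  simp only [inner_add_right, inner_smul_right, inner_ee]
  ring

lemma Phi_rot {i j : Fin n} (h : i ≠ j) (s β : ℝ) (ψ : ℝ → ℝ) (u : ι → Euc n) :
    (Phi β ψ fun a => rotL i j s (u a)) = Phi β ψ u := by
  refine Phi_iso β ψ u (((rotL i j s).isometryOfInner fun v w => ?_).toLinearIsometryEquiv rfl)
  have e1 : rotL i j s v i = cos s * v i + sin s * v j := by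
    show (v + _ + _ : Euc n) i = _
    simp [h]; ring
  have e2 : rotL i j s v j = cos s * v j - sin s * v i := by
    show (v + _ + _ : Euc n) j = _
    simp [h.symm]; ring
  rw [inner_rotL, e1, e2, real_inner_comm, inner_rotL, real_inner_comm]
  linear_combination (v i * w i + v j * w j) * sin_sq_add_cos_sq s

@[fun_prop] lemma cont_coord (i : Fin n) : Continuous fun x : Sph n => (x : Euc n) i := by
  fun_prop

lemma jet_rot (i j : Fin n) (a : Euc n) :
    Jet (fun s (x : Sph n) => inner ℝ (x : Euc n) (rotL i j s a))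
      (fun x => x.1 i * a j - x.1 j * a i) fun x => -(x.1 i * a i + x.1 j * a j) :=
  ((Jet.const (c := fun x : Sph n => inner ℝ (x : Euc n) a) (by fun_prop)).add
    (((Jet.cos.add (Jet.const (continuous_const (y := -1)))).cmul
      (c := fun x : Sph n => x.1 i * a i + x.1 j * a j) (by fun_prop)).add
    (Jet.sin.cmul (c := fun x : Sph n => x.1 i * a j - x.1 j * a i) (by fun_prop)))).congr
    (fun s x => (inner_rotL i j s x a).symm) (by simp) (by simp)

lemma jet_line (i j : Fin n) {a : Euc n} (ha : ‖a‖ = 1) :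
    Jet (fun s (x : Sph n) => inner ℝ (x : Euc n) (nz (a + (tau s * a j) • ee i)))
      (fun x => (x.1 i - inner ℝ x.1 a * a i) * a j) fun x =>
      -2 * (x.1 i * a i * a j ^ 2) + inner ℝ x.1 a * (3 * (a i ^ 2 * a j ^ 2) - a j ^ 2) := by
  have n0 : ∀ s, 0 < ‖a + (tau s * a j) • ee i‖ := fun s => by
    have h1 := norm_sub_norm_le a (-((tau s * a j) • ee i))
    rw [sub_neg_eq_add, norm_neg, norm_smul, ha] at h1
    have h2 := mul_le_mul (abs_tau s) ((abs_coord a j).trans ha.le) (abs_nonneg _) (by norm_num)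
    simp only [Real.norm_eq_abs, abs_mul, PiLp.norm_single, abs_one] at h1
    linarith
  have q : ∀ s, 1 + (2 * (a i * a j) * tau s + a j ^ 2 * (tau s * tau s)) =
      ‖a + (tau s * a j) • ee i‖ ^ 2 := fun s => by
    rw [norm_add_sq_real, inner_smul_right, inner_ee, norm_smul, ha, mul_pow]
    simp only [Real.norm_eq_abs, sq_abs, PiLp.norm_single, abs_one]
    ring
  have j1 := (((Jet.const (X := Sph n) (continuous_const (y := 1))).add
    ((Jet.tau.cmul (continuous_const (y := 2 * (a i * a j)))).add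
      ((Jet.tau.mul Jet.tau).cmul (continuous_const (y := a j ^ 2))))).log
    fun s _ => (q s).symm ▸ pow_pos (n0 s) 2).cmul (continuous_const (y := -(1 / 2)))
  refine (j1.exp.mul ((Jet.const (c := fun x : Sph n => inner ℝ (x : Euc n) a) (by fun_prop)).add
    (Jet.tau.cmul (c := fun x : Sph n => a j * x.1 i) (by fun_prop)))).congr (fun s x => ?_)
    (fun x => ?_) fun x => ?_
  · rw [q, nz, inner_smul_right, inner_add_right, inner_smul_right, inner_ee, log_pow,
      show -(1 / 2) * ((2 : ℕ) * log ‖a + (tau s * a j) • ee i‖) =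
        -log ‖a + (tau s * a j) • ee i‖ by push_cast; ring, exp_neg, exp_log (n0 s)]
    ring
  · simp [tau_zero]; ring
  · simp [tau_zero]; ring

lemma sum2 (f g : Fin n → ℝ) : ∑ k : Fin n × Fin n, f k.1 * g k.2 = (∑ i, f i) * ∑ i, g i := by
  rw [Fintype.sum_prod_type' fun i j => f i * g j, Finset.sum_mul_sum]

lemma gam (x a b : Euc n) (hx : ‖x‖ = 1) : ∑ k : Fin n × Fin n,
    ((x k.1 - inner ℝ x a * a k.1) * a k.2 * ((x k.1 - inner ℝ x b * b k.1) * b k.2) -
      1 / 2 * ((x k.1 * a k.2 - x k.2 * a k.1) * (x k.1 * b k.2 - x k.2 * b k.1))) =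
    (inner ℝ x a - inner ℝ a b * inner ℝ x b) * (inner ℝ x b - inner ℝ a b * inner ℝ x a) := by
  have x1 : ∑ i, x i * x i = 1 := by rw [← inner_sum, real_inner_self_eq_norm_sq, hx]; norm_num
  have e : ∀ k : Fin n × Fin n,
      (x k.1 - inner ℝ x a * a k.1) * a k.2 * ((x k.1 - inner ℝ x b * b k.1) * b k.2) -
        1 / 2 * ((x k.1 * a k.2 - x k.2 * a k.1) * (x k.1 * b k.2 - x k.2 * b k.1)) =
      1 / 2 * (x k.1 * x k.1 * (a k.2 * b k.2)) - inner ℝ x b * (x k.1 * b k.1 * (a k.2 * b k.2)) -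
        inner ℝ x a * (x k.1 * a k.1 * (a k.2 * b k.2)) +
        inner ℝ x a * inner ℝ x b * (a k.1 * b k.1 * (a k.2 * b k.2)) +
        1 / 2 * (x k.1 * b k.1 * (x k.2 * a k.2)) + 1 / 2 * (x k.1 * a k.1 * (x k.2 * b k.2)) -
        1 / 2 * (a k.1 * b k.1 * (x k.2 * x k.2)) := fun k => by ring
  simp only [e, Finset.sum_add_distrib, Finset.sum_sub_distrib, ← Finset.mul_sum]
  rw [sum2 (fun i => x i * x i) fun i => a i * b i, sum2 (fun i => x i * b i) fun i => a i * b i,
    sum2 (fun i => x i * a i) fun i => a i * b i, sum2 (fun i => a i * b i) fun i => a i * b i,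
    sum2 (fun i => x i * b i) fun i => x i * a i, sum2 (fun i => x i * a i) fun i => x i * b i,
    sum2 (fun i => a i * b i) fun i => x i * x i, x1, ← inner_sum, ← inner_sum, ← inner_sum]
  ring

lemma drift (x a : Euc n) (ha : ‖a‖ = 1) : ∑ k : Fin n × Fin n,
    (-2 * (x k.1 * a k.1 * a k.2 ^ 2) + inner ℝ x a * (3 * (a k.1 ^ 2 * a k.2 ^ 2) - a k.2 ^ 2) -
      1 / 2 * if k.1 = k.2 then 0 else -(x k.1 * a k.1 + x k.2 * a k.2)) = 0 := by
  have a1 : ∑ i, a i ^ 2 = 1 := by rw [← EuclideanSpace.real_norm_sq_eq, ha]; norm_num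
  have e : ∀ k : Fin n × Fin n,
      (-2 * (x k.1 * a k.1 * a k.2 ^ 2) + inner ℝ x a * (3 * (a k.1 ^ 2 * a k.2 ^ 2) - a k.2 ^ 2) -
        1 / 2 * if k.1 = k.2 then 0 else -(x k.1 * a k.1 + x k.2 * a k.2)) =
      -2 * (x k.1 * a k.1 * a k.2 ^ 2) + 3 * inner ℝ x a * (a k.1 ^ 2 * a k.2 ^ 2) -
        inner ℝ x a * a k.2 ^ 2 + 1 / 2 * (x k.1 * a k.1) + 1 / 2 * (x k.2 * a k.2) -
        if k.1 = k.2 then x k.1 * a k.1 else 0 := fun k => by
    split_ifs with h
    · rw [← h]; ring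
    · ring
  simp only [e, Finset.sum_add_distrib, Finset.sum_sub_distrib, ← Finset.mul_sum]
  have s1 := sum2 (fun _ => 1) fun i => a i ^ 2
  have s2 := sum2 (fun i => x i * a i) fun _ => 1
  have s3 := sum2 (fun _ => 1) fun i => x i * a i
  simp only [one_mul, mul_one] at s1 s2 s3
  rw [sum2 (fun i => x i * a i) fun i => a i ^ 2, sum2 (fun i => a i ^ 2) fun i => a i ^ 2,
    s1, s2, s3, Fintype.sum_prod_type]
  simp only [Finset.sum_ite_eq, Finset.mem_univ, if_true, a1, ← inner_sum]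
  ring

lemma Jet.eq_zero {f : ℝ → Unit → ℝ} {d1 d2 : Unit → ℝ} (h : Jet f d1 d2) {c : ℝ}
    (hc : ∀ s, f s () = c) : d2 () = 0 := by
  refine le_antisymm ?_ (h.nonneg () (by simp only [hc]; exact isLocalMin_const))
  have := (h.cmul (continuous_const (y := -1))).nonneg () (by simp only [hc]; exact isLocalMin_const)
  linarith

theorem fin_super {β Λ : ℝ} (hβ : 0 < β) (hΛ : Λ ≤ β) {ψ ψ1 ψ2 : ℝ → ℝ}
    (h1 : ∀ y, HasDerivAt ψ (ψ1 y) y) (h2 : ∀ y, HasDerivAt ψ1 (ψ2 y) y) (h3 : Continuous ψ2)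
    (c0 : ∀ y, 0 ≤ ψ1 y) (cΛ : ∀ y, ψ1 y ≤ Λ) (cc : ∀ y, |ψ2 y| ≤ Λ * ψ1 y) (a : ι → Euc n)
    (ha : ∀ i, ‖a i‖ = 1) : ∃ d1 d2 : Fin n × Fin n → Unit → ℝ,
      (∀ k, Jet (fun s _ => Phi β ψ fun i => nz (a i + (tau s * a i k.2) • ee k.1)) (d1 k) (d2 k)) ∧
      ∑ k, d2 k () ≤ 16 * Λ * Fintype.card ι / β * (PP n).real univ := by
  choose d1 hd using fun k : Fin n × Fin n => jet_lse (fun i => jet_line k.1 k.2 (ha i)) hβ h1 h2 h3
  have z : ∀ i (k : Fin n × Fin n), nz (a i + (tau 0 * a i k.2) • ee k.1) = a i := fun i k => by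
    simp [tau_zero, nz, ha]
  simp only [z] at hd
  refine ⟨_, _, fun k => (hd k).int (PP n), ?_⟩
  set y : Sph n → ι → ℝ := fun x i => inner ℝ (x : Euc n) (a i) with hy
  set R : Fin n × Fin n → Sph n → ℝ := fun k x => G2 β (ψ1 (lse β (y x))) (ψ2 (lse β (y x))) (y x)
    (fun i => x.1 k.1 * a i k.2 - x.1 k.2 * a i k.1)
    fun i => if k.1 = k.2 then 0 else -(x.1 k.1 * a i k.1 + x.1 k.2 * a i k.2) with hR
  have r : ∀ k, Continuous (R k) ∧ ∫ x, R k x ∂PP n = 0 := fun k => by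
    by_cases h : k.1 = k.2
    · have : R k = fun _ => 0 := by ext x; simp [hR, h, G2]
      rw [this]; exact ⟨continuous_const, by simp⟩
    obtain ⟨e1, j⟩ := jet_lse (fun i => jet_rot k.1 k.2 (a i)) hβ h1 h2 h3
    have z' : ∀ (x : Sph n) i, inner ℝ (x : Euc n) (rotL k.1 k.2 0 (a i)) = y x i := fun x i => by
      simp [inner_rotL, hy]
    simp only [z'] at j
    simp only [hR, if_neg h]
    exact ⟨j.cont, (j.int (PP n)).eq_zero fun s => Phi_rot h s β ψ a⟩
  have i1 := fun k => cont_int (PP n) (hd k).cont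
  have i2 := fun k => (cont_int (PP n) (r k).1).const_mul (1 / 2)
  refine le_trans (le_of_eq (Finset.sum_congr rfl fun k _ => (sub_zero _).symm.trans
    (congrArg _ (show 0 = ∫ x, 1 / 2 * R k x ∂PP n by
      rw [integral_const_mul, (r k).2, mul_zero])))) ?_
  simp only [← integral_sub (i1 _) (i2 _)]
  refine le_trans (integral_finsetSum _ fun k _ => (i1 k).sub (i2 k)).ge ?_
  rw [mul_comm, ← smul_eq_mul, ← integral_const]
  refine integral_mono (integrable_finsetSum _ fun k _ => (i1 k).sub (i2 k)) (integrable_const _)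
    fun x => sum_G2 hβ hΛ (c0 _) (cΛ _) (cc _) _ _ _ _ _ (fun i => ?_) (fun i => drift _ _ (ha i))
      fun i l => ?_
  · have := gam x.1 (a i) (a i) (by simp)
    rw [real_inner_self_eq_norm_sq, ha] at this
    simpa only [sq, one_mul, sub_self, mul_zero] using this
  · refine le_trans ?_ (gam x.1 (a i) (a l) (by simp)).ge
    have := abs_real_inner_le_norm (a i) (a l)
    rw [ha, ha, mul_one, abs_le] at this
    set r := inner ℝ (a i) (a l)
    set s := inner ℝ x.1 (a i)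
    set t := inner ℝ x.1 (a l)
    nlinarith [mul_nonneg (sub_nonneg.2 this.2) (sq_nonneg (s - t)),
      mul_nonneg (sq_nonneg (1 - r)) (sq_nonneg (s + t)),
      mul_nonneg (mul_nonneg (show 0 ≤ 1 + r by linarith) (show 0 ≤ 3 - r by linarith))
        (sq_nonneg (s - t))]

end Pool.Agent.Lib.MP_229ad9_gt
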