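import Pool.Agent.Lib.MP_229ad9_gt.XFin

set_option autoImplicit false
set_option linter.unusedSectionVars false

/-! A strong minimum principle near the identity of the general linear group. -/

namespace Pool.Agent.Lib.MP_229ad9_gt

open Set Real Metric Filter Topology

variable {n : ℕ}

/-- linear operators -/
abbrev CL (n : ℕ) : Type := Euc n →L[ℝ] Euc n

/-- an elementary matrix times `T` -/
noncomputable def El (k : Fin n × Fin n) (T : CL n) : CL n :=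
  ((EuclideanSpace.proj k.2 : Euc n →L[ℝ] ℝ).comp T).smulRight (ee k.1)

lemma El_apply (k : Fin n × Fin n) (T : CL n) (v : Euc n) : El k T v = T v k.2 • ee k.1 := rfl

/-- squared Hilbert-Schmidt norm -/
noncomputable def QQ (D : CL n) : ℝ := ∑ l, ‖D (ee l)‖ ^ 2

@[fun_prop] lemma QQ_cont : Continuous (QQ : CL n → ℝ) := by unfold QQ; fun_prop

lemma map_sum_ee (D : CL n) (v : Euc n) : D v = ∑ l, v l • D (ee l) := by
  simp only [← map_smul, ← map_sum]
  congr 1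
  ext i
  simp [Pi.single_apply]

lemma op_le (D : CL n) : ‖D‖ ^ 2 ≤ QQ D := by
  have h0 : 0 ≤ QQ D := Finset.sum_nonneg fun _ _ => sq_nonneg _
  rw [← le_sqrt (norm_nonneg _) h0]
  refine D.opNorm_le_bound (sqrt_nonneg _) fun v => ?_
  rw [map_sum_ee]
  refine (norm_sum_le _ _).trans (le_of_sq_le_sq ?_ (by positivity))
  simp only [norm_smul]
  rw [mul_pow, sq_sqrt h0, mul_comm, EuclideanSpace.real_norm_sq_eq]
  simpa only [Real.norm_eq_abs, sq_abs, QQ] using Finset.sum_mul_sq_le_sq_mul_sq Finset.univ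
    (fun l => ‖v l‖) fun l => ‖D (ee l)‖

lemma QQ_le (D : CL n) : QQ D ≤ n * ‖D‖ ^ 2 := by
  have : ∀ l ∈ Finset.univ, ‖D (ee l)‖ ^ 2 ≤ ‖D‖ ^ 2 := fun l _ =>
    pow_le_pow_left₀ (norm_nonneg _) (by simpa using D.le_opNorm (ee l)) 2
  simpa [QQ] using Finset.sum_le_card_nsmul _ _ _ this

lemma half_le {T : CL n} (h : ‖T - 1‖ ≤ 1 / 2) (v : Euc n) : ‖v‖ / 2 ≤ ‖T v‖ := by
  have h1 := (T - 1).le_opNorm v
  have h2 := norm_sub_norm_le v (T v)
  rw [norm_sub_rev] at h2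
  simp only [sub_apply, one_apply_eq_self] at h1
  nlinarith [norm_nonneg v]

lemma norm_le_of {T : CL n} (h : ‖T - 1‖ ≤ 1 / 2) : ‖T‖ ≤ 3 / 2 := by
  have := norm_add_le (T - 1) 1
  rw [sub_add_cancel] at this
  linarith [ContinuousLinearMap.norm_id_le (𝕜 := ℝ) (E := Euc n),
    show ‖(1 : CL n)‖ = ‖ContinuousLinearMap.id ℝ (Euc n)‖ from rfl]

lemma barrier {T : CL n} (h : ‖T - 1‖ ≤ 1 / 2) (T1 : CL n) {α : ℝ} (α0 : 0 ≤ α) :
    ∃ d1 d2 : Fin n × Fin n → Unit → ℝ,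
      (∀ k, Jet (fun s _ => exp (-α * QQ (T + tau s • El k T - T1))) (d1 k) (d2 k)) ∧
      exp (-α * QQ (T - T1)) * (α ^ 2 * QQ (T - T1) - 6 * α * n ^ 2) ≤ ∑ k, d2 k () := by
  set D := T - T1 with hD
  have q : ∀ (k : Fin n × Fin n) s, QQ D + (2 * (∑ l, D (ee l) k.1 * T (ee l) k.2) * tau s +
      (∑ l, T (ee l) k.2 ^ 2) * (tau s * tau s)) = QQ (T + tau s • El k T - T1) := fun k s => by
    simp only [QQ, Finset.mul_sum, Finset.sum_mul, ← Finset.sum_add_distrib]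
    refine Finset.sum_congr rfl fun l _ => ?_
    have : (T + tau s • El k T - T1) (ee l) = D (ee l) + (tau s * T (ee l) k.2) • ee k.1 := by
      simp only [hD, sub_apply, add_apply,
        smul_apply, El_apply, smul_smul]
      abel
    rw [this, norm_add_sq_real, inner_smul_right, inner_ee, norm_smul, mul_pow]
    simp only [Real.norm_eq_abs, sq_abs, PiLp.norm_single, abs_one]
    ring
  refine ⟨_, fun k _ => exp (-α * QQ D) * (4 * α ^ 2 * (∑ l, D (ee l) k.1 * T (ee l) k.2) ^ 2 -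
    2 * α * ∑ l, T (ee l) k.2 ^ 2), fun k => (((Jet.const (continuous_const (y := QQ D))).add
    ((Jet.tau.cmul (continuous_const (y := 2 * ∑ l, D (ee l) k.1 * T (ee l) k.2))).add
      ((Jet.tau.mul Jet.tau).cmul (continuous_const (y := ∑ l, T (ee l) k.2 ^ 2))))).cmul
    (continuous_const (y := -α))).exp.congr (fun s _ => by rw [q]) (fun _ => rfl) fun _ => by
      simp only [tau_zero]; ring_nf, ?_⟩
  rw [← Finset.mul_sum, Finset.sum_sub_distrib, ← Finset.mul_sum, ← Finset.mul_sum]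
  refine mul_le_mul_of_nonneg_left ?_ (exp_pos _).le
  have h1 : QQ D ≤ 4 * ∑ k : Fin n × Fin n, (∑ l, D (ee l) k.1 * T (ee l) k.2) ^ 2 := by
    simp only [QQ, EuclideanSpace.real_norm_sq_eq]
    rw [Finset.sum_comm, Fintype.sum_prod_type, Finset.mul_sum]
    refine Finset.sum_le_sum fun i _ => ?_
    have := pow_le_pow_left₀ (by positivity) (half_le h (WithLp.toLp 2 fun l => D (ee l) i)) 2
    rw [div_pow, EuclideanSpace.real_norm_sq_eq, EuclideanSpace.real_norm_sq_eq, map_sum_ee] at this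
    simp only [WithLp.ofLp_sum, Finset.sum_apply, PiLp.smul_apply, smul_eq_mul] at this
    linarith
  have h2 : ∑ k : Fin n × Fin n, ∑ l, T (ee l) k.2 ^ 2 = n * QQ T := by
    simp only [QQ, EuclideanSpace.real_norm_sq_eq]
    rw [Fintype.sum_prod_type, Finset.sum_comm (f := fun l i => T (ee l) i ^ 2)]
    simp
  have h3 := (QQ_le T).trans (mul_le_mul_of_nonneg_left
    (pow_le_pow_left₀ (norm_nonneg _) (norm_le_of h) 2) n.cast_nonneg)
  rw [h2]
  linarith [mul_le_mul_of_nonneg_left h1 (sq_nonneg α), mul_le_mul_of_nonneg_left h3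
    (mul_nonneg α0 n.cast_nonneg), mul_nonneg α0 (sq_nonneg (n : ℝ))]

theorem hopf {f : CL n → ℝ} {μ : ℝ} (hμ : ∀ T, ‖T - 1‖ ≤ 1 / 2 → μ ≤ f T) (h1 : f 1 ≤ μ)
    (ap : ∀ δ > 0, ∃ g : CL n → ℝ, ContinuousOn g {T | ‖T - 1‖ ≤ 1 / 2} ∧
      ∀ T, ‖T - 1‖ ≤ 1 / 2 → |g T - f T| ≤ δ ∧ ∃ d1 d2 : Fin n × Fin n → Unit → ℝ,
        (∀ k, Jet (fun s _ => g (T + tau s • El k T)) (d1 k) (d2 k)) ∧ ∑ k, d2 k () ≤ δ)
    {T1 : CL n} (hT : QQ (T1 - 1) < 1 / 16) : f T1 ≤ μ := by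
  by_contra hc
  have nq : ∀ D : CL n, QQ D ≤ 1 / 16 → ‖D‖ ≤ 1 / 4 := fun D h =>
    le_of_sq_le_sq (by linarith [op_le D]) (by norm_num)
  have sub : ∀ T, QQ (T - T1) ≤ 1 / 16 → ‖T - 1‖ ≤ 1 / 2 := fun T h => by
    linarith [norm_sub_le_norm_sub_add_norm_sub T T1 1, nq _ h, nq _ hT.le]
  have T1K : ‖T1 - 1‖ ≤ 1 / 2 := by linarith [nq _ hT.le]
  set ε := (f T1 - μ) / 4 with hε
  have ε0 : 0 < ε := by linarith [not_le.1 hc]
  obtain ⟨q, q0, hq⟩ : ∃ q > 0, ∀ T, ‖T - 1‖ ≤ 1 / 2 → QQ (T - T1) ≤ q → μ + ε ≤ f T := by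
    obtain ⟨g, gc, hg⟩ := ap ε ε0
    obtain ⟨ρ, ρ0, hρ⟩ := Metric.continuousWithinAt_iff.1 (gc T1 T1K) ε ε0
    refine ⟨ρ ^ 2 / 2, by positivity, fun T hT h => ?_⟩
    have h2 := hρ hT (lt_of_pow_lt_pow_left₀ 2 ρ0.le (by
      rw [dist_eq_norm]; linarith [op_le (T - T1), pow_pos ρ0 2]))
    have h3 := abs_le.1 (hg T hT).1
    have h4 := abs_le.1 (hg T1 T1K).1
    rw [Real.dist_eq, abs_lt] at h2
    linarith
  have e1 : QQ (1 - T1) = QQ (T1 - 1) := by
    simp only [QQ, sub_apply, norm_sub_rev]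
  have q1 : q ≤ QQ (1 - T1) := le_of_not_ge fun h => by linarith [hq 1 (by simp) h]
  set α := (6 * n ^ 2 + 1) / q with hα
  have α0 : 0 < α := by positivity
  have g1 : 0 < exp (-α * QQ (1 - T1)) - exp (-α * (1 / 16)) :=
    sub_pos.2 (exp_lt_exp.2 (by linarith [mul_lt_mul_of_pos_left (e1 ▸ hT) α0]))
  set δ := min (ε * (exp (-α * QQ (1 - T1)) - exp (-α * (1 / 16))) / 3)
    (ε * (exp (-α * (1 / 16)) * α) / 2) with hδ
  have δ1 : δ ≤ _ := min_le_left _ _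
  have δ2 : δ ≤ _ := min_le_right _ _
  have δ0 : 0 < δ := lt_min (by positivity) (by positivity)
  obtain ⟨g, gc, hg⟩ := ap δ δ0
  have cp : IsCompact {T : CL n | q ≤ QQ (T - T1) ∧ QQ (T - T1) ≤ 1 / 16} :=
    (isCompact_closedBall T1 (1 / 4)).of_isClosed_subset
      (isClosed_Icc.preimage (by fun_prop : Continuous fun T => QQ (T - T1))) fun T h => mem_closedBall_iff_norm.2 (nq _ h.2)
  obtain ⟨T, ⟨m1, m2⟩, hm⟩ := cp.exists_isMinOn ⟨1, q1, e1 ▸ hT.le⟩
    (f := fun T => g T + -ε * exp (-α * QQ (T - T1)))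
    ((gc.mono fun T h => sub T h.2).add (Continuous.continuousOn (by fun_prop)))
  have TK := sub T m2
  have u1 : g T + -ε * exp (-α * QQ (T - T1)) ≤ g 1 + -ε * exp (-α * QQ (1 - T1)) :=
    hm ⟨q1, e1 ▸ hT.le⟩
  have b1 := abs_le.1 (hg T TK).1
  have b2 := abs_le.1 (hg 1 (by simp)).1
  rcases m1.eq_or_lt with m1 | m1
  · have : exp (-α * QQ (T - T1)) ≤ 1 := exp_le_one_iff.2 (by rw [← m1]; linarith [mul_pos α0 q0])
    linarith [hq T TK m1.ge, mul_pos ε0 (exp_pos (-α * (1 / 16))),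
      mul_le_mul_of_nonneg_left this ε0.le]
  rcases m2.eq_or_lt with m2 | m2
  · rw [m2] at u1
    linarith [hμ T TK]
  obtain ⟨d1, d2, j, s1⟩ := (hg T TK).2
  obtain ⟨c1, c2, j', s2⟩ := barrier TK T1 α0.le
  have key : ∀ k, 0 ≤ d2 k () + -ε * c2 k () := fun k => by
    refine ((j k).add ((j' k).cmul (continuous_const (y := -ε)))).nonneg () ?_
    have c : Continuous fun s => QQ (T + tau s • El k T - T1) := by unfold tau; fun_prop
    have z : T + tau 0 • El k T = T := by ext v i; simp [tau_zero]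
    filter_upwards [c.continuousAt.eventually (Ioo_mem_nhds (a := q) (b := 1 / 16)
      (by simpa only [z] using m1) (by simpa only [z] using m2))] with s ⟨a, b⟩
    rw [z]
    exact hm ⟨a.le, b.le⟩
  have s3 := Finset.sum_nonneg fun k (_ : k ∈ Finset.univ) => key k
  rw [Finset.sum_add_distrib, ← Finset.mul_sum] at s3
  have s4 : α ≤ α ^ 2 * QQ (T - T1) - 6 * α * n ^ 2 := by
    have : α * q = 6 * n ^ 2 + 1 := div_mul_cancel₀ _ q0.ne'
    have := congrArg (α * ·) this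
    linarith [mul_le_mul_of_nonneg_left m1.le (sq_nonneg α)]
  have s5 : exp (-α * (1 / 16)) * α ≤ ∑ k, c2 k () := le_trans (mul_le_mul
    (exp_le_exp.2 (by linarith [mul_le_mul_of_nonneg_left m2.le α0.le])) s4 α0.le (exp_pos _).le) s2
  linarith [mul_le_mul_of_nonneg_left s5 ε0.le]

end Pool.Agent.Lib.MP_229ad9_gt
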