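import Mathlib

set_option autoImplicit false
set_option linter.unusedSectionVars false

/-! Second order jets at zero of one-parameter families of continuous functions. -/

namespace Pool.Agent.Lib.MP_229ad9_gt

open MeasureTheory Set Real Function Filter Topology

variable {X : Type} [TopologicalSpace X]

/-- `f` is twice continuously differentiable in its first variable, with the given first and
second derivatives at zero. -/
def Jet (f : ℝ → X → ℝ) (d1 d2 : X → ℝ) : Prop :=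
  ∃ f1 f2 : ℝ → X → ℝ, (∀ t x, HasDerivAt (fun t => f t x) (f1 t x) t) ∧
    (∀ t x, HasDerivAt (fun t => f1 t x) (f2 t x) t) ∧ Continuous (uncurry f) ∧
    Continuous (uncurry f1) ∧ Continuous (uncurry f2) ∧ f1 0 = d1 ∧ f2 0 = d2

lemma Jet.congr {f g : ℝ → X → ℝ} {d1 d2 e1 e2 : X → ℝ} (h : Jet f d1 d2)
    (h0 : ∀ t x, f t x = g t x) (h1 : ∀ x, d1 x = e1 x) (h2 : ∀ x, d2 x = e2 x) : Jet g e1 e2 := by
  rwa [← show f = g from funext₂ h0, ← show d1 = e1 from funext h1, ← show d2 = e2 from funext h2]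

lemma Jet.const {c : X → ℝ} (hc : Continuous c) : Jet (fun _ => c) (fun _ => 0) fun _ => 0 :=
  ⟨fun _ _ => 0, fun _ _ => 0, fun _ _ => hasDerivAt_const _ _, fun _ _ => hasDerivAt_const _ _,
    hc.comp continuous_snd, continuous_const, continuous_const, rfl, rfl⟩

lemma Jet.id : Jet (fun t (_ : X) => t) (fun _ => 1) fun _ => 0 :=
  ⟨fun _ _ => 1, fun _ _ => 0, fun _ _ => hasDerivAt_id _, fun _ _ => hasDerivAt_const _ _,
    continuous_fst, continuous_const, continuous_const, rfl, rfl⟩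

lemma Jet.add {f g : ℝ → X → ℝ} {d1 d2 e1 e2 : X → ℝ} (h : Jet f d1 d2) (h' : Jet g e1 e2) :
    Jet (fun t x => f t x + g t x) (fun x => d1 x + e1 x) fun x => d2 x + e2 x := by
  obtain ⟨f1, f2, a1, a2, a3, a4, a5, rfl, rfl⟩ := h
  obtain ⟨g1, g2, b1, b2, b3, b4, b5, rfl, rfl⟩ := h'
  exact ⟨fun t x => f1 t x + g1 t x, fun t x => f2 t x + g2 t x,
    fun t x => (a1 t x).fun_add (b1 t x), fun t x => (a2 t x).fun_add (b2 t x), a3.add b3,
    a4.add b4, a5.add b5, rfl, rfl⟩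

lemma Jet.mul {f g : ℝ → X → ℝ} {d1 d2 e1 e2 : X → ℝ} (h : Jet f d1 d2) (h' : Jet g e1 e2) :
    Jet (fun t x => f t x * g t x) (fun x => d1 x * g 0 x + f 0 x * e1 x)
      fun x => d2 x * g 0 x + 2 * (d1 x * e1 x) + f 0 x * e2 x := by
  obtain ⟨f1, f2, a1, a2, a3, a4, a5, rfl, rfl⟩ := h
  obtain ⟨g1, g2, b1, b2, b3, b4, b5, rfl, rfl⟩ := h'
  refine ⟨fun t x => f1 t x * g t x + f t x * g1 t x,
    fun t x => f2 t x * g t x + 2 * (f1 t x * g1 t x) + f t x * g2 t x,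
    fun t x => (a1 t x).fun_mul (b1 t x), fun t x => (((a2 t x).fun_mul (b1 t x)).fun_add
      ((a1 t x).fun_mul (b2 t x))).congr_deriv (by ring), a3.mul b3, (a4.mul b3).add (a3.mul b4),
    ((a5.fun_mul b3).fun_add ((continuous_const (y := (2 : ℝ))).fun_mul (a4.fun_mul b4))).fun_add
      (a3.fun_mul b5), rfl, rfl⟩

lemma Jet.cmul {f : ℝ → X → ℝ} {d1 d2 c : X → ℝ} (hc : Continuous c) (h : Jet f d1 d2) :
    Jet (fun t x => c x * f t x) (fun x => c x * d1 x) fun x => c x * d2 x :=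
  ((Jet.const hc).mul h).congr (fun _ _ => rfl) (fun _ => by ring) fun _ => by ring

lemma Jet.sum {ι : Type} (s : Finset ι) {f : ι → ℝ → X → ℝ} {d1 d2 : ι → X → ℝ}
    (h : ∀ i, Jet (f i) (d1 i) (d2 i)) :
    Jet (fun t x => ∑ i ∈ s, f i t x) (fun x => ∑ i ∈ s, d1 i x) fun x => ∑ i ∈ s, d2 i x := by
  classical
  induction s using Finset.induction_on with
  | empty => simpa using Jet.const (X := X) (continuous_const (y := (0 : ℝ)))
  | insert i s hi ih => simpa only [Finset.sum_insert hi] using (h i).add ih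

lemma Jet.comp {f : ℝ → X → ℝ} {d1 d2 : X → ℝ} (h : Jet f d1 d2) {s : Set ℝ}
    (hs : ∀ t x, f t x ∈ s) {φ φ1 φ2 : ℝ → ℝ} (h1 : ∀ y ∈ s, HasDerivAt φ (φ1 y) y)
    (h2 : ∀ y ∈ s, HasDerivAt φ1 (φ2 y) y) (h3 : ContinuousOn φ2 s) :
    Jet (fun t x => φ (f t x)) (fun x => φ1 (f 0 x) * d1 x)
      fun x => φ2 (f 0 x) * d1 x ^ 2 + φ1 (f 0 x) * d2 x := by
  obtain ⟨f1, f2, a1, a2, a3, a4, a5, rfl, rfl⟩ := h
  have c0 : Continuous fun p : ℝ × X => φ (f p.1 p.2) := ContinuousOn.comp_continuous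
    (fun y hy => (h1 y hy).continuousAt.continuousWithinAt) a3 fun p => hs _ _
  have c1 : Continuous fun p : ℝ × X => φ1 (f p.1 p.2) := ContinuousOn.comp_continuous
    (fun y hy => (h2 y hy).continuousAt.continuousWithinAt) a3 fun p => hs _ _
  have c2 : Continuous fun p : ℝ × X => φ2 (f p.1 p.2) := h3.comp_continuous a3 fun p => hs _ _
  exact ⟨fun t x => φ1 (f t x) * f1 t x, fun t x => φ2 (f t x) * f1 t x ^ 2 + φ1 (f t x) * f2 t x,
    fun t x => (h1 _ (hs t x)).comp t (a1 t x),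
    fun t x => (((h2 _ (hs t x)).comp t (a1 t x)).fun_mul (a2 t x)).congr_deriv
      (by simp only [Function.comp]; ring), c0, c1.mul a4, 
    (c2.fun_mul (a4.fun_pow 2)).fun_add (c1.fun_mul a5), rfl, rfl⟩

lemma Jet.exp {f : ℝ → X → ℝ} {d1 d2 : X → ℝ} (h : Jet f d1 d2) :
    Jet (fun t x => exp (f t x)) (fun x => exp (f 0 x) * d1 x)
      fun x => exp (f 0 x) * d1 x ^ 2 + exp (f 0 x) * d2 x :=
  h.comp (fun _ _ => mem_univ _) (fun y _ => hasDerivAt_exp y) (fun y _ => hasDerivAt_exp y)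
    continuous_exp.continuousOn

lemma Jet.log {f : ℝ → X → ℝ} {d1 d2 : X → ℝ} (h : Jet f d1 d2) (h0 : ∀ t x, 0 < f t x) :
    Jet (fun t x => log (f t x)) (fun x => (f 0 x)⁻¹ * d1 x)
      fun x => -(f 0 x ^ 2)⁻¹ * d1 x ^ 2 + (f 0 x)⁻¹ * d2 x :=
  h.comp (s := Ioi 0) h0 (fun _ hy => hasDerivAt_log hy.out.ne')
    (fun _ hy => hasDerivAt_inv hy.out.ne') (φ2 := fun y => -(y ^ 2)⁻¹)
    ((continuousOn_pow 2).inv₀ fun _ hy => (pow_pos hy.out 2).ne').neg

lemma Jet.sin : Jet (fun t (_ : X) => sin t) (fun _ => 1) fun _ => 0 :=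
  (Jet.id.comp (fun _ _ => mem_univ _) (fun y _ => hasDerivAt_sin y) (fun y _ => hasDerivAt_cos y)
    continuous_sin.neg.continuousOn).congr (fun _ _ => rfl) (by simp) (by simp)

lemma Jet.cos : Jet (fun t (_ : X) => cos t) (fun _ => 0) fun _ => -1 :=
  (Jet.id.comp (fun _ _ => mem_univ _) (fun y _ => hasDerivAt_cos y)
    (fun y _ => (hasDerivAt_sin y).fun_neg)
    continuous_cos.neg.continuousOn).congr (fun _ _ => rfl) (by simp) (by simp)

/-- a bounded parameter with derivative one at zero -/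
noncomputable def tau (t : ℝ) : ℝ := sin t * cos t

lemma Jet.tau : Jet (fun t (_ : X) => tau t) (fun _ => 1) fun _ => 0 :=
  (Jet.sin.mul Jet.cos).congr (fun _ _ => rfl) (by simp) (by simp)

lemma tau_zero : tau 0 = 0 := by simp [tau]

lemma abs_tau (t : ℝ) : |tau t| ≤ 1 / 2 := by
  rw [tau, abs_le]
  constructor <;> nlinarith [sin_sq_add_cos_sq t, sq_nonneg (sin t + cos t),
    sq_nonneg (sin t - cos t)]

lemma Jet.nonneg {f : ℝ → X → ℝ} {d1 d2 : X → ℝ} (h : Jet f d1 d2) (x : X)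
    (hm : IsLocalMin (fun t => f t x) 0) : 0 ≤ d2 x := by
  obtain ⟨f1, f2, a1, a2, -, -, -, rfl, rfl⟩ := h
  by_contra hn
  have e1 : deriv (fun t => f t x) = fun t => f1 t x := funext fun t => (a1 t x).deriv
  have h0 : f1 0 x = 0 := hm.hasDerivAt_eq_zero (a1 0 x)
  have hM : IsLocalMax (fun t => f t x) 0 := isLocalMax_of_deriv_deriv_neg
    (by rw [e1, (a2 0 x).deriv]; exact not_le.1 hn) (by rw [e1]; exact h0)
    (a1 0 x).continuousAt
  have e2 : (fun t => f t x) =ᶠ[𝓝 0] fun _ => f 0 x :=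
    (hM.and hm).mono fun t ht => le_antisymm ht.1 ht.2
  have e3 := e2.deriv.deriv_eq
  rw [e1, (a2 0 x).deriv] at e3
  simp at e3
  exact hn e3.ge

section
variable [CompactSpace X] [MeasurableSpace X] [OpensMeasurableSpace X] [FirstCountableTopology X]
  (μ : Measure X) [IsFiniteMeasure μ]

lemma cont_int {g : X → ℝ} (hg : Continuous g) : Integrable g μ :=
  hg.integrable_of_hasCompactSupport (HasCompactSupport.of_compactSpace g)

lemma deriv_int {f f1 : ℝ → X → ℝ} (a1 : ∀ t x, HasDerivAt (fun t => f t x) (f1 t x) t)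
    (a3 : Continuous (uncurry f)) (a4 : Continuous (uncurry f1)) (t : ℝ) :
    HasDerivAt (fun t => ∫ x, f t x ∂μ) (∫ x, f1 t x ∂μ) t := by
  obtain ⟨C, hC⟩ := ((isCompact_closedBall t 1).prod (isCompact_univ (X := X))).exists_bound_of_continuousOn
    a4.continuousOn
  exact (hasDerivAt_integral_of_dominated_loc_of_deriv_le (Metric.closedBall_mem_nhds t one_pos)
    (bound := fun _ => C) (.of_forall fun s => (a3.uncurry_left s).aestronglyMeasurable)
    (cont_int μ (a3.uncurry_left t)) (a4.uncurry_left t).aestronglyMeasurable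
    (.of_forall fun x s hs => hC (s, x) ⟨hs, trivial⟩) (integrable_const _)
    (.of_forall fun x s _ => a1 s x)).2

lemma Jet.int {f : ℝ → X → ℝ} {d1 d2 : X → ℝ} (h : Jet f d1 d2) :
    Jet (fun t (_ : Unit) => ∫ x, f t x ∂μ) (fun _ => ∫ x, d1 x ∂μ) fun _ => ∫ x, d2 x ∂μ := by
  obtain ⟨f1, f2, a1, a2, a3, a4, a5, rfl, rfl⟩ := h
  have c : ∀ {g : ℝ → X → ℝ}, Continuous (uncurry g) →
      Continuous (uncurry fun t (_ : Unit) => ∫ x, g t x ∂μ) := fun hg => by
    have := continuous_parametric_integral_of_continuous (μ := μ) hg isCompact_univ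
    simp only [Measure.restrict_univ] at this
    exact this.comp continuous_fst
  exact ⟨fun t _ => ∫ x, f1 t x ∂μ, fun t _ => ∫ x, f2 t x ∂μ, fun t _ => deriv_int μ a1 a3 a4 t,
    fun t _ => deriv_int μ a2 a4 a5 t, c a3, c a4, c a5, rfl, rfl⟩

end

lemma Jet.cont {f : ℝ → X → ℝ} {d1 d2 : X → ℝ} (h : Jet f d1 d2) : Continuous d2 := by
  obtain ⟨f1, f2, -, -, -, -, a5, rfl, rfl⟩ := h
  exact a5.uncurry_left 0

end Pool.Agent.Lib.MP_229ad9_gt
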