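import Pool.Agent.Lib.MP_229ad9_gt.XEnd

set_option autoImplicit false
set_option linter.unusedSectionVars false

/-! The exact value of the least measure. -/

namespace Pool.Agent.Lib.MP_229ad9_gt

open MeasureTheory Set Real Metric Filter Topology

variable {n m : ℕ}

lemma psi_sigmoid {l : ℝ} (l0 : 0 ≤ l) (c : ℝ) : Psi (fun t => sigmoid (l * t + c))
    (fun t => l * (sigmoid (l * t + c) * (1 - sigmoid (l * t + c))))
    (fun t => l * (l * (sigmoid (l * t + c) * (1 - sigmoid (l * t + c))) *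
      (1 - 2 * sigmoid (l * t + c)))) l := by
  have d : ∀ y, HasDerivAt (fun t => sigmoid (l * t + c))
      (l * (sigmoid (l * y + c) * (1 - sigmoid (l * y + c)))) y := fun y =>
    ((hasDerivAt_sigmoid _).comp y (((hasDerivAt_id y).const_mul l).add_const c)).congr_deriv
      (by simp only [id]; ring)
  have p : ∀ y, 0 ≤ sigmoid y * (1 - sigmoid y) := fun y =>
    mul_nonneg (sigmoid_nonneg y) (sub_nonneg.2 (sigmoid_le_one y))
  refine ⟨d, fun y => (((d y).fun_mul ((d y).const_sub 1)).const_mul l).congr_deriv (by ring),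
    by fun_prop, fun y => mul_nonneg l0 (p _), fun y => mul_le_of_le_one_right l0
      (mul_le_one₀ (sigmoid_le_one _) (sub_nonneg.2 (sigmoid_le_one _))
        (sub_le_self _ (sigmoid_nonneg _))), fun y => ?_⟩
  rw [abs_mul, abs_mul, abs_of_nonneg l0, abs_of_nonneg (mul_nonneg l0 (p _))]
  refine mul_le_mul_of_nonneg_left (mul_le_of_le_one_right (mul_nonneg l0 (p _)) (abs_le.2 ?_)) l0
  constructor <;> linarith [sigmoid_nonneg (l * y + c), sigmoid_le_one (l * y + c)]

lemma nbhd_eq (B : Set (Sph n)) {ε : ℝ} (ε0 : 0 ≤ ε) :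
    nbhd B ε = {x | 1 - ε ^ 2 / 2 ≤ hs B x} := by
  ext x
  rw [nbhd, mem_ofPred_eq, infDist_image isometry_subtype_coe, mem_ofPred_eq, hs,
    ← sq_le_sq₀ infDist_nonneg ε0]
  constructor <;> intro h <;> linarith

lemma JJ_lim (B : Set (Sph n)) (c : ℝ) :
    Tendsto (fun j : ℕ => JJ (fun t => sigmoid ((j : ℝ) ^ 2 * t + (j - j ^ 2 * c))) B) atTop
      (𝓝 ((PP n).real {x | c ≤ hs B x})) := by
  rw [← integral_indicator_one (isClosed_le continuous_const (hs_cont B)).measurableSet]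
  refine tendsto_integral_of_dominated_convergence (fun _ => 1)
    (fun j => Continuous.aestronglyMeasurable (by fun_prop)) (integrable_const _)
    (fun j => .of_forall fun x => by
      rw [Real.norm_eq_abs, abs_of_nonneg (sigmoid_nonneg _)]; exact sigmoid_le_one _)
    (.of_forall fun x => ?_)
  by_cases h : c ≤ hs B x
  · rw [indicator_of_mem (by exact h)]
    refine tendsto_sigmoid_atTop.comp (tendsto_atTop_mono (fun j => ?_) tendsto_natCast_atTop_atTop)
    linarith [mul_le_mul_of_nonneg_left h (sq_nonneg (j : ℝ))]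
  · rw [indicator_of_notMem (by exact h)]
    refine tendsto_sigmoid_atBot.comp ?_
    have := (tendsto_natCast_atTop_atTop (R := ℝ)).atTop_mul_atBot₀ (tendsto_atBot_add_const_right
      _ 1 ((tendsto_natCast_atTop_atTop (R := ℝ)).atTop_mul_const_of_neg (sub_neg.2 (not_le.1 h))))
    exact this.congr fun j => by ring

lemma half_trans (hm : 1 ≤ m) (hn : m ≤ n) : Transversal m (half n (n - m)) := by
  intro V hV
  let T : V →ₗ[ℝ] {i : Fin n // ¬(i : ℕ) < n - m + 1} → ℝ :=
    { toFun := fun v i => v.1 i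
      map_add' := fun _ _ => rfl
      map_smul' := fun _ _ => rfl }
  have hT : LinearMap.ker T ≠ ⊥ := LinearMap.ker_ne_bot_of_finrank_lt (by
    rw [hV, Module.finrank_fintype_fun_eq_card, Fintype.card_subtype_compl,
      Fintype.card_fin_lt_of_le (by omega), Fintype.card_fin]
    omega)
  obtain ⟨v, hv, v0⟩ := Submodule.exists_mem_ne_zero_of_ne_bot hT
  have key : ∀ w : V, w ∈ LinearMap.ker T → w ≠ 0 → 0 ≤ w.1 ⟨n - m, by omega⟩ →
      ∃ a ∈ half n (n - m), (a : Euc n) ∈ V := fun w hw w0 h => by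
    have : ‖w.1‖ ≠ 0 := by simpa using w0
    refine ⟨⟨‖w.1‖⁻¹ • w.1, by simp [norm_smul, this]⟩, fun i => ⟨fun hi => ?_, fun hi => ?_⟩,
      V.smul_mem _ w.2⟩
    · have := congrFun (LinearMap.mem_ker.1 hw) ⟨i, by omega⟩
      exact mul_eq_zero_of_right _ this
    · rw [show i = ⟨n - m, by clear hi i; omega⟩ from Fin.ext hi]
      exact mul_nonneg (by positivity) h
  rcases le_total 0 (v.1 ⟨n - m, by omega⟩) with h | h
  · exact key v hv v0 h
  · exact key (-v) (neg_mem hv) (neg_ne_zero.2 v0) (by simpa using h)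

theorem sig_half_le (hm : 1 ≤ m) (hn : m ≤ n) {A : Set (Sph n)} (hA : Transversal m A) {ε : ℝ}
    (ε0 : 0 ≤ ε) : sig (nbhd (half n (n - m)) ε) ≤ sig (nbhd A ε) := by
  rw [nbhd_eq _ ε0, nbhd_eq _ ε0]
  exact div_le_div_of_nonneg_right (le_of_tendsto_of_tendsto' (JJ_lim _ _) (JJ_lim _ _) fun j =>
    JJ_half (psi_sigmoid (sq_nonneg _) _) hm hn hA) measureReal_nonneg

theorem mu_eq (hm : 1 ≤ m) (hn : m ≤ n) {ε : ℝ} (ε0 : 0 ≤ ε) :
    mu n m ε = sig (nbhd (half n (n - m)) ε) :=
  IsLeast.csInf_eq ⟨⟨_, half_trans hm hn, rfl⟩, by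
    rintro _ ⟨A, hA, rfl⟩; exact sig_half_le hm hn hA ε0⟩

end Pool.Agent.Lib.MP_229ad9_gt
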