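import Pool.Agent.Lib.MP_229ad9_gt.XJet

set_option autoImplicit false
set_option linter.unusedSectionVars false

/-! Second derivatives of smoothed maxima. -/

namespace Pool.Agent.Lib.MP_229ad9_gt

open Set Real

variable {ι : Type} [Fintype ι] [Nonempty ι]

/-- smoothed maximum -/
noncomputable def lse (β : ℝ) (y : ι → ℝ) : ℝ := β⁻¹ * log (∑ a, exp (β * y a))

/-- Gibbs weights -/
noncomputable def pw (β : ℝ) (y : ι → ℝ) (a : ι) : ℝ := exp (β * y a) / ∑ b, exp (β * y b)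

/-- second derivative of a function of the smoothed maximum -/
noncomputable def G2 (β c1 c2 : ℝ) (y u v : ι → ℝ) : ℝ :=
  (c2 - β * c1) * (∑ a, pw β y a * u a) ^ 2 + c1 * ∑ a, pw β y a * (β * u a ^ 2 + v a)

lemma sum_exp_pos (β : ℝ) (y : ι → ℝ) : 0 < ∑ a, exp (β * y a) :=
  Finset.sum_pos (fun _ _ => exp_pos _) Finset.univ_nonempty

lemma le_lse {β : ℝ} (hβ : 0 < β) (y : ι → ℝ) (a : ι) : y a ≤ lse β y := by
  rw [lse, le_inv_mul_iff₀ hβ, le_log_iff_exp_le (sum_exp_pos β y)]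
  exact Finset.single_le_sum (f := fun a => exp (β * y a)) (fun _ _ => (exp_pos _).le)
    (Finset.mem_univ a)

lemma lse_le {β : ℝ} (hβ : 0 < β) (y : ι → ℝ) {t : ℝ} (h : ∀ a, y a ≤ t) :
    lse β y ≤ t + Fintype.card ι / β := by
  rw [lse, inv_mul_le_iff₀ hβ, log_le_iff_le_exp (sum_exp_pos β y), mul_add, exp_add,
    mul_div_cancel₀ _ hβ.ne']
  have h1 : ∑ a, exp (β * y a) ≤ Fintype.card ι * exp (β * t) := by
    simpa using Finset.sum_le_card_nsmul _ _ _ fun a (_ : a ∈ Finset.univ) =>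
      exp_le_exp.2 (mul_le_mul_of_nonneg_left (h a) hβ.le)
  nlinarith [add_one_le_exp (Fintype.card ι : ℝ), exp_pos (β * t)]

lemma jet_lse {X : Type} [TopologicalSpace X] {t : ι → ℝ → X → ℝ} {u v : ι → X → ℝ}
    (h : ∀ a, Jet (t a) (u a) (v a)) {β : ℝ} (hβ : 0 < β) {ψ ψ1 ψ2 : ℝ → ℝ}
    (h1 : ∀ y, HasDerivAt ψ (ψ1 y) y) (h2 : ∀ y, HasDerivAt ψ1 (ψ2 y) y) (h3 : Continuous ψ2) :
    ∃ d1, Jet (fun s x => ψ (lse β fun a => t a s x)) d1 fun x =>
      G2 β (ψ1 (lse β fun a => t a 0 x)) (ψ2 (lse β fun a => t a 0 x)) (fun a => t a 0 x)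
        (fun a => u a x) fun a => v a x := by
  have j := (((Jet.sum Finset.univ fun a => ((h a).cmul (continuous_const (y := β))).exp).log
    fun s x => sum_exp_pos β fun a => t a s x).cmul (continuous_const (y := β⁻¹))).comp
    (fun _ _ => mem_univ _) (fun y _ => h1 y) (fun y _ => h2 y) h3.continuousOn
  refine ⟨_, j.congr (fun _ _ => rfl) (fun _ => rfl) fun x => ?_⟩
  have hS := (sum_exp_pos β fun a => t a 0 x).ne'
  have e1 : ∑ a, exp (β * t a 0 x) * (β * u a x) =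
      β * (∑ a, exp (β * t a 0 x)) * ∑ a, pw β (fun a => t a 0 x) a * u a x := by
    rw [Finset.mul_sum]
    exact Finset.sum_congr rfl fun a _ => by rw [pw]; field_simp
  have e2 : ∑ a, (exp (β * t a 0 x) * (β * u a x) ^ 2 + exp (β * t a 0 x) * (β * v a x)) =
      β * (∑ a, exp (β * t a 0 x)) *
        ∑ a, pw β (fun a => t a 0 x) a * (β * u a x ^ 2 + v a x) := by
    rw [Finset.mul_sum]
    exact Finset.sum_congr rfl fun a _ => by rw [pw]; field_simp
  rw [e1, e2, G2]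
  unfold lse
  field_simp
  ring

lemma pw_pos (β : ℝ) (y : ι → ℝ) (a : ι) : 0 < pw β y a := div_pos (exp_pos _) (sum_exp_pos β y)

lemma sum_pw (β : ℝ) (y : ι → ℝ) : ∑ a, pw β y a = 1 := by
  simp only [pw, ← Finset.sum_div]; exact div_self (sum_exp_pos β y).ne'

lemma pw_var {β : ℝ} (hβ : 0 < β) (y : ι → ℝ) :
    ∑ a, ∑ b, pw β y a * pw β y b * (y a - y b) ^ 2 ≤ 4 * Fintype.card ι / β ^ 2 := by
  obtain ⟨c, hc⟩ := Finite.exists_max y
  have h1 : ∀ a, pw β y a * (y c - y a) ^ 2 ≤ 2 / β ^ 2 := fun a => by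
    have h2 : exp (β * y c) ≤ ∑ b, exp (β * y b) := Finset.single_le_sum
      (f := fun a => exp (β * y a)) (fun _ _ => (exp_pos _).le) (Finset.mem_univ c)
    have h3 := quadratic_le_exp_of_nonneg (mul_nonneg hβ.le (sub_nonneg.2 (hc a)))
    have h4 : exp (β * y c) = exp (β * y a) * exp (β * (y c - y a)) := by
      rw [← exp_add]; congr 1; ring
    rw [pw, div_mul_eq_mul_div, div_le_div_iff₀ (sum_exp_pos β y) (by positivity)]
    nlinarith [mul_le_mul_of_nonneg_left h3 (exp_pos (β * y a)).le,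
      mul_nonneg (exp_pos (β * y a)).le (mul_nonneg hβ.le (sub_nonneg.2 (hc a))),
      exp_pos (β * y a)]
  have h2 : ∑ a, pw β y a * (y c - y a) ^ 2 ≤ Fintype.card ι * (2 / β ^ 2) := by
    simpa using Finset.sum_le_card_nsmul _ _ _ fun a (_ : a ∈ Finset.univ) => h1 a
  calc _ ≤ ∑ a, ∑ b, (pw β y a * (y c - y a) ^ 2 * pw β y b +
        pw β y a * (pw β y b * (y c - y b) ^ 2)) := by
        refine Finset.sum_le_sum fun a _ => Finset.sum_le_sum fun b _ => ?_
        nlinarith [mul_nonneg (mul_pos (pw_pos β y a) (pw_pos β y b)).le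
          (mul_nonneg (sub_nonneg.2 (hc a)) (sub_nonneg.2 (hc b)))]
    _ = 2 * ∑ a, pw β y a * (y c - y a) ^ 2 := by
        simp only [Finset.sum_add_distrib, ← Finset.mul_sum, ← Finset.sum_mul, sum_pw]; ring
    _ ≤ _ := by
        linarith [show 4 * (Fintype.card ι : ℝ) / β ^ 2 = 2 * (Fintype.card ι * (2 / β ^ 2)) by ring]

lemma sum_G2 {K : Type} [Fintype K] {β c1 c2 Λ : ℝ} (hβ : 0 < β) (hΛ : Λ ≤ β) (c0 : 0 ≤ c1)
    (cΛ : c1 ≤ Λ) (cc : |c2| ≤ Λ * c1) (y : ι → ℝ) (u v u' v' : K → ι → ℝ)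
    (h1 : ∀ a, ∑ k, (u k a ^ 2 - 1 / 2 * u' k a ^ 2) = 0)
    (h2 : ∀ a, ∑ k, (v k a - 1 / 2 * v' k a) = 0)
    (h3 : ∀ a b, -(2 * (y a - y b) ^ 2) ≤ ∑ k, (u k a * u k b - 1 / 2 * (u' k a * u' k b))) :
    ∑ k, (G2 β c1 c2 y (u k) (v k) - 1 / 2 * G2 β c1 c2 y (u' k) (v' k)) ≤
      16 * Λ * Fintype.card ι / β := by
  have e : ∑ k, (G2 β c1 c2 y (u k) (v k) - 1 / 2 * G2 β c1 c2 y (u' k) (v' k)) =
      (c2 - β * c1) * ∑ a, ∑ b, pw β y a * pw β y b *
        (∑ k, (u k a * u k b - 1 / 2 * (u' k a * u' k b))) +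
      c1 * ∑ a, pw β y a * (β * (∑ k, (u k a ^ 2 - 1 / 2 * u' k a ^ 2)) +
        ∑ k, (v k a - 1 / 2 * v' k a)) := by
    have e1 : ∀ k, G2 β c1 c2 y (u k) (v k) - 1 / 2 * G2 β c1 c2 y (u' k) (v' k) =
        (c2 - β * c1) * ∑ a, ∑ b, pw β y a * pw β y b *
          (u k a * u k b - 1 / 2 * (u' k a * u' k b)) +
        c1 * ∑ a, pw β y a * (β * (u k a ^ 2 - 1 / 2 * u' k a ^ 2) +
          (v k a - 1 / 2 * v' k a)) := fun k => by
      have a1 : ∑ a, ∑ b, pw β y a * pw β y b * (u k a * u k b - 1 / 2 * (u' k a * u' k b)) =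
          (∑ a, pw β y a * u k a) ^ 2 - 1 / 2 * (∑ a, pw β y a * u' k a) ^ 2 := by
        rw [sq, sq, Finset.sum_mul_sum, Finset.sum_mul_sum]
        simp only [Finset.mul_sum, ← Finset.sum_sub_distrib]
        exact Finset.sum_congr rfl fun a _ => Finset.sum_congr rfl fun b _ => by ring
      have a2 : ∑ a, pw β y a * (β * (u k a ^ 2 - 1 / 2 * u' k a ^ 2) + (v k a - 1 / 2 * v' k a)) =
          ∑ a, pw β y a * (β * u k a ^ 2 + v k a) -
            1 / 2 * ∑ a, pw β y a * (β * u' k a ^ 2 + v' k a) := by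
        simp only [Finset.mul_sum, ← Finset.sum_sub_distrib]
        exact Finset.sum_congr rfl fun a _ => by ring
      rw [a1, a2, G2, G2]; ring
    simp only [e1, Finset.sum_add_distrib (s := (Finset.univ : Finset K)),
      ← Finset.mul_sum (s := (Finset.univ : Finset K))]
    congr 2
    · rw [Finset.sum_comm]
      refine Finset.sum_congr rfl fun a _ => ?_
      rw [Finset.sum_comm]
      exact Finset.sum_congr rfl fun b _ => (Finset.mul_sum _ _ _).symm
    · rw [Finset.sum_comm]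
      refine Finset.sum_congr rfl fun a _ => ?_
      rw [← Finset.mul_sum, Finset.sum_add_distrib, ← Finset.mul_sum]
  simp only [e, h1, h2, mul_zero, add_zero, Finset.sum_const_zero]
  have h4 : -(2 * (4 * Fintype.card ι / β ^ 2)) ≤ ∑ a, ∑ b, pw β y a * pw β y b *
      (∑ k, (u k a * u k b - 1 / 2 * (u' k a * u' k b))) := by
    refine le_trans (by linarith [pw_var hβ y] : _ ≤ -(2 * ∑ a, ∑ b, pw β y a * pw β y b *
      (y a - y b) ^ 2)) ?_
    simp only [Finset.mul_sum (a := (2 : ℝ)), ← Finset.sum_neg_distrib]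
    refine Finset.sum_le_sum fun a _ => Finset.sum_le_sum fun b _ => ?_
    linarith [mul_le_mul_of_nonneg_left (h3 a b) (mul_pos (pw_pos β y a) (pw_pos β y b)).le]
  have h5 := mul_le_mul_of_nonneg_right hΛ c0
  have h6 := mul_le_mul_of_nonneg_left cΛ hβ.le
  rw [abs_le] at cc
  have h7 := mul_le_mul_of_nonneg_left h4 (show 0 ≤ β * c1 - c2 by linarith)
  have h8 := mul_le_mul_of_nonneg_right (show β * c1 - c2 ≤ 2 * β * Λ by linarith)
    (show 0 ≤ 2 * (4 * Fintype.card ι / β ^ 2) by positivity)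
  have h9 : 2 * β * Λ * (2 * (4 * Fintype.card ι / β ^ 2)) = 16 * Λ * Fintype.card ι / β := by
    field_simp; ring
  linarith

end Pool.Agent.Lib.MP_229ad9_gt
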