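import Pool.Agent.Lib.MP_229ad9_gt.XMain
import Pool.Agent.Lib.MP_229ad9_gt.Upper
import Pool.Agent.Lib.MP_229ad9_gt.Defs2

set_option autoImplicit false
set_option linter.unusedSectionVars false

/-! The volume of the tube around half of a great sphere. -/

namespace Pool.Agent.Lib.MP_229ad9_gt

open MeasureTheory Set Real Filter Topology WithLp

/-- indicator of a cone in the plane -/
noncomputable def ph (c r s : ℝ) : ℝ := if c * √(r ^ 2 + s ^ 2) ≤ r then 1 else 0

lemma ph_meas (c : ℝ) {X : Type} [MeasurableSpace X] {f g : X → ℝ} (hf : Measurable f)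
    (hg : Measurable g) : Measurable fun x => ph c (f x) (g x) :=
  Measurable.ite (measurableSet_le (by fun_prop) hf) measurable_const measurable_const

lemma ph_abs (c r s : ℝ) : |ph c r s| ≤ 1 := by unfold ph; split_ifs <;> simp

lemma quad (j l : ℕ) {c : ℝ} (c1 : c ≤ 1) :
    ∫ r in Ioi (0 : ℝ), r ^ j * ((∫ s in Ioi (0 : ℝ), s ^ l * (ph c r s * exp (-s ^ 2 / 2))) *
      exp (-r ^ 2 / 2)) =
    I (j + l + 1) 0 * ∫ θ in (0 : ℝ)..arccos (max 0 c), cos θ ^ j * sin θ ^ l := by
  set g : ℝ × ℝ → ℝ := fun p => ph c p.1 p.2 *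
    (p.1 ^ j * exp (0 * p.1 - p.1 ^ 2 / 2) * (p.2 ^ l * exp (0 * p.2 - p.2 ^ 2 / 2))) with hg
  have gi : Integrable g (volume.prod volume) :=
    ((I_int' j 0).mul_prod (I_int' l 0)).bdd_mul (c := 1)
      (ph_meas c measurable_fst measurable_snd).aestronglyMeasurable (.of_forall fun p => ph_abs _ _ _)
  have ρ0 := arccos_nonneg (max 0 c)
  have ρ1 : arccos (max 0 c) ≤ π / 2 := arccos_le_pi_div_two.2 (le_max_left _ _)
  calc _ = ∫ r in Ioi (0 : ℝ), ∫ s in Ioi (0 : ℝ), g (r, s) := by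
        refine integral_congr_ae (.of_forall fun r => ?_)
        simp only [← integral_mul_const, ← integral_const_mul, hg]
        refine integral_congr_ae (.of_forall fun s => ?_)
        simp only [zero_mul, zero_sub, neg_div]; ring
    _ = ∫ p, (Ioi 0 ×ˢ Ioi 0).indicator g p := by
        rw [integral_indicator (measurableSet_Ioi.prod measurableSet_Ioi), Measure.volume_eq_prod,
          setIntegral_prod _ gi.integrableOn]
    _ = ∫ p in Ioi (0 : ℝ) ×ˢ Ioo (-π) π, p.1 ^ (j + l + 1) * exp (0 * p.1 - p.1 ^ 2 / 2) *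
          (Ioc 0 (arccos (max 0 c)) ∩ Iio (π / 2)).indicator
            (fun θ => cos θ ^ j * sin θ ^ l) p.2 := by
        rw [← integral_comp_polarCoord_symm, polarCoord_target]
        refine setIntegral_congr_fun (measurableSet_Ioi.prod measurableSet_Ioo) ?_
        rintro ⟨R, θ⟩ ⟨hR, h1, h2⟩
        have hR : 0 < R := hR
        simp only [polarCoord_symm_apply, smul_eq_mul]
        have e : (R * cos θ) ^ 2 + (R * sin θ) ^ 2 = R ^ 2 := by
          linear_combination R ^ 2 * cos_sq_add_sin_sq θ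
        by_cases h : 0 < θ ∧ θ < π / 2
        · have p1 := cos_pos_of_mem_Ioo ⟨by linarith [h.1, pi_pos], h.2⟩
          have p2 := sin_pos_of_pos_of_lt_pi h.1 h2
          rw [indicator_of_mem (show (R * cos θ, R * sin θ) ∈ Ioi 0 ×ˢ Ioi 0 from
            ⟨mul_pos hR p1, mul_pos hR p2⟩)]
          have i : c * R ≤ R * cos θ ↔ θ ≤ arccos (max 0 c) := by
            rw [mul_comm R, mul_le_mul_iff_left₀ hR,
              ← strictAntiOn_cos.le_iff_ge ⟨arccos_nonneg _, arccos_le_pi _⟩ ⟨h.1.le, h2.le⟩,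
              cos_arccos (by linarith [le_max_left 0 c]) (max_le zero_le_one c1), max_le_iff,
              and_iff_right p1.le]
          simp only [hg, ph, e, sqrt_sq hR.le, i]
          split_ifs with h3
          · rw [indicator_of_mem (show θ ∈ Ioc 0 (arccos (max 0 c)) ∩ Iio (π / 2) from
              ⟨⟨h.1, h3⟩, h.2⟩)]
            have : exp (0 * (R * cos θ) - (R * cos θ) ^ 2 / 2) *
                exp (0 * (R * sin θ) - (R * sin θ) ^ 2 / 2) = exp (0 * R - R ^ 2 / 2) := by
              rw [← exp_add, ← e]; congr 1; ring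
            rw [← this]; ring
          · rw [indicator_of_notMem (s := Ioc 0 (arccos (max 0 c)) ∩ Iio (π / 2))
              fun h4 => h3 h4.1.2]
            simp
        · rw [indicator_of_notMem (s := Ioc 0 (arccos (max 0 c)) ∩ Iio (π / 2))
            fun h4 => h ⟨h4.1.1, h4.2⟩, indicator_of_notMem]
          · simp
          rintro ⟨p1, p2⟩
          have p1 : 0 < cos θ := (mul_pos_iff_of_pos_left hR).1 p1.out
          have p2 : 0 < sin θ := (mul_pos_iff_of_pos_left hR).1 p2.out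
          refine h ⟨not_le.1 fun h4 => p2.not_ge (sin_nonpos_of_nonpos_of_neg_pi_le h4 h1.le),
            not_le.1 fun h4 => p1.not_ge (cos_nonpos_of_pi_div_two_le_of_le h4 (by linarith))⟩
    _ = _ := by
        rw [Measure.volume_eq_prod, setIntegral_prod_mul
          (fun R : ℝ => R ^ (j + l + 1) * exp (0 * R - R ^ 2 / 2)),
          setIntegral_indicator (measurableSet_Ioc.inter measurableSet_Iio),
          intervalIntegral.integral_of_le ρ0]
        congr 1
        refine setIntegral_congr_set ?_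
        filter_upwards [compl_mem_ae_iff.2 (measure_singleton (π / 2))] with θ hθ
        exact propext ⟨fun h => h.2.1, fun h => ⟨⟨by linarith [h.1, pi_pos],
          by linarith [h.2, pi_pos]⟩, h, lt_of_le_of_ne (h.2.trans ρ1) hθ⟩⟩

section
variable {J J' : Type} [Fintype J] [Fintype J']

lemma Ex_two {j l : ℕ} (hJ : Fintype.card J = j + 1) (hJ' : Fintype.card J' = l + 1) {c : ℝ}
    (c1 : c ≤ 1) :
    Ex (fun x : J ⊕ J' → ℝ => ph c (nrm fun i => x (.inl i)) (nrm fun i => x (.inr i))) =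
      I (j + l + 1) 0 / (I j 0 * I l 0) *
        ∫ θ in (0 : ℝ)..arccos (max 0 c), cos θ ^ j * sin θ ^ l := by
  have t := gi_sum (J := J) (J' := J') (fun _ => 1) (fun _ => 1)
  simp only [one_mul] at t
  have e : ∫ x : J ⊕ J' → ℝ, ph c (nrm fun i => x (.inl i)) (nrm fun i => x (.inr i)) * gw x =
      ∫ u : J → ℝ, ∫ w : J' → ℝ, ph c (nrm u) (nrm w) * (gw u * gw w) := by
    rw [← integral_prod (fun p : (J → ℝ) × (J' → ℝ) => ph c (nrm p.1) (nrm p.2) * (gw p.1 * gw p.2))
      ((gw_int.mul_prod gw_int).bdd_mul (c := 1) (ph_meas c (nrm_cont.measurable.comp measurable_fst)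
        (nrm_cont.measurable.comp measurable_snd)).aestronglyMeasurable
        (.of_forall fun p => ph_abs _ _ _)), ← Measure.volume_eq_prod,
      ← (volume_measurePreserving_sumPiEquivProdPi fun _ : J ⊕ J' => ℝ).integral_comp']
    refine integral_congr_ae (.of_forall fun x => ?_)
    simp only [gw, Fintype.sum_sum_type, MeasurableEquiv.coe_sumPiEquivProdPi,
      Equiv.sumPiEquivProdPi_apply, neg_add, add_div, exp_add]
  have e2 : Ex (fun x : J ⊕ J' → ℝ => ph c (nrm fun i => x (.inl i)) (nrm fun i => x (.inr i))) =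
      Ex fun u : J → ℝ => Ex fun w : J' → ℝ => ph c (nrm u) (nrm w) := by
    rw [Ex, e, t, Ex, mul_comm (∫ x : J → ℝ, gw x), ← div_div, ← integral_div]
    congr 1
    refine integral_congr_ae (.of_forall fun u => ?_)
    simp only [Ex, ← integral_div, ← integral_mul_const]
    exact integral_congr_ae (.of_forall fun w => by ring)
  have e3 : ∀ r, (Ex fun w : J' → ℝ => ph c r (nrm w)) = (I l 0)⁻¹ *
      ∫ s in Ioi (0 : ℝ), s ^ l * (ph c r s * exp (-s ^ 2 / 2)) := fun r => by
    rw [Ex_rad hJ' (ph c r)]; ring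
  simp only [e2, e3]
  rw [Ex_const_mul, Ex_rad hJ fun r => ∫ s in Ioi (0 : ℝ), s ^ l * (ph c r s * exp (-s ^ 2 / 2)),
    quad j l c1]
  ring

lemma Ex_tube (p : J → Prop) [DecidablePred p] {j l : ℕ} (hj : Fintype.card {i // p i} = j + 1)
    (hl : Fintype.card {i // ¬p i} = l) {c : ℝ} (c1 : c ≤ 1) :
    Ex (fun x : J → ℝ => if c * nrm x ≤ nrm fun i : {i // p i} => x i then 1 else 0) =
      tube (j + 1) l (arccos (max 0 c)) := by
  have e : ∀ x : J → ℝ, nrm x = √((nrm fun i : {i // p i} => x i) ^ 2 +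
      (nrm fun i : {i // ¬p i} => x i) ^ 2) := fun x => by
    rw [nrm_sq, nrm_sq, Fintype.sum_subtype_add_sum_subtype p fun i => x i ^ 2, nrm]
  rcases l with _ | l
  · rw [tube, if_pos rfl]
    refine Eq.trans (congrArg _ (funext fun x => ?_)) (Ex_one (J := J))
    have := Fintype.card_eq_zero_iff.1 hl
    rw [if_pos]
    rw [e, show (nrm fun i : {i // ¬p i} => x i) = 0 by simp [nrm], zero_pow two_ne_zero, add_zero,
      sqrt_sq (nrm_nonneg _)]
    exact mul_le_of_le_one_left (nrm_nonneg _) c1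
  have k : ∀ c : ℝ, c ≤ 1 → Ex (fun x : J → ℝ =>
      if c * nrm x ≤ nrm fun i : {i // p i} => x i then 1 else 0) =
      I (j + l + 1) 0 / (I j 0 * I l 0) *
        ∫ θ in (0 : ℝ)..arccos (max 0 c), cos θ ^ j * sin θ ^ l := fun c c1 => by
    rw [← Ex_two hj hl c1, ← Ex_equiv (Equiv.sumCompl p)]
    congr 1
    funext x
    rw [e]; rfl
  have k0 := k 0 zero_le_one
  simp only [zero_mul, nrm_nonneg, if_true, Ex_one, max_self, arccos_zero] at k0
  rw [k c c1, tube, if_neg l.succ_ne_zero, add_tsub_cancel_right, add_tsub_cancel_right,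
    eq_div_iff (right_ne_zero_of_mul_eq_one k0.symm)]
  linear_combination -(∫ θ in (0 : ℝ)..arccos (max 0 c), cos θ ^ j * sin θ ^ l) * k0

lemma Ex_refl (i : J) {f g : (J → ℝ) → ℝ} (fm : Measurable f) (gm : Measurable g)
    (fb : ∀ x, |f x| ≤ 1) (gb : ∀ x, |g x| ≤ 1) (hf : ∀ x, f (-x) = f x) (hg : ∀ x, g (-x) = g x)
    (h0 : ∀ x, x i = 0 → f x = g x) :
    Ex (fun x => if 0 ≤ x i then f x else g x) = (Ex f + Ex g) / 2 := by
  set F : (J → ℝ) → ℝ := fun x => if 0 ≤ x i then f x else g x with hF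
  have Fm : Measurable F := Measurable.ite (measurableSet_le measurable_const (by fun_prop)) fm gm
  have Fb : ∀ v, |F v| ≤ 1 := fun v => by simp only [hF]; split_ifs; exacts [fb v, gb v]
  rw [eq_div_iff two_ne_zero, mul_two, ← Ex_add (bdd_int fm fb) (bdd_int gm gb)]
  nth_rw 2 [← Ex_neg F]
  rw [← Ex_add (bdd_int Fm Fb) (bdd_int (f := fun v => F (-v)) (Fm.comp measurable_neg)
    fun v => Fb _)]
  refine congrArg _ (funext fun x => ?_)
  simp only [hF, hf, hg, Pi.neg_apply, Left.nonneg_neg_iff]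
  split_ifs with h1 h2 h2
  · rw [h0 x (le_antisymm h2 h1)]
  · rfl
  · ring
  · exact absurd (not_le.1 h1).le h2

end

variable {n k : ℕ}

lemma proj_mem (hk : 0 < k) (hn : k < n) (q : ℕ) (x : Fin n → ℝ)
    (h : ∀ i : Fin n, (i : ℕ) < q → (i : ℕ) < k ∨ (i : ℕ) = k ∧ 0 ≤ x i) :
    ∃ a ∈ half n k, (nrm fun i : {i : Fin n // (i : ℕ) < q} => x i) ≤
      inner ℝ (a : Euc n) (toLp 2 x) := by
  set y : Fin n → ℝ := fun i => if (i : ℕ) < q then x i else 0 with hy
  set r := nrm fun i : {i : Fin n // (i : ℕ) < q} => x i with hr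
  have e : ∑ i, y i * x i = r ^ 2 := by
    rw [hr, nrm_sq, ← Fintype.sum_subtype_add_sum_subtype fun i : Fin n => (i : ℕ) < q,
      Finset.sum_eq_zero (s := Finset.univ) (f := fun i : {i : Fin n // ¬(i : ℕ) < q} => _)
        fun i _ => by simp [hy, i.2], add_zero]
    exact Finset.sum_congr rfl fun i _ => by simp [hy, i.2, sq]
  have rn : 0 ≤ r := nrm_nonneg _
  have e' : nrm y = r := by
    rw [← sqrt_sq rn, ← e]
    refine congrArg _ (Finset.sum_congr rfl fun i _ => ?_)
    simp only [hy]; split_ifs <;> simp [sq]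
  rcases rn.eq_or_lt with r0 | r0
  · rw [← r0]
    have key : ∀ s : ℝ, |s| = 1 → 0 ≤ s * x ⟨0, by omega⟩ →
        ∃ a ∈ half n k, 0 ≤ inner ℝ (a : Euc n) (toLp 2 x) := fun s hs h =>
      ⟨⟨EuclideanSpace.single ⟨0, by omega⟩ s, by simp [hs]⟩, fun i => ⟨fun h => by
        simp [Fin.ext_iff, show (i : ℕ) ≠ 0 by omega], fun h => by
        simp [Fin.ext_iff, show (i : ℕ) ≠ 0 by omega]⟩, by
        simpa [EuclideanSpace.inner_single_left] using h⟩
    rcases le_total 0 (x ⟨0, by omega⟩) with h | h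
    · exact key 1 abs_one (by simpa using h)
    · exact key (-1) (by simp) (by simpa using h)
  refine ⟨⟨r⁻¹ • toLp 2 y, by simp [norm_smul, norm_toLp, e', abs_of_pos r0, r0.ne']⟩,
    fun i => ⟨fun hi => ?_, fun hi => ?_⟩, ?_⟩
  · exact mul_eq_zero_of_right _ (if_neg fun h' => by rcases h i h' with h | h <;> omega)
  · refine mul_nonneg (by positivity) (show 0 ≤ if (i : ℕ) < q then x i else 0 from ?_)
    split_ifs with h'
    · rcases h i h' with h | h
      · omega
      · exact h.2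
    · rfl
  · rw [real_inner_smul_left, inner_toLp, lin, e]
    field_simp; rfl

theorem sig_half (hk : 0 < k) (hn : k < n) {ε : ℝ} (ε0 : 0 ≤ ε) :
    sig (nbhd (half n k) ε) = (tube k (n - k) (arccos (max 0 (1 - ε ^ 2 / 2))) +
      tube (k + 1) (n - k - 1) (arccos (max 0 (1 - ε ^ 2 / 2)))) / 2 := by
  obtain ⟨j, rfl⟩ : ∃ j, n = j + 1 := ⟨n - 1, by omega⟩
  obtain ⟨k, rfl⟩ : ∃ k', k = k' + 1 := ⟨k - 1, by omega⟩
  set c := 1 - ε ^ 2 / 2 with hc
  have c1 : c ≤ 1 := by linarith [sq_nonneg ε]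
  have cp : ∀ q ≤ j + 1, Fintype.card {i : Fin (j + 1) // ¬(i : ℕ) < q} = j + 1 - q :=
    fun q hq => by rw [Fintype.card_subtype_compl, Fintype.card_fin_lt_of_le hq, Fintype.card_fin]
  have e := Ex_cone (nbhd_meas (half (j + 1) (k + 1)) ε) 0
  rw [div_self (I_pos _ _).ne', mul_one] at e
  have m : ∀ q : ℕ, Measurable fun x : Fin (j + 1) → ℝ =>
      if c * nrm x ≤ nrm fun i : {i : Fin (j + 1) // (i : ℕ) < q} => x i then (1 : ℝ) else 0 :=
    fun q => Measurable.ite (isClosed_le (by fun_prop) (by fun_prop)).measurableSet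
      measurable_const measurable_const
  rw [← e, add_comm (tube _ _ _), ← Ex_tube _ (Fintype.card_fin_lt_of_le hn.le) (cp _ hn.le) c1,
    ← Ex_tube (j := k + 1) _ (Fintype.card_fin_lt_of_le hn) ((cp _ hn).trans (by omega)) c1,
    ← Ex_refl ⟨k + 1, hn⟩ (m _) (m _) (fun x => by split_ifs <;> simp)
      (fun x => by split_ifs <;> simp) (fun x => by simp [nrm]) (fun x => by simp [nrm])
      fun x hx => ?_, Ex, Ex]
  · congr 1
    refine integral_congr_ae ?_
    filter_upwards [compl_mem_ae_iff.2 (measure_singleton (0 : Fin (j + 1) → ℝ))] with x hx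
    have x0 : (toLp 2 x : Euc (j + 1)) ≠ 0 := by simpa using hx
    congr 1
    have key : ∀ q : ℕ, (∀ i : Fin (j + 1), (i : ℕ) < q → (i : ℕ) < k + 1 ∨
        (i : ℕ) = k + 1 ∧ 0 ≤ x i) → (∀ i : Fin (j + 1), ¬(i : ℕ) < q → k + 1 < (i : ℕ) ∨
        (i : ℕ) = k + 1 ∧ x i ≤ 0) → (cone (nbhd (half (j + 1) (k + 1)) ε)).indicator
          (fun h => exp (0 * ‖h‖)) (toLp 2 x) =
        if c * nrm x ≤ nrm fun i : {i : Fin (j + 1) // (i : ℕ) < q} => x i then (1 : ℝ) else 0 :=
      fun q h1 h2 => by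
        split_ifs with h
        · obtain ⟨a, ha, h3⟩ := proj_mem hk hn q x h1
          rw [indicator_of_mem (mem_cone_nbhd ε0 ha x0 (by rw [norm_toLp]; exact h.trans h3))]
          simp
        · refine indicator_of_notMem (fun h3 => h ?_) _
          rw [← norm_toLp]
          refine inner_le_of_mem_cone (half_nonempty hn) h3 fun a ha =>
            inner_le_nrm _ a x fun i hi => ?_
          rcases h2 i hi with h4 | h4
          · rw [(ha i).1 h4, zero_mul]
          · exact mul_nonpos_of_nonneg_of_nonpos ((ha i).2 h4.1) h4.2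
    by_cases h : 0 ≤ x ⟨k + 1, hn⟩
    · rw [if_pos h]
      refine key _ (fun i hi => ?_) fun i hi => .inl (by omega)
      rcases (Nat.le_of_lt_succ hi).lt_or_eq with h' | h'
      · exact .inl h'
      · exact .inr ⟨h', (show ⟨k + 1, hn⟩ = i from Fin.ext h'.symm) ▸ h⟩
    · rw [if_neg h]
      refine key _ (fun i hi => .inl hi) fun i hi => ?_
      rcases (not_lt.1 hi).lt_or_eq with h' | h'
      · exact .inl h'
      · exact .inr ⟨h'.symm, (show ⟨k + 1, hn⟩ = i from Fin.ext h') ▸ (not_le.1 h).le⟩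
  · have : (nrm fun i : {i : Fin (j + 1) // (i : ℕ) < k + 1 + 1} => x i) =
        nrm fun i : {i : Fin (j + 1) // (i : ℕ) < k + 1} => x i := by
      simp only [nrm]
      rw [← Finset.sum_subtype (Finset.univ.filter fun i : Fin (j + 1) => (i : ℕ) < k + 1 + 1)
        (by simp) fun i => x i ^ 2, ← Finset.sum_subtype
        (Finset.univ.filter fun i : Fin (j + 1) => (i : ℕ) < k + 1) (by simp) fun i => x i ^ 2]
      refine congrArg _ (Finset.sum_subset (fun i => by simp; omega) fun i h1 h2 => ?_).symm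
      rw [show i = ⟨k + 1, hn⟩ from Fin.ext (by simp at h1 h2 ⊢; omega), hx]
      simp
    rw [this]

end Pool.Agent.Lib.MP_229ad9_gt
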